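import Mathlib
set_option autoImplicit false
open Set MeasureTheory

namespace Pool.Agent.Helper90.CB

namespace LN

variable {Z X : Type} [MeasurableSpace Z] [MeasurableSpace X]

/-- `A` is covered by countably many measurable sets on which `f` is injective -/
def Good (f : Z → X) (A : Set Z) : Prop :=
  ∃ C : ℕ → Set Z, (∀ n, MeasurableSet (C n)) ∧ (∀ n, InjOn f (C n)) ∧ A ⊆ ⋃ n, C n

omit [MeasurableSpace X] in
theorem Good.mono {f : Z → X} {A B : Set Z} (h : Good f B) (hAB : A ⊆ B) : Good f A := by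
  obtain ⟨C, h1, h2, h3⟩ := h
  exact ⟨C, h1, h2, hAB.trans h3⟩

omit [MeasurableSpace X] in
theorem Good.empty (f : Z → X) : Good f ∅ :=
  ⟨fun _ => ∅, fun _ => MeasurableSet.empty, fun _ => injOn_empty f, empty_subset _⟩

omit [MeasurableSpace X] in
theorem Good.iUnion {f : Z → X} {ι : Type} [Countable ι] {A : ι → Set Z}
    (h : ∀ i, Good f (A i)) : Good f (⋃ i, A i) := by
  rcases isEmpty_or_nonempty ι with he | he
  · rw [iUnion_of_empty]; exact Good.empty f
  choose C h1 h2 h3 using h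
  obtain ⟨e, he⟩ := exists_surjective_nat (ι × ℕ)
  refine ⟨fun n => C (e n).1 (e n).2, fun n => h1 _ _, fun n => h2 _ _, ?_⟩
  intro z hz
  obtain ⟨i, hi⟩ := mem_iUnion.1 hz
  obtain ⟨n, hn⟩ := mem_iUnion.1 (h3 i hi)
  obtain ⟨k, hk⟩ := he (i, n)
  refine mem_iUnion.2 ⟨k, ?_⟩
  simp only [hk]
  exact hn

omit [MeasurableSpace X] in
theorem Good.union {f : Z → X} {A B : Set Z} (hA : Good f A) (hB : Good f B) :
    Good f (A ∪ B) := by
  have : A ∪ B = ⋃ b : Bool, (if b then A else B) := by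
    ext z
    simp [or_comm]
  rw [this]
  apply Good.iUnion
  intro b
  cases b
  · simpa using hB
  · simpa using hA

omit [MeasurableSpace X] in
theorem Good.of_injOn {f : Z → X} {A : Set Z} (hA : MeasurableSet A) (h : InjOn f A) :
    Good f A :=
  ⟨fun _ => A, fun _ => hA, fun _ => h, fun _ hz => mem_iUnion.2 ⟨0, hz⟩⟩

/-- smallness of a finite tuple of sets -/
def Small (f : Z → X) (T : Finset ℕ) (Q : ℕ → Set Z) : Prop :=
  ∃ B : ℕ → Set X, (∀ i, MeasurableSet (B i)) ∧ (⋂ i ∈ T, B i) = ∅ ∧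
    ∀ i ∈ T, Good f (Q i \ f ⁻¹' (B i))

theorem not_small_single {f : Z → X} (h : ¬ Good f univ) :
    ¬ Small f {0} (fun _ => univ) := by
  rintro ⟨B, _, h2, h3⟩
  apply h
  have h4 : B 0 = ∅ := by simpa using h2
  have h5 := h3 0 (by simp)
  rw [h4] at h5
  simpa using h5

theorem Small.nonempty {f : Z → X} {T : Finset ℕ} {Q : ℕ → Set Z} (h : ¬ Small f T Q) {i : ℕ}
    (hi : i ∈ T) : (Q i).Nonempty := by
  by_contra hne
  rw [not_nonempty_iff_eq_empty] at hne
  apply h
  refine ⟨fun j => if j = i then ∅ else univ, ?_, ?_, ?_⟩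
  · intro j
    dsimp only
    split_ifs
    · exact MeasurableSet.empty
    · exact MeasurableSet.univ
  · apply eq_empty_of_forall_notMem
    intro x hx
    have := mem_iInter₂.1 hx i hi
    simp at this
  · intro j _
    by_cases hj : j = i
    · subst hj
      rw [hne, empty_sdiff]
      exact Good.empty f
    · simp only [if_neg hj, preimage_univ, sdiff_univ]
      exact Good.empty f

/-- refining one coordinate -/
theorem refine_one {f : Z → X} {T : Finset ℕ} {Q : ℕ → Set Z} (h : ¬ Small f T Q) {i0 : ℕ}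
    (hi0 : i0 ∈ T) {κ : Type} [Countable κ] (R : κ → Set Z) (hR : Q i0 ⊆ ⋃ m, R m) :
    ∃ m, ¬ Small f T (Function.update Q i0 (Q i0 ∩ R m)) := by
  by_contra hcon
  push Not at hcon
  choose B hB1 hB2 hB3 using hcon
  apply h
  refine ⟨fun i => if i = i0 then ⋃ m, B m i else ⋂ m, B m i, ?_, ?_, ?_⟩
  · intro i
    dsimp only
    split_ifs
    · exact MeasurableSet.iUnion fun m => hB1 m i
    · exact MeasurableSet.iInter fun m => hB1 m i
  · apply eq_empty_of_forall_notMem
    intro x hx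
    rw [mem_iInter₂] at hx
    have h0 := hx i0 hi0
    dsimp only at h0
    rw [if_pos rfl] at h0
    obtain ⟨m, hm⟩ := mem_iUnion.1 h0
    have : x ∈ ⋂ i ∈ T, B m i := by
      rw [mem_iInter₂]
      intro i hi
      by_cases hii : i = i0
      · rw [hii]; exact hm
      · have := hx i hi
        dsimp only at this
        rw [if_neg hii] at this
        exact mem_iInter.1 this m
    rw [hB2 m] at this
    exact this
  · intro i hi
    by_cases hii : i = i0
    · subst hii
      simp only [if_true]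
      refine (Good.iUnion (fun m => hB3 m i hi)).mono ?_
      rintro z ⟨hz1, hz2⟩
      obtain ⟨m, hm⟩ := mem_iUnion.1 (hR hz1)
      refine mem_iUnion.2 ⟨m, ?_⟩
      rw [Function.update_self]
      refine ⟨⟨hz1, hm⟩, fun hz3 => hz2 (mem_iUnion.2 ⟨m, hz3⟩)⟩
    · simp only [if_neg hii]
      refine (Good.iUnion (fun m => hB3 m i hi)).mono ?_
      rintro z ⟨hz1, hz2⟩
      have hz3 : ¬ ∀ m, f z ∈ B m i := fun hh => hz2 (mem_iInter.2 hh)
      push Not at hz3
      obtain ⟨m, hm⟩ := hz3
      refine mem_iUnion.2 ⟨m, ?_⟩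
      rw [Function.update_of_ne hii]
      exact ⟨hz1, hm⟩

/-- refining all coordinates -/
theorem refine_all {f : Z → X} {T : Finset ℕ} {κ : Type} [Countable κ] (R : κ → Set Z)
    (hR : ⋃ m, R m = univ) (hRm : ∀ m, MeasurableSet (R m)) (J : Finset ℕ) :
    J ⊆ T → ∀ Q : ℕ → Set Z, (∀ i, MeasurableSet (Q i)) → ¬ Small f T Q →
    ∃ Q' : ℕ → Set Z, (∀ i, MeasurableSet (Q' i)) ∧ ¬ Small f T Q' ∧ (∀ i, Q' i ⊆ Q i) ∧
      ∀ i ∈ J, ∃ m, Q' i ⊆ R m := by
  induction J using Finset.induction_on with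
  | empty =>
    intro _ Q hQ h
    exact ⟨Q, hQ, h, fun _ => subset_rfl, by simp⟩
  | insert a J ha ih =>
    intro hJ Q hQ h
    obtain ⟨Q1, h1, h2, h3, h4⟩ := ih ((Finset.subset_insert a J).trans hJ) Q hQ h
    obtain ⟨m, hm⟩ := refine_one h2 (hJ (Finset.mem_insert_self a J)) R (by rw [hR]; simp)
    refine ⟨_, ?_, hm, ?_, ?_⟩
    · intro i
      by_cases hi : i = a
      · subst hi
        rw [Function.update_self]
        exact (h1 i).inter (hRm m)
      · rw [Function.update_of_ne hi]; exact h1 i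
    · intro i
      by_cases hi : i = a
      · subst hi
        rw [Function.update_self]
        exact inter_subset_left.trans (h3 i)
      · rw [Function.update_of_ne hi]; exact h3 i
    · intro i hi
      by_cases hia : i = a
      · subst hia
        rw [Function.update_self]
        exact ⟨m, inter_subset_right⟩
      · rw [Function.update_of_ne hia]
        exact h4 i ((Finset.mem_insert.1 hi).resolve_left hia)

/-- splitting one coordinate -/
theorem split [MetricSpace Z] [SecondCountableTopology Z] [BorelSpace Z]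
    {f : Z → X} (hf : Measurable f)
    {T : Finset ℕ} {Q : ℕ → Set Z} (hQ : ∀ i, MeasurableSet (Q i)) (h : ¬ Small f T Q)
    {i0 i1 i2 : ℕ} (hi0 : i0 ∈ T) (hi1 : i1 ∉ T) (hi2 : i2 ∉ T) (h12 : i1 ≠ i2) :
    ∃ U V : Set Z, IsOpen U ∧ IsOpen V ∧ Disjoint (closure U) (closure V) ∧
      ¬ Small f (insert i1 (insert i2 (T.erase i0)))
        (Function.update (Function.update Q i1 (Q i0 ∩ U)) i2 (Q i0 ∩ V)) := by
  classical
  by_contra hcon
  push Not at hcon
  obtain ⟨b, hbc, -, hb⟩ := TopologicalSpace.exists_countable_basis Z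
  have hbc' : Countable b := hbc.to_subtype
  let P := {p : b × b // Disjoint (closure (p.1 : Set Z)) (closure (p.2 : Set Z))}
  have hP : ∀ p : P, Small f (insert i1 (insert i2 (T.erase i0)))
        (Function.update (Function.update Q i1 (Q i0 ∩ (p.1.1 : Set Z))) i2
          (Q i0 ∩ (p.1.2 : Set Z))) :=
    fun p => hcon _ _ (hb.isOpen p.1.1.2) (hb.isOpen p.1.2.2) p.2
  choose B hB1 hB2 hB3 using hP
  have hi10 : i1 ≠ i0 := fun hh => hi1 (hh ▸ hi0)
  have hi20 : i2 ≠ i0 := fun hh => hi2 (hh ▸ hi0)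
  let C : Set X := ⋂ i ∈ T.erase i0, ⋂ p : P, B p i
  have hCm : MeasurableSet C :=
    Finset.measurableSet_biInter _ (fun i _ => MeasurableSet.iInter fun p => hB1 p i)
  apply h
  refine ⟨fun i => if i = i0 then Cᶜ else ⋂ p : P, B p i, ?_, ?_, ?_⟩
  · intro i
    dsimp only
    split_ifs
    · exact hCm.compl
    · exact MeasurableSet.iInter fun p => hB1 p i
  · apply eq_empty_of_forall_notMem
    intro x hx
    rw [mem_iInter₂] at hx
    have h0 := hx i0 hi0
    dsimp only at h0
    rw [if_pos rfl] at h0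
    apply h0
    rw [mem_iInter₂]
    intro i hi
    rw [Finset.mem_erase] at hi
    have := hx i hi.2
    dsimp only at this
    rw [if_neg hi.1] at this
    exact this
  · intro i hi
    by_cases hii : i = i0
    · subst hii
      simp only [if_true]
      -- the good part
      let G : Set Z := ⋃ p : P, (((Q i ∩ (p.1.1 : Set Z)) \ f ⁻¹' (B p i1)) ∪
        ((Q i ∩ (p.1.2 : Set Z)) \ f ⁻¹' (B p i2)))
      have hG : Good f G := by
        apply Good.iUnion
        intro p
        apply Good.union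
        · have := hB3 p i1 (by simp)
          rwa [Function.update_of_ne h12, Function.update_self] at this
        · have := hB3 p i2 (by simp)
          rwa [Function.update_self] at this
      have hGm : MeasurableSet G := by
        apply MeasurableSet.iUnion
        intro p
        apply MeasurableSet.union
        · exact ((hQ i).inter (hb.isOpen p.1.1.2).measurableSet).diff (hf (hB1 p i1))
        · exact ((hQ i).inter (hb.isOpen p.1.2.2).measurableSet).diff (hf (hB1 p i2))
      have hinj : InjOn f ((Q i ∩ f ⁻¹' C) \ G) := by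
        rintro z ⟨⟨hz1, hz2⟩, hz3⟩ z' ⟨⟨hz1', hz2'⟩, hz3'⟩ hzz
        by_contra hne
        have hpos : 0 < dist z z' := dist_pos.2 hne
        obtain ⟨U, hU, hzU, hUs⟩ := hb.exists_subset_of_mem_open
          (show z ∈ Metric.ball z (dist z z' / 3) from Metric.mem_ball_self (by linarith))
          Metric.isOpen_ball
        obtain ⟨V, hV, hzV, hVs⟩ := hb.exists_subset_of_mem_open
          (show z' ∈ Metric.ball z' (dist z z' / 3) from Metric.mem_ball_self (by linarith))
          Metric.isOpen_ball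
        have hd : Disjoint (closure U) (closure V) := by
          rw [Set.disjoint_left]
          intro w hw hw'
          have a1 := Metric.closure_ball_subset_closedBall (closure_mono hUs hw)
          have a2 := Metric.closure_ball_subset_closedBall (closure_mono hVs hw')
          rw [Metric.mem_closedBall] at a1 a2
          have a3 := dist_triangle_left z z' w
          linarith
        let p : P := ⟨(⟨U, hU⟩, ⟨V, hV⟩), hd⟩
        have hx1 : f z ∈ B p i1 := by
          by_contra hh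
          exact hz3 (mem_iUnion.2 ⟨p, Or.inl ⟨⟨hz1, hzU⟩, hh⟩⟩)
        have hx2 : f z' ∈ B p i2 := by
          by_contra hh
          exact hz3' (mem_iUnion.2 ⟨p, Or.inr ⟨⟨hz1', hzV⟩, hh⟩⟩)
        rw [← hzz] at hx2
        have : f z ∈ ⋂ j ∈ insert i1 (insert i2 (T.erase i)), B p j := by
          rw [mem_iInter₂]
          intro j hj
          rcases Finset.mem_insert.1 hj with hj | hj
          · rw [hj]; exact hx1
          rcases Finset.mem_insert.1 hj with hj | hj
          · rw [hj]; exact hx2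
          · exact mem_iInter.1 (mem_iInter₂.1 hz2 j hj) p
        rw [hB2 p] at this
        exact this
      have hQ' : Good f ((Q i ∩ f ⁻¹' C) \ G) :=
        Good.of_injOn (((hQ i).inter (hf hCm)).diff hGm) hinj
      refine (hQ'.union hG).mono ?_
      rintro z ⟨hz1, hz2⟩
      by_cases hzG : z ∈ G
      · exact Or.inr hzG
      · refine Or.inl ⟨⟨hz1, ?_⟩, hzG⟩
        by_contra hzC
        exact hz2 hzC
    · simp only [if_neg hii]
      have hi1' : i1 ≠ i := fun hh => hi1 (hh ▸ hi)
      have hi2' : i2 ≠ i := fun hh => hi2 (hh ▸ hi)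
      refine (Good.iUnion (fun p : P => hB3 p i (by simp [hii, hi]))).mono ?_
      rintro z ⟨hz1, hz2⟩
      have hz3 : ¬ ∀ p : P, f z ∈ B p i := fun hh => hz2 (mem_iInter.2 hh)
      push Not at hz3
      obtain ⟨p, hp⟩ := hz3
      refine mem_iUnion.2 ⟨p, ?_⟩
      rw [Function.update_of_ne hi2'.symm, Function.update_of_ne hi1'.symm]
      exact ⟨hz1, hp⟩

/-- existence of a countable cover by small sets with small images -/
theorem small_cover [MetricSpace Z] [SecondCountableTopology Z] [BorelSpace Z] [Nonempty Z]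
    [MetricSpace X] [SecondCountableTopology X] [BorelSpace X] [Nonempty X] (ε : ℝ) (hε : 0 < ε) :
    ∃ (a : ℕ → Z) (c : ℕ → X), (⋃ n, Metric.ball (a n) ε) = univ ∧
      (⋃ n, Metric.ball (c n) ε) = univ := by
  refine ⟨TopologicalSpace.denseSeq Z, TopologicalSpace.denseSeq X, ?_, ?_⟩
  · apply eq_univ_of_forall
    intro z
    obtain ⟨y, hy⟩ := (TopologicalSpace.denseRange_denseSeq Z).exists_dist_lt z hε
    exact mem_iUnion.2 ⟨y, hy⟩
  · apply eq_univ_of_forall
    intro z
    obtain ⟨y, hy⟩ := (TopologicalSpace.denseRange_denseSeq X).exists_dist_lt z hε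
    exact mem_iUnion.2 ⟨y, hy⟩

/-- one step of the construction -/
theorem step [MetricSpace Z] [SecondCountableTopology Z] [BorelSpace Z] [Nonempty Z]
    [MetricSpace X] [SecondCountableTopology X] [BorelSpace X] [Nonempty X]
    {f : Z → X} (hf : Measurable f) (k : ℕ) (Q : ℕ → Set Z) (hQ : ∀ i, MeasurableSet (Q i))
    (h : ¬ Small f (Finset.Icc k (2 * k)) Q) (ε : ℝ) (hε : 0 < ε) :
    ∃ Q' : ℕ → Set Z, (∀ i, MeasurableSet (Q' i)) ∧
      ¬ Small f (Finset.Icc (k + 1) (2 * (k + 1))) Q' ∧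
      (∀ i, k < i → i ≤ 2 * k → Q' i ⊆ Q i) ∧
      Q' (2 * k + 1) ⊆ Q k ∧ Q' (2 * k + 2) ⊆ Q k ∧
      Disjoint (closure (Q' (2 * k + 1))) (closure (Q' (2 * k + 2))) ∧
      (∀ i, k < i → i ≤ 2 * k + 2 → ∀ p ∈ Q' i, ∀ q ∈ Q' i, dist p q ≤ 2 * ε) ∧
      (∀ i j, k < i → i ≤ 2 * k + 2 → k < j → j ≤ 2 * k + 2 → ∀ p ∈ Q' i, ∀ q ∈ Q' j,
        dist (f p) (f q) ≤ 4 * ε) := by
  obtain ⟨U, V, hU, hV, hUV, hns⟩ := split hf hQ h (i0 := k) (i1 := 2 * k + 1) (i2 := 2 * k + 2)
    (by rw [Finset.mem_Icc]; omega) (by rw [Finset.mem_Icc]; omega)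
    (by rw [Finset.mem_Icc]; omega) (by omega)
  have hT : insert (2 * k + 1) (insert (2 * k + 2) ((Finset.Icc k (2 * k)).erase k)) =
      Finset.Icc (k + 1) (2 * (k + 1)) := by
    ext i
    simp only [Finset.mem_insert, Finset.mem_erase, Finset.mem_Icc]
    omega
  rw [hT] at hns
  set Q1 := Function.update (Function.update Q (2 * k + 1) (Q k ∩ U)) (2 * k + 2) (Q k ∩ V)
    with hQ1
  have hQ1m : ∀ i, MeasurableSet (Q1 i) := by
    intro i
    rw [hQ1]
    by_cases h2 : i = 2 * k + 2
    · subst h2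
      rw [Function.update_self]
      exact (hQ k).inter hV.measurableSet
    rw [Function.update_of_ne h2]
    by_cases h1 : i = 2 * k + 1
    · subst h1
      rw [Function.update_self]
      exact (hQ k).inter hU.measurableSet
    rw [Function.update_of_ne h1]
    exact hQ i
  obtain ⟨a, c, ha, hc⟩ := small_cover (Z := Z) (X := X) ε hε
  let R : ℕ × ℕ → Set Z := fun m => Metric.ball (a m.1) ε ∩ f ⁻¹' (Metric.ball (c m.2) ε)
  have hRu : ⋃ m, R m = univ := by
    apply eq_univ_of_forall
    intro z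
    obtain ⟨n, hn⟩ := mem_iUnion.1 (show z ∈ ⋃ n, Metric.ball (a n) ε by rw [ha]; trivial)
    obtain ⟨m, hm⟩ := mem_iUnion.1 (show f z ∈ ⋃ n, Metric.ball (c n) ε by rw [hc]; trivial)
    exact mem_iUnion.2 ⟨(n, m), hn, hm⟩
  have hRm : ∀ m, MeasurableSet (R m) := fun m =>
    Metric.isOpen_ball.measurableSet.inter (hf Metric.isOpen_ball.measurableSet)
  obtain ⟨Q2, hQ2m, hQ2s, hQ2Q, hQ2R⟩ := refine_all (f := f) R hRu hRm
    (Finset.Icc (k + 1) (2 * (k + 1))) subset_rfl Q1 hQ1m hns
  have hsub1 : Q2 (2 * k + 1) ⊆ Q k ∩ U := by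
    refine (hQ2Q _).trans ?_
    rw [hQ1, Function.update_of_ne (by omega), Function.update_self]
  have hsub2 : Q2 (2 * k + 2) ⊆ Q k ∩ V := by
    refine (hQ2Q _).trans ?_
    rw [hQ1, Function.update_self]
  refine ⟨Q2, hQ2m, hQ2s, ?_, hsub1.trans inter_subset_left, hsub2.trans inter_subset_left,
    ?_, ?_, ?_⟩
  · intro i hi1 hi2
    refine (hQ2Q i).trans ?_
    rw [hQ1, Function.update_of_ne (by omega), Function.update_of_ne (by omega)]
  · exact hUV.mono (closure_mono (hsub1.trans inter_subset_right))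
      (closure_mono (hsub2.trans inter_subset_right))
  · intro i hi1 hi2 p hp q hq
    obtain ⟨m, hm⟩ := hQ2R i (by rw [Finset.mem_Icc]; omega)
    have h1 := (hm hp).1
    have h2 := (hm hq).1
    rw [Metric.mem_ball] at h1 h2
    have h3 := dist_triangle_right p q (a m.1)
    linarith
  · -- common point
    choose! m hm using hQ2R
    have hne : (⋂ i ∈ Finset.Icc (k + 1) (2 * (k + 1)), Metric.ball (c (m i).2) ε).Nonempty := by
      by_contra hcon
      rw [not_nonempty_iff_eq_empty] at hcon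
      apply hQ2s
      refine ⟨fun i => Metric.ball (c (m i).2) ε, fun i => Metric.isOpen_ball.measurableSet,
        hcon, ?_⟩
      intro i hi
      have : Q2 i \ f ⁻¹' (Metric.ball (c (m i).2) ε) = ∅ := by
        apply eq_empty_of_forall_notMem
        rintro z ⟨hz1, hz2⟩
        exact hz2 (hm i hi hz1).2
      rw [this]
      exact Good.empty f
    obtain ⟨x, hx⟩ := hne
    rw [mem_iInter₂] at hx
    intro i j hi1 hi2 hj1 hj2 p hp q hq
    have hiT : i ∈ Finset.Icc (k + 1) (2 * (k + 1)) := by rw [Finset.mem_Icc]; omega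
    have hjT : j ∈ Finset.Icc (k + 1) (2 * (k + 1)) := by rw [Finset.mem_Icc]; omega
    have h1 : dist (f p) (c (m i).2) < ε := (hm i hiT hp).2
    have h2 : dist (f q) (c (m j).2) < ε := (hm j hjT hq).2
    have h3 : dist x (c (m i).2) < ε := hx i hiT
    have h4 : dist x (c (m j).2) < ε := hx j hjT
    have h5 := dist_triangle_right (f p) x (c (m i).2)
    have h6 := dist_triangle_right (f q) x (c (m j).2)
    have h7 := dist_triangle_right (f p) (f q) x
    linarith

/-- branches of the tree: `L k` is the leaf at time `k` -/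
def Branch (L : ℕ → ℕ) : Prop :=
  L 0 = 0 ∧ (∀ k, L k ≠ k → L (k + 1) = L k) ∧
    (∀ k, L k = k → L (k + 1) = 2 * k + 1 ∨ L (k + 1) = 2 * k + 2)

theorem Branch.bounds {L : ℕ → ℕ} (h : Branch L) (k : ℕ) : k ≤ L k ∧ L k ≤ 2 * k := by
  induction k with
  | zero => rw [h.1]; omega
  | succ k ih =>
    by_cases hk : L k = k
    · rcases h.2.2 k hk with h1 | h1 <;> omega
    · have := h.2.1 k hk
      omega

/-- the leftmost branch -/
def leftm : ℕ → ℕ
  | 0 => 0
  | k + 1 => if leftm k = k then 2 * k + 1 else leftm k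

theorem leftm_neg (k : ℕ) (h : leftm k ≠ k) : leftm (k + 1) = leftm k := by
  rw [leftm, if_neg h]

theorem leftm_pos (k : ℕ) (h : leftm k = k) : leftm (k + 1) = 2 * k + 1 := by
  rw [leftm, if_pos h]

open Filter Topology

theorem good_univ [MetricSpace Z] [CompleteSpace Z] [SecondCountableTopology Z] [BorelSpace Z]
    [MetricSpace X] [SecondCountableTopology X] [BorelSpace X]
    {f : Z → X} (hf : Continuous f) (hc : ∀ x, (f ⁻¹' {x}).Countable) : Good f univ := by
  by_contra hng
  rcases isEmpty_or_nonempty Z with hZ | hZ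
  · apply hng
    rw [univ_eq_empty_iff.2 hZ]
    exact Good.empty f
  have hX : Nonempty X := ⟨f (Classical.choice hZ)⟩
  let State : ℕ → Type := fun k =>
    {Q : ℕ → Set Z // (∀ i, MeasurableSet (Q i)) ∧ ¬ Small f (Finset.Icc k (2 * k)) Q}
  have hstep : ∀ (k : ℕ) (Q : State k), ∃ Q' : State (k + 1),
      (∀ i, k < i → i ≤ 2 * k → Q'.1 i ⊆ Q.1 i) ∧
      Q'.1 (2 * k + 1) ⊆ Q.1 k ∧ Q'.1 (2 * k + 2) ⊆ Q.1 k ∧
      Disjoint (closure (Q'.1 (2 * k + 1))) (closure (Q'.1 (2 * k + 2))) ∧
      (∀ i, k < i → i ≤ 2 * k + 2 → ∀ p ∈ Q'.1 i, ∀ q ∈ Q'.1 i, dist p q ≤ 2 * (1 / 2) ^ k) ∧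
      (∀ i j, k < i → i ≤ 2 * k + 2 → k < j → j ≤ 2 * k + 2 → ∀ p ∈ Q'.1 i, ∀ q ∈ Q'.1 j,
        dist (f p) (f q) ≤ 4 * (1 / 2) ^ k) := by
    rintro k ⟨Q, hQ1, hQ2⟩
    obtain ⟨Q', h1, h2, h3⟩ := step hf.measurable k Q hQ1 hQ2 ((1 / 2) ^ k) (by positivity)
    exact ⟨⟨Q', h1, h2⟩, h3⟩
  choose g hg using hstep
  let s0 : State 0 := ⟨fun _ => univ, fun _ => MeasurableSet.univ, by
    have : Finset.Icc 0 (2 * 0) = ({0} : Finset ℕ) := by simp
    rw [this]
    exact not_small_single hng⟩
  let S : (k : ℕ) → State k := fun k => Nat.rec (motive := State) s0 (fun k s => g k s) k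
  have hS : ∀ k, S (k + 1) = g k (S k) := fun k => rfl
  let Q : ℕ → ℕ → Set Z := fun k => (S k).1
  have hQns : ∀ k, ¬ Small f (Finset.Icc k (2 * k)) (Q k) := fun k => (S k).2.2
  have P1 : ∀ k i, k < i → i ≤ 2 * k → Q (k + 1) i ⊆ Q k i := fun k => (hg k (S k)).1
  have P2 : ∀ k, Q (k + 1) (2 * k + 1) ⊆ Q k k := fun k => (hg k (S k)).2.1
  have P3 : ∀ k, Q (k + 1) (2 * k + 2) ⊆ Q k k := fun k => (hg k (S k)).2.2.1
  have P4 : ∀ k, Disjoint (closure (Q (k + 1) (2 * k + 1))) (closure (Q (k + 1) (2 * k + 2))) :=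
    fun k => (hg k (S k)).2.2.2.1
  have P5 : ∀ k i, k < i → i ≤ 2 * k + 2 → ∀ p ∈ Q (k + 1) i, ∀ q ∈ Q (k + 1) i,
      dist p q ≤ 2 * (1 / 2) ^ k := fun k => (hg k (S k)).2.2.2.2.1
  have P6 : ∀ k i j, k < i → i ≤ 2 * k + 2 → k < j → j ≤ 2 * k + 2 → ∀ p ∈ Q (k + 1) i,
      ∀ q ∈ Q (k + 1) j, dist (f p) (f q) ≤ 4 * (1 / 2) ^ k := fun k => (hg k (S k)).2.2.2.2.2
  -- nestedness along a branch
  have hnest1 : ∀ L, Branch L → ∀ k, Q (k + 1) (L (k + 1)) ⊆ Q k (L k) := by
    intro L hL k
    have hb := hL.bounds k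
    by_cases hk : L k = k
    · rcases hL.2.2 k hk with h1 | h1
      · rw [h1, hk]; exact P2 k
      · rw [h1, hk]; exact P3 k
    · rw [hL.2.1 k hk]
      exact P1 k (L k) (by omega) hb.2
  have hnest : ∀ L, Branch L → ∀ k j, k ≤ j → Q j (L j) ⊆ Q k (L k) := by
    intro L hL k j hkj
    induction j, hkj using Nat.le_induction with
    | base => exact subset_rfl
    | succ j _ ih => exact (hnest1 L hL j).trans ih
  have hlim : ∀ L, Branch L → ∃ (z : Z) (p : ℕ → Z), (∀ k, p k ∈ Q (k + 1) (L (k + 1))) ∧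
      Tendsto p atTop (𝓝 z) ∧ ∀ k, z ∈ closure (Q (k + 1) (L (k + 1))) := by
    intro L hL
    have hne : ∀ k, ∃ z, z ∈ Q (k + 1) (L (k + 1)) := by
      intro k
      have hb := hL.bounds (k + 1)
      exact Small.nonempty (hQns (k + 1)) (by rw [Finset.mem_Icc]; exact hb)
    choose p hp using hne
    have hmem : ∀ N n, N ≤ n → p n ∈ Q (N + 1) (L (N + 1)) := fun N n hn =>
      hnest L hL (N + 1) (n + 1) (by omega) (hp n)
    have hcau : CauchySeq p := by
      apply cauchySeq_of_le_tendsto_0 (fun k : ℕ => 2 * (1 / 2 : ℝ) ^ k)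
      · intro n m N hn hm
        have hb := hL.bounds (N + 1)
        exact P5 N (L (N + 1)) (by omega) (by omega) _ (hmem N n hn) _ (hmem N m hm)
      · have := (tendsto_pow_atTop_nhds_zero_of_lt_one (by norm_num : (0 : ℝ) ≤ 1 / 2)
          (by norm_num)).const_mul 2
        simpa using this
    obtain ⟨z, hz⟩ := cauchySeq_tendsto_of_complete hcau
    refine ⟨z, p, hp, hz, ?_⟩
    intro k
    apply mem_closure_of_tendsto hz
    filter_upwards [eventually_ge_atTop k] with n hn
    exact hmem k n hn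
  have hsame : ∀ L L', Branch L → Branch L' → ∀ z z' p p',
      (∀ k, p k ∈ Q (k + 1) (L (k + 1))) → Tendsto p atTop (𝓝 z) →
      (∀ k, p' k ∈ Q (k + 1) (L' (k + 1))) → Tendsto p' atTop (𝓝 z') → f z = f z' := by
    intro L L' hL hL' z z' p p' hp hpz hp' hpz'
    have h1 : Tendsto (fun k => dist (f (p k)) (f (p' k))) atTop (𝓝 (dist (f z) (f z'))) :=
      ((hf.tendsto z).comp hpz).dist ((hf.tendsto z').comp hpz')
    have h2 : Tendsto (fun k : ℕ => 4 * (1 / 2 : ℝ) ^ k) atTop (𝓝 0) := by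
      have := (tendsto_pow_atTop_nhds_zero_of_lt_one (by norm_num : (0 : ℝ) ≤ 1 / 2)
          (by norm_num)).const_mul 4
      simpa using this
    have h3 : dist (f z) (f z') ≤ 0 := by
      apply le_of_tendsto_of_tendsto' h1 h2
      intro k
      have hb := hL.bounds (k + 1)
      have hb' := hL'.bounds (k + 1)
      exact P6 k _ _ (by omega) (by omega) (by omega) (by omega) _ (hp k) _ (hp' k)
    exact dist_le_zero.1 h3
  -- the leftmost branch
  let L0 : ℕ → ℕ := leftm
  have hL0 : Branch L0 := by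
    refine ⟨rfl, ?_, ?_⟩
    · intro k hk
      exact leftm_neg k hk
    · intro k hk
      left
      exact leftm_pos k hk
  obtain ⟨z0, p0, hp0, hz0, -⟩ := hlim L0 hL0
  obtain ⟨e, he⟩ := (hc (f z0)).exists_eq_range ⟨z0, rfl⟩
  classical
  let St : ℕ → ℕ × ℕ := fun k => Nat.rec (motive := fun _ => ℕ × ℕ) (0, 0)
    (fun k s => if s.1 = k then
      (if e s.2 ∈ closure (Q (k + 1) (2 * k + 1)) then 2 * k + 2 else 2 * k + 1, s.2 + 1) else s) k
  have hSt : ∀ k, St (k + 1) = if (St k).1 = k then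
      (if e (St k).2 ∈ closure (Q (k + 1) (2 * k + 1)) then 2 * k + 2 else 2 * k + 1,
        (St k).2 + 1) else St k := fun k => rfl
  let L : ℕ → ℕ := fun k => (St k).1
  have hL : Branch L := by
    refine ⟨rfl, ?_, ?_⟩
    · intro k hk
      show (St (k + 1)).1 = (St k).1
      rw [hSt, if_neg hk]
    · intro k hk
      show (St (k + 1)).1 = _ ∨ (St (k + 1)).1 = _
      rw [hSt, if_pos hk]
      by_cases h : e (St k).2 ∈ closure (Q (k + 1) (2 * k + 1))
      · right; simp only [if_pos h]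
      · left; simp only [if_neg h]
  have hcount : ∀ n, ∃ t, St t = (t, n) := by
    intro n
    induction n with
    | zero => exact ⟨0, rfl⟩
    | succ n ih =>
      obtain ⟨t, ht⟩ := ih
      have h1 : St (t + 1) = ((St (t + 1)).1, n + 1) := by
        rw [hSt, ht, if_pos rfl]
      set c := (St (t + 1)).1 with hcdef
      have hcb := hL.bounds (t + 1)
      have hstay : ∀ j, t + 1 ≤ j → j ≤ c → St j = (c, n + 1) := by
        intro j hj
        induction j, hj using Nat.le_induction with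
        | base => intro _; exact h1
        | succ j hj ih =>
          intro hjc
          rw [hSt, ih (by omega), if_neg (by simp only; omega)]
      exact ⟨c, hstay c hcb.1 le_rfl⟩
  obtain ⟨z, p, hp, hz, hzc⟩ := hlim L hL
  have hfz : f z = f z0 := hsame L L0 hL hL0 z z0 p p0 hp hz hp0 hz0
  have hzr : z ∈ range e := by rw [← he]; exact hfz
  obtain ⟨n, hn⟩ := hzr
  obtain ⟨t, ht⟩ := hcount n
  have h1 := hzc t
  have h2 : L (t + 1) = if z ∈ closure (Q (t + 1) (2 * t + 1)) then 2 * t + 2 else 2 * t + 1 := by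
    show (St (t + 1)).1 = _
    rw [hSt, ht, if_pos rfl]
    simp only [hn]
  by_cases h3 : z ∈ closure (Q (t + 1) (2 * t + 1))
  · rw [if_pos h3] at h2
    rw [h2] at h1
    exact Set.disjoint_left.1 (P4 t) h3 h1
  · rw [if_neg h3] at h2
    rw [h2] at h1
    exact h3 h1

theorem core [TopologicalSpace Z] [PolishSpace Z] [BorelSpace Z]
    [TopologicalSpace X] [PolishSpace X] [BorelSpace X]
    {f : Z → X} (hf : Continuous f) (hc : ∀ x, (f ⁻¹' {x}).Countable) :
    MeasurableSet (range f) := by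
  let := TopologicalSpace.upgradeIsCompletelyMetrizable Z
  let := TopologicalSpace.upgradeIsCompletelyMetrizable X
  obtain ⟨C, h1, h2, h3⟩ := good_univ hf hc
  have : range f = ⋃ n, f '' (C n) := by
    rw [← image_iUnion, ← image_univ]
    apply Subset.antisymm
    · exact image_mono h3
    · exact image_mono (subset_univ _)
  rw [this]
  exact MeasurableSet.iUnion fun n =>
    (h1 n).image_of_continuousOn_injOn hf.continuousOn (h2 n)

end LN

/-- Lusin–Novikov: the range of a countable-to-one measurable map between standard Borel spaces is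
measurable. -/
theorem measurableSet_range_of_countable_fibers {Z X : Type} [MeasurableSpace Z]
    [StandardBorelSpace Z] [MeasurableSpace X] [StandardBorelSpace X]
    (f : Z → X) (hf : Measurable f) (hc : ∀ x, (f ⁻¹' {x}).Countable) :
    MeasurableSet (Set.range f) := by
  obtain ⟨tZ, hbZ, hpZ⟩ := StandardBorelSpace.polish (α := Z)
  obtain ⟨tX, hbX, hpX⟩ := StandardBorelSpace.polish (α := X)
  obtain ⟨t', t't, f_cont, t'_polish⟩ := hf.exists_continuous
  exact @LN.core Z X (@borel Z t') _ t' t'_polish (@BorelSpace.mk Z t' (@borel Z t') rfl) tX hpX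
    hbX f f_cont hc

end Pool.Agent.Helper90.CB
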