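import Mathlib
import Pool.Agent.Helper90.CB.LN
set_option autoImplicit false
open Set MeasureTheory

namespace Pool.Agent.Helper90.CB

/-- A rigid Borel family of countable Borel equivalence relations. -/
structure RigidFam (X R : Type) [MeasurableSpace X] [MeasurableSpace R] (idx : X → R)
    (E : X → X → Prop) (μ : R → Measure X) : Prop where
  meas_idx : Measurable idx
  equiv : Equivalence E
  measE : MeasurableSet {p : X × X | E p.1 p.2}
  countE : ∀ x, {y | E x y}.Countable
  idxE : ∀ x y, E x y → idx x = idx y
  meas_μ : ∀ s, MeasurableSet s → Measurable fun r => μ r s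
  prob : ∀ r, IsProbabilityMeasure (μ r)
  conc : ∀ r, ∀ᵐ x ∂(μ r), idx x = r
  erg : ∀ (r : R) (D : Type) [MeasurableSpace D] [StandardBorelSpace D] (F : X → D),
    Measurable F → (∀ x y, idx x = r → E x y → F x = F y) → ∃ d, ∀ᵐ x ∂(μ r), F x = d
  rigid : ∀ (r r' : R) (C : Set X), MeasurableSet C → (∀ᵐ x ∂(μ r), x ∈ C) →
    (∀ x ∈ C, idx x = r) → ∀ f : X → X, Measurable f → (∀ x ∈ C, idx (f x) = r') →
    (∀ x ∈ C, ∀ y ∈ C, E x y ↔ E (f x) (f y)) →
    r = r' ∧ ∀ N, MeasurableSet N → μ r N = 0 → ∃ x ∈ C, f x ∉ N

theorem no_inf {X R : Type} [MeasurableSpace X] [StandardBorelSpace X] [MeasurableSpace R]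
    [StandardBorelSpace R] {idx : X → R} {E : X → X → Prop} {μ : R → Measure X}
    (RF : RigidFam X R idx E μ) {Y : Type} [MeasurableSpace Y] [StandardBorelSpace Y]
    (π : Y → R) (hπ : Measurable π) (hnb : ¬ MeasurableSet (Set.range π)) :
    ¬ (∀ (X Y : Type) [MeasurableSpace X] [StandardBorelSpace X]
    [MeasurableSpace Y] [StandardBorelSpace Y]
    (E : X → X → Prop) (F : Y → Y → Prop),
    Equivalence E → MeasurableSet {p : X × X | E p.1 p.2} → (∀ x, {y | E x y}.Countable) →
    Equivalence F → MeasurableSet {p : Y × Y | F p.1 p.2} → (∀ y, {y' | F y y'}.Countable) →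
    ∃ (Z : Type) (mZ : MeasurableSpace Z), StandardBorelSpace Z ∧
      ∃ G : Z → Z → Prop,
        Equivalence G ∧ MeasurableSet {p : Z × Z | G p.1 p.2} ∧
        (∀ z, {z' | G z z'}.Countable) ∧
        (∃ f : Z → X, Measurable f ∧ ∀ a b, G a b ↔ E (f a) (f b)) ∧
        (∃ g : Z → Y, Measurable g ∧ ∀ a b, G a b ↔ F (g a) (g b)) ∧
        ∀ (W : Type) [MeasurableSpace W] [StandardBorelSpace W] (H : W → W → Prop),
          Equivalence H → MeasurableSet {p : W × W | H p.1 p.2} →
          (∀ w, {w' | H w w'}.Countable) →
          (∃ f : W → X, Measurable f ∧ ∀ a b, H a b ↔ E (f a) (f b)) →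
          (∃ g : W → Y, Measurable g ∧ ∀ a b, H a b ↔ F (g a) (g b)) →
          ∃ h : W → Z, Measurable h ∧ ∀ a b, H a b ↔ G (h a) (h b)) := by
  intro hall
  classical
  have hmidx := RF.meas_idx
  -- the space for `F`
  have hYXm : MeasurableSet {q : Y × X | π q.1 = idx q.2} :=
    measurableSet_eq_fun (hπ.comp measurable_fst) (hmidx.comp measurable_snd)
  have : StandardBorelSpace {q : Y × X | π q.1 = idx q.2} := hYXm.standardBorel
  let F : {q : Y × X | π q.1 = idx q.2} → {q : Y × X | π q.1 = idx q.2} → Prop :=
    fun a b => a.1.1 = b.1.1 ∧ E a.1.2 b.1.2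
  have hFeq : Equivalence F :=
    ⟨fun a => ⟨rfl, RF.equiv.refl _⟩, fun h => ⟨h.1.symm, RF.equiv.symm h.2⟩,
      fun h h' => ⟨h.1.trans h'.1, RF.equiv.trans h.2 h'.2⟩⟩
  have hFm : MeasurableSet {p : _ × _ | F p.1 p.2} := by
    apply MeasurableSet.inter
    · exact measurableSet_eq_fun
        (measurable_fst.comp (measurable_subtype_coe.comp measurable_fst))
        (measurable_fst.comp (measurable_subtype_coe.comp measurable_snd))
    · have : Measurable fun p : {q : Y × X | π q.1 = idx q.2} × {q : Y × X | π q.1 = idx q.2} =>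
          ((p.1.1.2, p.2.1.2) : X × X) :=
        (measurable_snd.comp (measurable_subtype_coe.comp measurable_fst)).prodMk
          (measurable_snd.comp (measurable_subtype_coe.comp measurable_snd))
      exact this RF.measE
  have hFc : ∀ a, {b | F a b}.Countable := by
    intro a
    have hc := RF.countE a.1.2
    have : Set.InjOn (fun b : {q : Y × X | π q.1 = idx q.2} => b.1.2) {b | F a b} := by
      intro b hb c hc' hbc
      apply Subtype.ext
      exact Prod.ext (hb.1.symm.trans hc'.1) hbc
    refine Set.countable_of_injective_of_countable_image this (hc.mono ?_)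
    rintro _ ⟨b, hb, rfl⟩
    exact hb.2
  obtain ⟨Z, mZ, hZ, G, hGeq, hGm, hGc, ⟨f, hf, hfr⟩, ⟨g, hg, hgr⟩, hmax⟩ :=
    hall X {q : Y × X | π q.1 = idx q.2} E F RF.equiv RF.measE RF.countE hFeq hFm hFc
  -- the diagonal part
  let Z' : Set Z := {z | idx (f z) = π (g z).1.1}
  have hZ'm : MeasurableSet Z' :=
    measurableSet_eq_fun (hmidx.comp hf)
      (hπ.comp (measurable_fst.comp (measurable_subtype_coe.comp hg)))
  have : StandardBorelSpace Z' := hZ'm.standardBorel
  have himg : MeasurableSet (f '' Z') := by
    have h := measurableSet_range_of_countable_fibers (fun z : Z' => f z.1)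
      (hf.comp measurable_subtype_coe) (by
        intro x
        rcases Set.eq_empty_or_nonempty ((fun z : Z' => f z.1) ⁻¹' {x}) with h0 | ⟨z0, hz0⟩
        · rw [h0]; exact Set.countable_empty
        · have hc := hGc z0.1
          refine Set.countable_of_injective_of_countable_image
            (f := (Subtype.val : Z' → Z)) Subtype.val_injective.injOn (hc.mono ?_)
          rintro _ ⟨z, hz, rfl⟩
          rw [Set.mem_setOf_eq, hfr]
          have e1 : f z0.1 = x := hz0
          have e2 : f z.1 = x := hz
          rw [e1, e2]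
          exact RF.equiv.refl _)
    have e : Set.range (fun z : Z' => f z.1) = f '' Z' := by
      ext x; constructor
      · rintro ⟨z, rfl⟩; exact ⟨z.1, z.2, rfl⟩
      · rintro ⟨z, hz, rfl⟩; exact ⟨⟨z, hz⟩, rfl⟩
    rwa [e] at h
  apply hnb
  have hB : Set.range π = {r | μ r (f '' Z') = 0}ᶜ := by
    ext r
    constructor
    · -- the main part
      rintro ⟨y, rfl⟩ hnull
      have hnull : μ (π y) (f '' Z') = 0 := hnull
      have := RF.prob (π y)
      set r := π y with hr
      have hWm : MeasurableSet {x : X | idx x = r} :=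
        measurableSet_eq_fun hmidx measurable_const
      have : StandardBorelSpace {x : X | idx x = r} := hWm.standardBorel
      obtain ⟨h, hh, hhr⟩ := hmax {x : X | idx x = r} (fun a b => E a.1 b.1)
        ⟨fun a => RF.equiv.refl _, fun h => RF.equiv.symm h, fun h h' => RF.equiv.trans h h'⟩
        (by
          have : Measurable fun p : {x : X | idx x = r} × {x : X | idx x = r} =>
            ((p.1.1, p.2.1) : X × X) :=
            (measurable_subtype_coe.comp measurable_fst).prodMk
              (measurable_subtype_coe.comp measurable_snd)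
          exact this RF.measE)
        (by
          intro a
          refine Set.countable_of_injective_of_countable_image
            (f := (Subtype.val : {x : X | idx x = r} → X)) Subtype.val_injective.injOn
            ((RF.countE a.1).mono ?_)
          rintro _ ⟨b, hb, rfl⟩
          exact hb)
        ⟨Subtype.val, measurable_subtype_coe, fun a b => Iff.rfl⟩
        ⟨fun x => ⟨(y, x.1), x.2.symm⟩, by
          apply Measurable.subtype_mk
          exact measurable_const.prodMk measurable_subtype_coe, fun a b => by
            constructor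
            · intro hab; exact ⟨rfl, hab⟩
            · intro hab; exact hab.2⟩
      -- nonempty
      have hne : ∃ x0 : X, idx x0 = r := (RF.conc r).exists
      obtain ⟨x0, hx0⟩ := hne
      let ext : X → {x : X | idx x = r} := fun x => if hx : idx x = r then ⟨x, hx⟩ else ⟨x0, hx0⟩
      have hext : Measurable ext :=
        Measurable.dite (s := {x : X | idx x = r}) (f := fun x => x)
          (g := fun _ => ⟨x0, hx0⟩) measurable_id measurable_const hWm
      have hextv : ∀ x (hx : idx x = r), ext x = ⟨x, hx⟩ := fun x hx => dif_pos hx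
      let f1 : X → X := fun x => f (h (ext x))
      have hf1 : Measurable f1 := hf.comp (hh.comp hext)
      let g1 : X → Y := fun x => (g (h (ext x))).1.1
      have hg1 : Measurable g1 :=
        measurable_fst.comp (measurable_subtype_coe.comp (hg.comp (hh.comp hext)))
      let g2 : X → X := fun x => (g (h (ext x))).1.2
      have hg2 : Measurable g2 :=
        measurable_snd.comp (measurable_subtype_coe.comp (hg.comp (hh.comp hext)))
      have hEG : ∀ a b, idx a = r → idx b = r → (E a b ↔ G (h (ext a)) (h (ext b))) := by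
        intro a b ha hb
        rw [← hhr, hextv a ha, hextv b hb]
      obtain ⟨r1, hr1⟩ := RF.erg r R (fun x => idx (f1 x)) (hmidx.comp hf1) (by
        intro a b ha hab
        have hb : idx b = r := (RF.idxE _ _ hab).symm.trans ha
        exact RF.idxE _ _ ((hfr _ _).1 ((hEG a b ha hb).1 hab)))
      obtain ⟨y2, hy2⟩ := RF.erg r Y g1 hg1 (by
        intro a b ha hab
        have hb : idx b = r := (RF.idxE _ _ hab).symm.trans ha
        exact ((hgr _ _).1 ((hEG a b ha hb).1 hab)).1)
      let C : Set X := {x | idx x = r} ∩ ({x | idx (f1 x) = r1} ∩ {x | g1 x = y2})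
      have hC : MeasurableSet C :=
        hWm.inter ((measurableSet_eq_fun (hmidx.comp hf1) measurable_const).inter
          (measurableSet_eq_fun hg1 measurable_const))
      have hCae : ∀ᵐ x ∂(μ r), x ∈ C := by
        filter_upwards [RF.conc r, hr1, hy2] with x h1 h2 h3
        exact ⟨h1, h2, h3⟩
      obtain ⟨hrr1, hbig⟩ := RF.rigid r r1 C hC hCae (fun x hx => hx.1) f1 hf1
        (fun x hx => hx.2.1) (fun a ha b hb => by rw [hEG a b ha.1 hb.1, hfr])
      have hg2idx : ∀ x ∈ C, idx (g2 x) = π y2 := by
        intro x hx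
        have h2 : g1 x = y2 := hx.2.2
        rw [← h2]
        exact ((g (h (ext x))).2).symm
      obtain ⟨hrr2, -⟩ := RF.rigid r (π y2) C hC hCae (fun x hx => hx.1) g2 hg2 hg2idx
        (fun a ha b hb => by
          rw [hEG a b ha.1 hb.1, hgr]
          constructor
          · intro h; exact h.2
          · intro h
            refine ⟨?_, h⟩
            have e1 : g1 a = y2 := ha.2.2
            have e2 : g1 b = y2 := hb.2.2
            exact e1.trans e2.symm)
      obtain ⟨x, hx, hxN⟩ := hbig (f '' Z') himg hnull
      apply hxN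
      refine ⟨h (ext x), ?_, rfl⟩
      show idx (f1 x) = π (g1 x)
      have e1 : idx (f1 x) = r1 := hx.2.1
      have e2 : g1 x = y2 := hx.2.2
      rw [e1, e2, ← hrr1, ← hrr2]
    · intro hr
      by_contra hcon
      apply hr
      show μ r (f '' Z') = 0
      refine measure_mono_null ?_ (RF.conc r)
      rintro _ ⟨z, hz, rfl⟩
      intro hz'
      apply hcon
      have hz' : idx (f z) = r := hz'
      exact ⟨(g z).1.1, by rw [← hz']; exact hz.symm⟩
  rw [hB]
  exact (measurableSet_eq_fun (RF.meas_μ _ himg) measurable_const).compl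

end Pool.Agent.Helper90.CB
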