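import Mathlib
set_option autoImplicit false

namespace Pool.Agent.Helper90.CB
open Matrix

/-- elementary matrix in `SL₃(R)` -/
def tv {R : Type*} [CommRing R] (i j : Fin 3) (h : i ≠ j) (c : R) :
    SpecialLinearGroup (Fin 3) R :=
  ⟨Matrix.transvection i j c, Matrix.det_transvection_of_ne i j h c⟩

theorem tv_add {R : Type*} [CommRing R] (i j : Fin 3) (h : i ≠ j) (a b : R) :
    tv i j h (a + b) = tv i j h a * tv i j h b := by
  apply Subtype.ext
  show Matrix.transvection i j (a + b) = Matrix.transvection i j a * Matrix.transvection i j b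
  exact (Matrix.transvection_mul_transvection_same _ _ h a b).symm

theorem tv_zero {R : Type*} [CommRing R] (i j : Fin 3) (h : i ≠ j) :
    tv i j h (0 : R) = 1 := by
  apply Subtype.ext
  show Matrix.transvection i j (0 : R) = 1
  rw [Matrix.transvection_zero]

theorem tv_mul_apply {R : Type*} [CommRing R] (i j : Fin 3) (h : i ≠ j) (c : R)
    (g : SpecialLinearGroup (Fin 3) R) (r s : Fin 3) :
    (tv i j h c * g : SpecialLinearGroup (Fin 3) R).1 r s =
      g.1 r s + if r = i then c * g.1 j s else 0 := by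
  show (Matrix.transvection i j c * g.1) r s = _
  by_cases hr : r = i
  · subst hr
    rw [Matrix.transvection_mul_apply_same, if_pos rfl]
  · rw [Matrix.transvection_mul_apply_of_ne _ _ _ _ hr, if_neg hr, add_zero]

theorem mul_tv_apply {R : Type*} [CommRing R] (i j : Fin 3) (h : i ≠ j) (c : R)
    (g : SpecialLinearGroup (Fin 3) R) (r s : Fin 3) :
    (g * tv i j h c : SpecialLinearGroup (Fin 3) R).1 r s =
      g.1 r s + if s = j then c * g.1 r i else 0 := by
  show (g.1 * Matrix.transvection i j c) r s = _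
  by_cases hs : s = j
  · subst hs
    rw [Matrix.mul_transvection_apply_same, if_pos rfl]
  · rw [Matrix.mul_transvection_apply_of_ne _ _ _ _ hs, if_neg hs, add_zero]

theorem tv_apply {R : Type*} [CommRing R] (i j : Fin 3) (h : i ≠ j) (c : R) (r s : Fin 3) :
    (tv i j h c).1 r s = (1 : Matrix (Fin 3) (Fin 3) R) r s + if r = i then (if s = j then c else 0) else 0 := by
  have := tv_mul_apply i j h c 1 r s
  rw [mul_one] at this
  rw [this]
  congr 1
  by_cases hr : r = i
  · rw [if_pos hr, if_pos hr]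
    show c * (1 : Matrix (Fin 3) (Fin 3) R) j s = _
    rw [Matrix.one_apply]
    by_cases hs : s = j
    · rw [if_pos hs, if_pos hs.symm, mul_one]
    · rw [if_neg hs, if_neg (fun h => hs h.symm), mul_zero]
  · rw [if_neg hr, if_neg hr]

/-- `x_ij(a) x_jk(b) = x_ik(ab) x_jk(b) x_ij(a)` for distinct `i,j,k` -/
theorem tv_comm_mul {R : Type*} [CommRing R] (i j k : Fin 3) (hij : i ≠ j) (hjk : j ≠ k)
    (hik : i ≠ k) (a b : R) :
    tv i j hij a * tv j k hjk b = tv i k hik (a * b) * tv j k hjk b * tv i j hij a := by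
  apply Subtype.ext
  ext r s
  rw [tv_mul_apply, mul_assoc, tv_mul_apply, tv_mul_apply, tv_mul_apply]
  simp only [tv_apply, Matrix.one_apply]
  fin_cases i <;> fin_cases j <;> fin_cases k <;> simp at hij hjk hik <;>
    fin_cases r <;> fin_cases s <;> simp

/-- `x_ij(a)` and `x_ik(b)` commute -/
theorem tv_comm_left {R : Type*} [CommRing R] (i j k : Fin 3) (hij : i ≠ j)
    (hik : i ≠ k) (a b : R) :
    tv i j hij a * tv i k hik b = tv i k hik b * tv i j hij a := by
  apply Subtype.ext
  ext r s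
  rw [tv_mul_apply, tv_mul_apply]
  simp only [tv_apply, Matrix.one_apply]
  fin_cases i <;> fin_cases j <;> fin_cases k <;> simp at hij hik <;>
    fin_cases r <;> fin_cases s <;> simp <;> ring

/-- `x_ik(a)` and `x_jk(b)` commute -/
theorem tv_comm_right {R : Type*} [CommRing R] (i j k : Fin 3) (hik : i ≠ k)
    (hjk : j ≠ k) (a b : R) :
    tv i k hik a * tv j k hjk b = tv j k hjk b * tv i k hik a := by
  apply Subtype.ext
  ext r s
  rw [tv_mul_apply, tv_mul_apply]
  simp only [tv_apply, Matrix.one_apply]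
  fin_cases i <;> fin_cases j <;> fin_cases k <;> simp at hjk hik <;>
    fin_cases r <;> fin_cases s <;> simp <;> ring

theorem tv_neg {R : Type*} [CommRing R] (i j : Fin 3) (h : i ≠ j) (a : R) (g : SpecialLinearGroup (Fin 3) R) :
    tv i j h (-a) * (tv i j h a * g) = g := by
  rw [← mul_assoc, ← tv_add, neg_add_cancel, tv_zero, one_mul]

theorem tv_neg' {R : Type*} [CommRing R] (i j : Fin 3) (h : i ≠ j) (a : R) (g : SpecialLinearGroup (Fin 3) R) :
    (g * tv i j h (-a)) * tv i j h a = g := by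
  rw [mul_assoc, ← tv_add, neg_add_cancel, tv_zero, mul_one]

theorem bdd_gen_block {F : Type*} [Field F] (h : SpecialLinearGroup (Fin 3) F)
    (h00 : h.1 0 0 = 1) (h10 : h.1 1 0 = 0) (h20 : h.1 2 0 = 0) (h01 : h.1 0 1 = 0)
    (h02 : h.1 0 2 = 0) :
    ∃ c5 c6 c7 c8 : F, h = tv 2 1 (by decide) c5 * tv 1 2 (by decide) c6 * tv 2 1 (by decide) c7 *
      tv 1 2 (by decide) c8 := by
  have hdet : h.1 1 1 * h.1 2 2 - h.1 1 2 * h.1 2 1 = 1 := by
    have := h.2
    rw [Matrix.det_fin_three, h00, h10, h20, h01, h02] at this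
    linear_combination this
  set a := h.1 1 1 with ha
  set b := h.1 1 2 with hb
  set c := h.1 2 1 with hc
  set d := h.1 2 2 with hd
  obtain ⟨s, hs⟩ : ∃ s : F, c + s * a ≠ 0 := by
    by_cases hc0 : c = 0
    · refine ⟨1, ?_⟩
      rw [hc0, zero_add, one_mul]
      rintro h0
      rw [h0, hc0] at hdet
      simp at hdet
    · exact ⟨0, by simpa using hc0⟩
  set c' := c + s * a with hc'
  set d' := d + s * b with hd'
  set x := (1 - a) / c' with hx
  have hxc : x * c' = 1 - a := by rw [hx]; field_simp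
  have hdet' : a * d' - b * c' = 1 := by rw [hd', hc']; linear_combination hdet
  have key : tv 2 1 (by decide) (-c') * (tv 1 2 (by decide) x * (tv 2 1 (by decide) s * h)) =
      tv 1 2 (by decide) (b + x * d') := by
    apply Subtype.ext
    ext r t
    rw [tv_mul_apply]
    simp only [tv_mul_apply, tv_apply, Matrix.one_apply]
    fin_cases r <;> fin_cases t <;> simp [h00, h10, h20, h01, h02, ← ha, ← hb, ← hc, ← hd]
    · linear_combination hxc
    · left; rfl
    · linear_combination (-c') * hxc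
    · show d' + -(c' * (b + x * d')) = 1
      linear_combination hdet' - d' * hxc
  refine ⟨-s, -x, -(-c'), b + x * d', ?_⟩
  rw [← key]
  rw [mul_assoc, mul_assoc]
  rw [tv_neg, tv_neg, tv_neg]

/-- bounded generation of `SL₃` of a field by elementary matrices, with a fixed pattern -/
theorem bdd_gen {F : Type*} [Field F] (g : SpecialLinearGroup (Fin 3) F) :
    ∃ c : Fin 11 → F, g = tv 1 0 (by decide) (c 0) * tv 0 1 (by decide) (c 1) *
      tv 0 2 (by decide) (c 2) * tv 1 0 (by decide) (c 3) * tv 2 0 (by decide) (c 4) *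
      tv 2 1 (by decide) (c 5) * tv 1 2 (by decide) (c 6) * tv 2 1 (by decide) (c 7) *
      tv 1 2 (by decide) (c 8) * tv 0 2 (by decide) (c 9) * tv 0 1 (by decide) (c 10) := by
  set a := g.1 0 0 with ha
  set b := g.1 1 0 with hb
  set c := g.1 2 0 with hc
  obtain ⟨s, hs⟩ : ∃ s : F, ¬ (b + s * a = 0 ∧ c = 0) := by
    by_cases h0 : b = 0 ∧ c = 0
    · refine ⟨1, ?_⟩
      rintro ⟨h1, h2⟩
      rw [h0.1, zero_add, one_mul] at h1
      have := g.2
      rw [Matrix.det_fin_three, ← ha, ← hb, ← hc, h1, h0.1, h2] at this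
      simp at this
    · refine ⟨0, ?_⟩
      rintro ⟨h1, h2⟩
      apply h0
      exact ⟨by simpa using h1, h2⟩
  set b' := b + s * a with hb'
  obtain ⟨x, y, hxy⟩ : ∃ x y : F, a + x * b' + y * c = 1 := by
    by_cases h1 : b' = 0
    · have h2 : c ≠ 0 := fun h => hs ⟨h1, h⟩
      refine ⟨0, (1 - a) / c, ?_⟩
      field_simp
      ring
    · refine ⟨(1 - a) / b', 0, ?_⟩
      field_simp
      ring
  set h := tv 2 0 (by decide) (-c) * (tv 1 0 (by decide) (-b') * (tv 0 2 (by decide) y *
    (tv 0 1 (by decide) x * (tv 1 0 (by decide) s * g)))) with hh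
  have hg : g = tv 1 0 (by decide) (-s) * (tv 0 1 (by decide) (-x) * (tv 0 2 (by decide) (-y) *
    (tv 1 0 (by decide) (-(-b')) * (tv 2 0 (by decide) (-(-c)) * h)))) := by
    rw [hh, tv_neg, tv_neg, tv_neg, tv_neg, tv_neg]
  have e00 : h.1 0 0 = 1 := by
    rw [hh]
    simp only [tv_mul_apply]
    simp [← ha, ← hb, ← hc]
    rw [← hxy, hb']
  have e10 : h.1 1 0 = 0 := by
    rw [hh]
    simp only [tv_mul_apply]
    simp [← ha, ← hb, ← hc]
    rw [← hb', hxy]; ring
  have e20 : h.1 2 0 = 0 := by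
    rw [hh]
    simp only [tv_mul_apply]
    simp [← ha, ← hb, ← hc]
    rw [← hb', hxy]; ring
  set k := (h * tv 0 1 (by decide) (-h.1 0 1)) * tv 0 2 (by decide) (-h.1 0 2) with hk
  have hkh : h = (k * tv 0 2 (by decide) (h.1 0 2)) * tv 0 1 (by decide) (h.1 0 1) := by
    rw [hk]
    have e1 := tv_neg' 0 2 (by decide) (h.1 0 2) (h * tv 0 1 (by decide) (-h.1 0 1))
    rw [e1, tv_neg']
  have k00 : k.1 0 0 = 1 := by
    rw [hk]; simp only [mul_tv_apply]; simp [e00]
  have k10 : k.1 1 0 = 0 := by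
    rw [hk]; simp only [mul_tv_apply]; simp [e10]
  have k20 : k.1 2 0 = 0 := by
    rw [hk]; simp only [mul_tv_apply]; simp [e20]
  have k01 : k.1 0 1 = 0 := by
    rw [hk]; simp only [mul_tv_apply]; simp [e00]
  have k02 : k.1 0 2 = 0 := by
    rw [hk]; simp only [mul_tv_apply]; simp [e00]
  obtain ⟨c5, c6, c7, c8, hkk⟩ := bdd_gen_block k k00 k10 k20 k01 k02
  refine ⟨![-s, -x, -y, -(-b'), -(-c), c5, c6, c7, c8, h.1 0 2, h.1 0 1], ?_⟩
  calc g = tv 1 0 (by decide) (-s) * (tv 0 1 (by decide) (-x) * (tv 0 2 (by decide) (-y) *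
    (tv 1 0 (by decide) (-(-b')) * (tv 2 0 (by decide) (-(-c)) * h)))) := hg
    _ = tv 1 0 (by decide) (-s) * (tv 0 1 (by decide) (-x) * (tv 0 2 (by decide) (-y) *
    (tv 1 0 (by decide) (-(-b')) * (tv 2 0 (by decide) (-(-c)) * (((tv 2 1 (by decide) c5 * tv 1 2 (by decide) c6 * tv 2 1 (by decide) c7 *
      tv 1 2 (by decide) c8) * tv 0 2 (by decide) (h.1 0 2)) * tv 0 1 (by decide) (h.1 0 1)))))) := by
        rw [← hkk, ← hkh]
    _ = _ := by
        simp only [mul_assoc]
        rfl

theorem exists_third (i k : Fin 3) : ∃ j : Fin 3, i ≠ j ∧ j ≠ k := by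
  revert i k; decide

/-- every homomorphism from a product of groups `SL₃(F_i)` (any index type) to a commutative group
is trivial (each element is a product of 11 commutators, by `bdd_gen` and `tv_comm_mul`) -/
theorem hom_comm_trivial {ι : Type} (F : ι → Type) [∀ i, Field (F i)] {A : Type} [CommGroup A]
    (φ : (∀ i, SpecialLinearGroup (Fin 3) (F i)) →* A) : φ = 1 := by
  have hT : ∀ (i k : Fin 3) (hik : i ≠ k) (c : ∀ t, F t), φ (fun t => tv i k hik (c t)) = 1 := by
    intro i k hik c
    obtain ⟨j, hij, hjk⟩ := exists_third i k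
    have e : (fun t => tv i j hij (1 : F t)) * (fun t => tv j k hjk (c t)) =
      (fun t => tv i k hik (c t)) * (fun t => tv j k hjk (c t)) * (fun t => tv i j hij (1 : F t)) := by
      funext t
      show tv i j hij (1 : F t) * tv j k hjk (c t) = tv i k hik (c t) * tv j k hjk (c t) * tv i j hij (1 : F t)
      have := tv_comm_mul i j k hij hjk hik (1 : F t) (c t)
      rw [one_mul] at this
      exact this
    have e2 := congrArg φ e
    rw [map_mul, map_mul, map_mul] at e2
    have e3 : φ (fun t => tv i k hik (c t)) * (φ (fun t => tv j k hjk (c t)) * φ (fun t => tv i j hij (1 : F t))) =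
      1 * (φ (fun t => tv j k hjk (c t)) * φ (fun t => tv i j hij (1 : F t))) := by
      rw [one_mul, ← mul_assoc, ← e2, mul_comm]
    exact mul_right_cancel e3
  ext g
  choose c hc using fun t => bdd_gen (g t)
  have hg : g = (fun t => tv 1 0 (by decide) (c t 0)) * (fun t => tv 0 1 (by decide) (c t 1)) *
      (fun t => tv 0 2 (by decide) (c t 2)) * (fun t => tv 1 0 (by decide) (c t 3)) *
      (fun t => tv 2 0 (by decide) (c t 4)) *
      (fun t => tv 2 1 (by decide) (c t 5)) * (fun t => tv 1 2 (by decide) (c t 6)) *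
      (fun t => tv 2 1 (by decide) (c t 7)) *
      (fun t => tv 1 2 (by decide) (c t 8)) * (fun t => tv 0 2 (by decide) (c t 9)) *
      (fun t => tv 0 1 (by decide) (c t 10)) := by
    funext t
    exact hc t
  show φ g = 1
  rw [hg]
  simp only [map_mul, hT, mul_one]

/-- a homomorphism from `SL₃(F)` killing `x_02(a)` for all `a` is trivial -/
theorem hom_trivial_of_tv {F : Type*} [Field F] {G : Type*} [Group G]
    (φ : SpecialLinearGroup (Fin 3) F →* G) (h : ∀ a : F, φ (tv 0 2 (by decide) a) = 1) :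
    φ = 1 := by
  have h1 : ∀ (i j k : Fin 3) (hij : i ≠ j) (hjk : j ≠ k) (hik : i ≠ k),
      (∀ a : F, φ (tv i j hij a) = 1) → ∀ a : F, φ (tv i k hik a) = 1 := by
    intro i j k hij hjk hik hh a
    have e := congrArg φ (tv_comm_mul i j k hij hjk hik (1 : F) a)
    rw [map_mul, map_mul, map_mul, hh, one_mul, mul_one, one_mul] at e
    exact (right_eq_mul.1 e)
  have h2 : ∀ (i j k : Fin 3) (hij : i ≠ j) (hjk : j ≠ k) (hik : i ≠ k),
      (∀ a : F, φ (tv j k hjk a) = 1) → ∀ a : F, φ (tv i k hik a) = 1 := by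
    intro i j k hij hjk hik hh a
    have e := congrArg φ (tv_comm_mul i j k hij hjk hik a (1 : F))
    rw [map_mul, map_mul, map_mul, hh, mul_one, mul_one, mul_one] at e
    exact (right_eq_mul.1 e)
  have h01 := h1 0 2 1 (by decide) (by decide) (by decide) h
  have h12 := h2 1 0 2 (by decide) (by decide) (by decide) h
  have h10 := h1 1 2 0 (by decide) (by decide) (by decide) h12
  have h21 := h2 2 0 1 (by decide) (by decide) (by decide) h01
  have h20 := h1 2 1 0 (by decide) (by decide) (by decide) h21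
  ext g
  obtain ⟨c, hc⟩ := bdd_gen g
  show φ g = 1
  rw [hc]
  simp only [map_mul, h, h01, h12, h10, h21, h20, mul_one]

end Pool.Agent.Helper90.CB
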