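import Mathlib
set_option autoImplicit false
open Set MeasureTheory
open scoped ENNReal

namespace Pool.Agent.Helper90.CB

section
variable {ι : Type} (G : ι → Type) [∀ i, Group (G i)] [∀ i, Finite (G i)]
  [∀ i, MeasurableSpace (G i)] [∀ i, DiscreteMeasurableSpace (G i)]

/-- The Haar probability measure on a product of finite groups. -/
noncomputable def hk : Measure (∀ i, G i) :=
  Measure.infinitePi (fun i => ProbabilityTheory.uniformOn (Set.univ : Set (G i)))

instance : IsProbabilityMeasure (hk G) := by
  unfold hk; infer_instance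

theorem map_uniformOn {α β : Type} [Finite α] [Nonempty α] [MeasurableSpace α]
    [DiscreteMeasurableSpace α] [MeasurableSpace β] [DiscreteMeasurableSpace β] (e : α ≃ β) :
    (ProbabilityTheory.uniformOn (Set.univ : Set α)).map e
      = ProbabilityTheory.uniformOn (Set.univ : Set β) := by
  have hβ : Finite β := Finite.of_equiv α e
  have : Fintype α := Fintype.ofFinite α
  have : Fintype β := Fintype.ofFinite β
  ext s hs
  rw [Measure.map_apply (Measurable.of_discrete) hs, ProbabilityTheory.uniformOn_univ,
    ProbabilityTheory.uniformOn_univ, Fintype.card_congr e]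
  congr 1
  rw [Measure.count_apply (MeasurableSet.of_discrete), Measure.count_apply hs]
  congr 1
  rw [Set.encard_preimage_of_bijective e.bijective]

variable {G}

theorem hk_map_equiv {G' : ι → Type} [∀ i, Group (G' i)] [∀ i, Finite (G' i)]
    [∀ i, MeasurableSpace (G' i)] [∀ i, DiscreteMeasurableSpace (G' i)]
    (e : ∀ i, G i ≃ G' i) :
    MeasurePreserving (fun (z : ∀ i, G i) i => e i (z i)) (hk G) (hk G') := by
  refine ⟨measurable_pi_lambda _ fun i => Measurable.of_discrete.comp (measurable_pi_apply i), ?_⟩
  unfold hk
  rw [Measure.infinitePi_map_pi _ (fun i => Measurable.of_discrete)]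
  congr 1
  funext i
  exact map_uniformOn (e i)

theorem mp_left (g : ∀ i, G i) : MeasurePreserving (fun z => g * z) (hk G) (hk G) :=
  hk_map_equiv (fun i => Equiv.mulLeft (g i))

theorem mp_right (g : ∀ i, G i) : MeasurePreserving (fun z => z * g) (hk G) (hk G) :=
  hk_map_equiv (fun i => Equiv.mulRight (g i))

instance instMulPi : MeasurableMul₂ (∀ i, G i) :=
  ⟨measurable_pi_lambda _ fun i => by
    have h1 : Measurable fun x : (∀ i, G i) × (∀ i, G i) => (x.1 i, x.2 i) :=
      ((measurable_pi_apply i).comp measurable_fst).prodMk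
        ((measurable_pi_apply i).comp measurable_snd)
    have h2 : Measurable fun x : G i × G i => x.1 * x.2 := Measurable.of_discrete
    exact h2.comp h1⟩

instance instInvPi : MeasurableInv (∀ i, G i) :=
  ⟨measurable_pi_lambda _ fun i => by
    have h2 : Measurable fun x : G i => x⁻¹ := Measurable.of_discrete
    exact h2.comp (measurable_pi_apply i)⟩

variable [DecidableEq ι]

/-- set the coordinates in `F` to `1` -/
def pr (F : Finset ι) : (∀ i, G i) →* (∀ i, G i) where
  toFun x i := if i ∈ F then 1 else x i
  map_one' := by funext i; simp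
  map_mul' x y := by
    funext i
    by_cases h : i ∈ F <;> simp [h]

theorem pr_apply (F : Finset ι) (x : ∀ i, G i) (i : ι) :
    pr F x i = if i ∈ F then 1 else x i := rfl

theorem pr_mem {F : Finset ι} {i : ι} (h : i ∈ F) (x : ∀ i, G i) : pr F x i = 1 := if_pos h

theorem pr_not_mem {F : Finset ι} {i : ι} (h : i ∉ F) (x : ∀ i, G i) : pr F x i = x i := if_neg h

theorem pr_pr (F : Finset ι) (x : ∀ i, G i) : pr F (pr F x) = pr F x := by
  funext i; by_cases h : i ∈ F <;> simp [pr_apply, h]

theorem measurable_pr (F : Finset ι) : Measurable (pr F : (∀ i, G i) → (∀ i, G i)) :=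
  measurable_pi_lambda _ fun i => by
    by_cases h : i ∈ F
    · simp only [pr_mem h]; exact measurable_const
    · simp only [pr_not_mem h]; exact measurable_pi_apply i

end

end Pool.Agent.Helper90.CB
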