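import Mathlib
set_option autoImplicit false

namespace Pool.Agent.Helper90.CB
open Matrix

theorem heis_eig {K V : Type} [Field K] [IsAlgClosed K] [AddCommGroup V] [Module K V]
    [FiniteDimensional K V] (W : Submodule K V) (hW : W ≠ ⊥) (T : Module.End K V)
    (hT : ∀ w ∈ W, T w ∈ W) : ∃ μ : K, ∃ v ∈ W, v ≠ 0 ∧ T v = μ • v := by
  have : Nontrivial W := Submodule.nontrivial_iff_ne_bot.mpr hW
  obtain ⟨μ, hμ⟩ := Module.End.exists_eigenvalue (T.restrict hT : Module.End K W)
  obtain ⟨v, hv⟩ := hμ.exists_hasEigenvector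
  refine ⟨μ, v, v.2, ?_, ?_⟩
  · intro h
    exact hv.2 (Subtype.ext h)
  · have h1 := hv.apply_eq_smul
    have h2 := congrArg Subtype.val h1
    simpa using h2

theorem heis_end {K V : Type} [Field K] [IsAlgClosed K] [AddCommGroup V] [Module K V]
    [FiniteDimensional K V] (hd : Module.finrank K V = 3) (p : ℕ) (hp : p.Prime) (hp3 : 3 < p)
    (hpk : (p : K) ≠ 0) (X Y Z X' Y' : Module.End K V) (hX : X' * X = 1) (hY : Y' * Y = 1)
    (hxy : X * Y = Z * Y * X) (hzx : Z * X = X * Z) (hzy : Z * Y = Y * Z) (hz : Z ^ p = 1) :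
    Z = 1 := by
  by_contra hne
  set S : Module.End K V := ∑ i ∈ Finset.range p, Z ^ i with hS
  have hSN : S * (Z - 1) = 0 := by
    rw [hS, geom_sum_mul, hz, sub_self]
  have hW : LinearMap.ker S ≠ ⊥ := by
    intro hbot
    apply hne
    have h0 : Z - 1 = 0 := by
      ext v
      have h1 : S ((Z - 1) v) = 0 := by
        have := congrArg (fun T : Module.End K V => T v) hSN
        simpa using this
      have h2 : (Z - 1) v ∈ LinearMap.ker S := h1
      rw [hbot] at h2
      simpa using h2
    exact sub_eq_zero.mp h0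
  have hSZ : S * Z = Z * S := by
    rw [hS, Finset.sum_mul, Finset.mul_sum]
    exact Finset.sum_congr rfl fun i _ => by rw [← pow_succ, ← pow_succ']
  have hSY : S * Y = Y * S := by
    rw [hS, Finset.sum_mul, Finset.mul_sum]
    exact Finset.sum_congr rfl fun i _ => (Commute.pow_left hzy i).eq
  obtain ⟨ζ, v1, hv1, hv10, hv1z⟩ := heis_eig (LinearMap.ker S) hW Z (by
    intro w hw
    rw [LinearMap.mem_ker] at hw ⊢
    have := congrArg (fun T : Module.End K V => T w) hSZ
    simp only [Module.End.mul_apply] at this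
    rw [this, hw, map_zero])
  have hpow : ∀ (w : V), Z w = ζ • w → ∀ i : ℕ, (Z ^ i) w = ζ ^ i • w := by
    intro w hw i
    induction i with
    | zero => simp
    | succ i ih =>
      rw [pow_succ', Module.End.mul_apply, ih, map_smul, hw, smul_smul, pow_succ]
  have hsum : (∑ i ∈ Finset.range p, ζ ^ i) = 0 := by
    have h1 : S v1 = (∑ i ∈ Finset.range p, ζ ^ i) • v1 := by
      rw [hS, LinearMap.sum_apply, Finset.sum_smul]
      exact Finset.sum_congr rfl fun i _ => hpow v1 hv1z i
    rw [LinearMap.mem_ker.mp hv1] at h1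
    rcases smul_eq_zero.mp h1.symm with h | h
    · exact h
    · exact absurd h hv10
  have hζ1 : ζ ≠ 1 := by
    rintro rfl
    simp at hsum
    exact hpk hsum
  have hζp : ζ ^ p = 1 := by
    have := geom_sum_mul ζ p
    rw [hsum, zero_mul] at this
    exact (sub_eq_zero.mp this.symm)
  have hζ0 : ζ ≠ 0 := by
    rintro rfl
    rw [zero_pow hp.ne_zero] at hζp
    exact zero_ne_one hζp
  -- the eigenspace
  obtain ⟨μ, v, hv, hv0, hvy⟩ := heis_eig (LinearMap.ker (Z - ζ • (1 : Module.End K V))) (by
      intro hbot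
      apply hv10
      have : v1 ∈ LinearMap.ker (Z - ζ • (1 : Module.End K V)) := by
        rw [LinearMap.mem_ker]
        simp [hv1z]
      rw [hbot] at this
      simpa using this) Y (by
      intro w hw
      rw [LinearMap.mem_ker] at hw ⊢
      have h1 : Z w = ζ • w := by
        simpa [sub_eq_zero] using hw
      have := congrArg (fun T : Module.End K V => T w) hzy
      simp only [Module.End.mul_apply] at this
      rw [LinearMap.sub_apply, this, h1]
      simp)
  have hvz : Z v = ζ • v := by
    rw [LinearMap.mem_ker] at hv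
    simpa [sub_eq_zero] using hv
  have hμ0 : μ ≠ 0 := by
    rintro rfl
    rw [zero_smul] at hvy
    apply hv0
    have := congrArg (fun T : Module.End K V => T v) hY
    simp only [Module.End.mul_apply, Module.End.one_apply] at this
    rw [← this, hvy, map_zero]
  set η := ζ⁻¹ with hη
  have hXi : ∀ i : ℕ, (X ^ i) v ≠ 0 ∧ Z ((X ^ i) v) = ζ • (X ^ i) v ∧
      Y ((X ^ i) v) = (μ * η ^ i) • (X ^ i) v := by
    intro i
    induction i with
    | zero => exact ⟨by simpa using hv0, by simpa using hvz, by simpa using hvy⟩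
    | succ i ih =>
      obtain ⟨h1, h2, h3⟩ := ih
      rw [pow_succ', Module.End.mul_apply]
      set w := (X ^ i) v with hw
      have hXw : X w ≠ 0 := by
        intro h
        apply h1
        have := congrArg (fun T : Module.End K V => T w) hX
        simp only [Module.End.mul_apply, Module.End.one_apply] at this
        rw [← this, h, map_zero]
      have hZX : Z (X w) = ζ • X w := by
        have := congrArg (fun T : Module.End K V => T w) hzx
        simp only [Module.End.mul_apply] at this
        rw [this, h2, map_smul]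
      refine ⟨hXw, hZX, ?_⟩
      have h4 := congrArg (fun T : Module.End K V => T w) hxy
      simp only [Module.End.mul_apply] at h4
      have h5 := congrArg (fun T : Module.End K V => T (X w)) hzy
      simp only [Module.End.mul_apply] at h5
      rw [h3, map_smul, h5, hZX, map_smul] at h4
      rw [pow_succ, ← mul_assoc, mul_comm (μ * η ^ i) η, mul_smul, h4, smul_smul, hη,
        inv_mul_cancel₀ hζ0, one_smul]
  have hord : orderOf η = p := by
    have : Fact p.Prime := ⟨hp⟩
    refine orderOf_eq_prime ?_ ?_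
    · rw [hη, inv_pow, hζp, inv_one]
    · rw [hη]
      intro h
      exact hζ1 (inv_eq_one.mp h)
  have hinj : Function.Injective (fun i : Fin 4 => μ * η ^ (i : ℕ)) := by
    intro i j hij
    have h1 : η ^ (i : ℕ) = η ^ (j : ℕ) := mul_left_cancel₀ hμ0 hij
    have h2 := pow_injOn_Iio_orderOf (x := η) (x₁ := (i : ℕ)) (x₂ := (j : ℕ))
      (by rw [hord, Set.mem_Iio]; omega) (by rw [hord, Set.mem_Iio]; omega) h1
    exact Fin.ext h2
  have hli := Module.End.eigenvectors_linearIndependent' Y (fun i : Fin 4 => μ * η ^ (i : ℕ)) hinj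
    (fun i : Fin 4 => (X ^ (i : ℕ)) v) (fun i => by
      rw [Module.End.hasEigenvector_iff, Module.End.mem_eigenspace_iff]
      exact ⟨(hXi i).2.2, (hXi i).1⟩)
  have hcard := hli.fintype_card_le_finrank
  rw [hd, Fintype.card_fin] at hcard
  omega

/-- If `x y = z y x` in `SL₃(k)`, `z` commutes with `x` and `y`, `z ^ p = 1` with `p > 3` prime
and different from the characteristic, then `z = 1`. -/
theorem heis_trivial {k : Type} [Field k] (p : ℕ) (hp : p.Prime) (hp3 : 3 < p)
    (hpk : (p : k) ≠ 0) (x y z : SpecialLinearGroup (Fin 3) k) (hxy : x * y = z * y * x)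
    (hzx : z * x = x * z) (hzy : z * y = y * z) (hz : z ^ p = 1) : z = 1 := by
  let K := AlgebraicClosure k
  let φ : SpecialLinearGroup (Fin 3) k →* Module.End K (Fin 3 → K) :=
    { toFun := fun g => Matrix.toLinAlgEquiv' ((g : Matrix (Fin 3) (Fin 3) k).map (algebraMap k K))
      map_one' := by
        rw [Matrix.SpecialLinearGroup.coe_one, Matrix.map_one _ (map_zero _) (map_one _), map_one]
      map_mul' := fun g h => by
        rw [Matrix.SpecialLinearGroup.coe_mul, Matrix.map_mul, map_mul] }
  have hφi : Function.Injective φ := by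
    intro g h hgh
    have h1 : (g : Matrix (Fin 3) (Fin 3) k).map (algebraMap k K) =
        (h : Matrix (Fin 3) (Fin 3) k).map (algebraMap k K) := Matrix.toLinAlgEquiv'.injective hgh
    have h2 := Matrix.map_injective (FaithfulSMul.algebraMap_injective k K) h1
    exact Subtype.ext h2
  apply hφi
  rw [map_one]
  refine heis_end (K := K) (V := Fin 3 → K) (by simp) p hp hp3 ?_ (φ x) (φ y) (φ z) (φ x⁻¹) (φ y⁻¹)
    ?_ ?_ ?_ ?_ ?_ ?_
  · intro h
    apply hpk
    apply FaithfulSMul.algebraMap_injective k K
    rw [map_natCast, map_zero]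
    exact h
  · rw [← map_mul, inv_mul_cancel, map_one]
  · rw [← map_mul, inv_mul_cancel, map_one]
  · rw [← map_mul, ← map_mul, ← map_mul, hxy]
  · rw [← map_mul, ← map_mul, hzx]
  · rw [← map_mul, ← map_mul, hzy]
  · rw [← map_pow, hz, map_one]

end Pool.Agent.Helper90.CB
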