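import Mathlib
import Pool.Agent.Helper90.CB.Grp
import Pool.Agent.Helper90.CB.Elem
import Pool.Agent.Helper90.CB.Heis
set_option autoImplicit false
open Set MeasureTheory
open scoped ENNReal

namespace Pool.Agent.Helper90.CB

abbrev SL3 (p : ℕ) := Matrix.SpecialLinearGroup (Fin 3) (ZMod p)

/-- discrete measurable structure on `SL₃(ℤ/p)` -/
instance instMSL (p : ℕ) : MeasurableSpace (SL3 p) := ⊤

instance instDSL (p : ℕ) : DiscreteMeasurableSpace (SL3 p) := ⟨fun _ => trivial⟩

end Pool.Agent.Helper90.CB
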