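import Mathlib
import Pool.Agent.Helper90.CB.Defs
set_option autoImplicit false

namespace Pool.Agent.Helper90.CB
open Matrix


theorem tv_pow {R : Type*} [CommRing R] (i j : Fin 3) (h : i ≠ j) (a : R) (n : ℕ) :
    (tv i j h a) ^ n = tv i j h (n * a) := by
  induction n with
  | zero => simp [tv_zero]
  | succ n ih =>
    rw [pow_succ, ih, ← tv_add]
    congr 1
    push_cast
    ring

theorem hom_key (P Q : ℕ) [hP : Fact P.Prime] [hQ : Fact Q.Prime] (h3 : 3 < P) (hne : P ≠ Q)
    (φ : SL3 P →* SL3 Q) : φ = 1 := by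
  apply hom_trivial_of_tv
  intro a
  have hpk : ((P : ℕ) : ZMod Q) ≠ 0 := by
    intro h
    rw [ZMod.natCast_eq_zero_iff] at h
    exact hne ((Nat.prime_dvd_prime_iff_eq hQ.out hP.out).1 h).symm
  apply heis_trivial P hP.out h3 hpk (φ (tv 0 1 (by decide) a)) (φ (tv 1 2 (by decide) 1))
    (φ (tv 0 2 (by decide) a))
  · have h := tv_comm_mul (R := ZMod P) 0 1 2 (by decide) (by decide) (by decide) a 1
    rw [mul_one] at h
    rw [← map_mul, h, map_mul, map_mul]
  · have h := tv_comm_left (R := ZMod P) 0 1 2 (by decide) (by decide) a a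
    rw [← map_mul, ← h, map_mul]
  · have h := tv_comm_right (R := ZMod P) 0 1 2 (by decide) (by decide) a 1
    rw [← map_mul, h, map_mul]
  · rw [← map_pow, tv_pow]
    have : ((P : ℕ) : ZMod P) = 0 := ZMod.natCast_self P
    rw [this, zero_mul, tv_zero, map_one]

theorem tv_one_ne (P : ℕ) [hP : Fact P.Prime] :
    (tv 0 2 (by decide) (1 : ZMod P) : SL3 P) ≠ 1 := by
  intro h
  have h1 := congrArg (fun g : SL3 P => (g : Matrix (Fin 3) (Fin 3) (ZMod P)) 0 2) h
  simp [tv, Matrix.transvection] at h1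

/-- If `D` is injective on the factor `i`, then `p i` is one of the `q j`. -/
theorem alg_mem {ι κ : Type} [DecidableEq ι] (p : ι → ℕ) (q : κ → ℕ)
    [∀ i, Fact (p i).Prime] [∀ j, Fact (q j).Prime] (i : ι) (h3 : 3 < p i)
    (D : (∀ i, SL3 (p i)) →* (∀ j, SL3 (q j)))
    (hD : ∀ g : SL3 (p i), D (Pi.mulSingle i g) = 1 → g = 1) :
    ∃ j, q j = p i := by
  by_contra hcon
  push Not at hcon
  apply tv_one_ne (p i)
  apply hD
  funext j
  have h := hom_key (p i) (q j) h3 (Ne.symm (hcon j))
    ((Pi.evalMonoidHom (fun j => SL3 (q j)) j).comp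
      (D.comp (MonoidHom.mulSingle (fun i => SL3 (p i)) i)))
  exact DFunLike.congr_fun h (tv 0 2 (by decide) 1)

theorem hD_comp {ι : Type} [DecidableEq ι] (p : ι → ℕ) (hinj : Function.Injective p)
    [∀ i, Fact (p i).Prime] (i : ι) (h3 : 3 < p i)
    (D : (∀ i, SL3 (p i)) →* (∀ j, SL3 (p j))) (g : SL3 (p i)) (j : ι) (hj : j ≠ i) :
    D (Pi.mulSingle i g) j = 1 := by
  have h := hom_key (p i) (p j) h3 (fun h => hj (hinj h).symm)
    ((Pi.evalMonoidHom (fun j => SL3 (p j)) j).comp
      (D.comp (MonoidHom.mulSingle (fun i => SL3 (p i)) i)))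
  exact DFunLike.congr_fun h g

/-- replace the `i`-th coordinate by `1` -/
def kill {ι : Type} [DecidableEq ι] {G : ι → Type} [∀ i, Group (G i)] (i : ι) :
    (∀ i, G i) →* (∀ i, G i) where
  toFun y := Function.update y i 1
  map_one' := by
    funext j
    by_cases h : j = i
    · subst h; simp
    · simp [h]
  map_mul' y z := by
    funext j
    by_cases h : j = i
    · subst h; simp
    · simp [h]

theorem kill_comm {ι : Type} [DecidableEq ι] {G : ι → Type} [∀ i, Group (G i)] (i : ι)
    (g : G i) (y : ∀ i, G i) :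
    Pi.mulSingle i g * kill i y = kill i y * Pi.mulSingle i g := by
  funext j
  by_cases h : j = i
  · subst h; simp [kill]
  · simp [kill, h, Pi.mulSingle_apply]

theorem kill_split {ι : Type} [DecidableEq ι] {G : ι → Type} [∀ i, Group (G i)] (i : ι)
    (y : ∀ i, G i) :
    y = Pi.mulSingle i (y i) * kill i y := by
  funext j
  by_cases h : j = i
  · subst h; simp [kill]
  · simp [kill, h]

open scoped IsMulCommutative in
/-- If `D : ∏ SL₃(F_{p_i}) → ∏ SL₃(F_{p_i})` is injective on the factor `i`, then its `i`-th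
component is `x ↦ α (x i)` with `α` bijective. -/
theorem alg_comp {ι : Type} [DecidableEq ι] (p : ι → ℕ) (hinj : Function.Injective p)
    [∀ i, Fact (p i).Prime] (i : ι) (h3 : 3 < p i)
    (D : (∀ i, SL3 (p i)) →* (∀ j, SL3 (p j)))
    (hD : ∀ g : SL3 (p i), D (Pi.mulSingle i g) = 1 → g = 1) :
    ∃ α : SL3 (p i) ≃ SL3 (p i), ∀ x, D x i = α (x i) := by
  have hfin : Finite (SL3 (p i)) := by
    haveI : NeZero (p i) := ⟨(Fact.out : (p i).Prime).ne_zero⟩
    exact Subtype.finite
  set α0 : SL3 (p i) →* SL3 (p i) := (Pi.evalMonoidHom (fun j => SL3 (p j)) i).comp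
    (D.comp (MonoidHom.mulSingle (fun i => SL3 (p i)) i)) with hα0
  have hα : ∀ g, α0 g = D (Pi.mulSingle i g) i := fun g => rfl
  have hinj0 : Function.Injective α0 := by
    rw [injective_iff_map_eq_one]
    intro g hg
    apply hD
    funext j
    by_cases h : j = i
    · subst h
      exact hg
    · exact hD_comp p hinj i h3 D g j h
  have hbij : Function.Bijective α0 := Finite.injective_iff_bijective.1 hinj0
  set β : (∀ i, SL3 (p i)) →* SL3 (p i) := (Pi.evalMonoidHom (fun j => SL3 (p j)) i).comp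
    (D.comp (kill i)) with hβ
  have hβv : ∀ y, β y = D (kill i y) i := fun y => rfl
  have hcen : ∀ y, β y ∈ Subgroup.center (SL3 (p i)) := by
    intro y
    rw [Subgroup.mem_center_iff]
    intro h
    obtain ⟨g, rfl⟩ := hbij.2 h
    have h1 : D (Pi.mulSingle i g * kill i y) = D (kill i y * Pi.mulSingle i g) := by
      rw [kill_comm]
    rw [map_mul, map_mul] at h1
    exact congrFun h1 i
  have hβ1 : (β.codRestrict (Subgroup.center (SL3 (p i))) hcen) = 1 :=
    hom_comm_trivial (A := ↥(Subgroup.center (SL3 (p i)))) (fun i => ZMod (p i))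
      (β.codRestrict (Subgroup.center (SL3 (p i))) hcen)
  have hβt : ∀ y, β y = 1 := by
    intro y
    have h2 := DFunLike.congr_fun hβ1 y
    exact congrArg Subtype.val h2
  refine ⟨Equiv.ofBijective α0 hbij, fun x => ?_⟩
  have hx : D x i = D (Pi.mulSingle i (x i)) i * D (kill i x) i := by
    conv_lhs => rw [kill_split i x]
    rw [map_mul]
    rfl
  rw [hx, ← hβv, hβt, mul_one]
  rfl

end Pool.Agent.Helper90.CB
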