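import Mathlib
import Pool.Agent.Helper90.CB.Grp
set_option autoImplicit false
open Set MeasureTheory
open scoped ENNReal

namespace Pool.Agent.Helper90.CB



/-- A measurable function with essentially countable range is almost invariant under right
translation by elements supported outside a suitable finite set of coordinates. -/
theorem approx_fun {ι : Type} [DecidableEq ι] {G : ι → Type} [∀ i, Group (G i)]
    [∀ i, Finite (G i)] [∀ i, MeasurableSpace (G i)] [∀ i, DiscreteMeasurableSpace (G i)]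
    {B : Type} [MeasurableSpace B] [MeasurableSingletonClass B]
    (W : (∀ i, G i) → B) (hW : Measurable W) (Λ : Set B) (hΛ : Λ.Countable)
    (h : ∀ᵐ z ∂(hk G), W z ∈ Λ) (ε : ℝ≥0∞) (hε : ε ≠ 0) :
    ∃ F : Finset ι, ∀ x : ∀ i, G i, hk G {z | ¬ W (z * pr F x) = W z} ≤ ε := by
  classical
  by_cases hεt : ε = ∞
  · exact ⟨∅, fun x => by rw [hεt]; exact le_top⟩
  have hA : ∀ l : B, MeasurableSet (W ⁻¹' {l}) := fun l => hW (measurableSet_singleton l)
  have : Countable Λ := hΛ.to_subtype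
  have hdisj : Pairwise (Function.onFun Disjoint fun l : Λ => W ⁻¹' {(l : B)}) := by
    intro a b hab
    refine Set.disjoint_left.2 fun z hz hz' => hab ?_
    exact Subtype.ext ((show W z = a from hz).symm.trans (show W z = b from hz'))
  have hsum : ∑' l : Λ, hk G (W ⁻¹' {(l : B)}) ≠ ∞ := by
    rw [← measure_iUnion hdisj (fun l => hA l)]
    exact measure_ne_top _ _
  have ht := ENNReal.tendsto_tsum_compl_atTop_zero hsum
  have hε2 : (0 : ℝ≥0∞) < ε / 2 := ENNReal.div_pos hε (by simp)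
  obtain ⟨L0, hL0⟩ : ∃ L0 : Finset Λ,
      ∑' b : {x // x ∉ L0}, hk G (W ⁻¹' {((b : Λ) : B)}) ≤ ε / 2 := by
    have h1 := (ht.eventually (gt_mem_nhds hε2)).exists
    obtain ⟨L0, h2⟩ := h1
    exact ⟨L0, h2.le⟩
  obtain ⟨δ, hδ0, hδ⟩ : ∃ δ : ℝ, 0 < δ ∧
      (L0.card : ℝ≥0∞) * (ENNReal.ofReal δ + ENNReal.ofReal δ) ≤ ε / 2 := by
    have hpos : 0 < (ε / 2).toReal := ENNReal.toReal_pos hε2.ne'
      (ENNReal.div_ne_top hεt (by simp))
    refine ⟨(ε / 2).toReal / (2 * (L0.card + 1)), by positivity, ?_⟩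
    rw [← ENNReal.ofReal_add (by positivity) (by positivity), ← ENNReal.ofReal_natCast,
      ← ENNReal.ofReal_mul (by positivity)]
    refine ENNReal.ofReal_le_of_le_toReal ?_
    have hc : (0 : ℝ) ≤ L0.card := by positivity
    have h3 : (L0.card : ℝ) * ((ε / 2).toReal / (2 * (L0.card + 1))
        + (ε / 2).toReal / (2 * (L0.card + 1))) = (ε / 2).toReal * (L0.card / (L0.card + 1)) := by
      field_simp
      try ring
    rw [h3]
    have h4 : (L0.card : ℝ) / (L0.card + 1) ≤ 1 := by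
      rw [div_le_one (by positivity)]; linarith
    nlinarith
  have hdense : (hk G).MeasureDense (measurableCylinders G) :=
    Measure.MeasureDense.of_generateFrom_isSetAlgebra_finite _
      (isSetAlgebra_measurableCylinders) (generateFrom_measurableCylinders (α := G)).symm
  have hcyl : ∀ l : Λ, ∃ (F : Finset ι) (S : Set (∀ i : F, G i)), MeasurableSet S ∧
      hk G (symmDiff (W ⁻¹' {(l : B)}) (cylinder F S)) ≤ ENNReal.ofReal δ := by
    intro l
    obtain ⟨t, ht, hlt⟩ := hdense.approx _ (hA l) (measure_ne_top _ _) δ hδ0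
    rw [mem_measurableCylinders] at ht
    obtain ⟨F, S, hS, rfl⟩ := ht
    exact ⟨F, S, hS, hlt.le⟩
  choose F S hS hC using hcyl
  refine ⟨L0.biUnion F, fun x => ?_⟩
  set y := pr (L0.biUnion F) x with hy
  have hsub : {z | ¬ W (z * y) = W z} ⊆ ({z | ¬ W z ∈ Λ} ∪
      (⋃ b : {x // x ∉ L0}, W ⁻¹' {((b : Λ) : B)})) ∪
      ⋃ l ∈ L0, ((W ⁻¹' {(l : B)}) \ (cylinder (F l) (S l)) ∪
        (fun z => z * y) ⁻¹' ((cylinder (F l) (S l)) \ (W ⁻¹' {(l : B)}))) := by
    intro z hz
    by_cases h1 : W z ∈ Λ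
    · by_cases h2 : (⟨W z, h1⟩ : Λ) ∈ L0
      · right
        refine Set.mem_iUnion₂.2 ⟨⟨W z, h1⟩, h2, ?_⟩
        by_cases h3 : z ∈ cylinder (F ⟨W z, h1⟩) (S ⟨W z, h1⟩)
        · right
          refine ⟨?_, fun h4 => hz h4⟩
          have h5 : (F ⟨W z, h1⟩).restrict (z * y) = (F ⟨W z, h1⟩).restrict z := by
            funext i
            have h6 : (i : ι) ∈ L0.biUnion F := Finset.mem_biUnion.2 ⟨_, h2, i.2⟩
            show z i * y i = z i
            rw [hy, pr_mem h6, mul_one]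
          rw [mem_cylinder] at h3 ⊢
          show (F ⟨W z, h1⟩).restrict (z * y) ∈ _
          rw [h5]; exact h3
        · left
          exact ⟨rfl, h3⟩
      · left; right
        exact Set.mem_iUnion.2 ⟨⟨⟨W z, h1⟩, h2⟩, rfl⟩
    · left; left; exact h1
  have hterm : ∀ l ∈ L0, hk G ((W ⁻¹' {(l : B)}) \ (cylinder (F l) (S l)) ∪
        (fun z => z * y) ⁻¹' ((cylinder (F l) (S l)) \ (W ⁻¹' {(l : B)}))) ≤
        ENNReal.ofReal δ + ENNReal.ofReal δ := by
    intro l _
    refine (measure_union_le _ _).trans (add_le_add ?_ ?_)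
    · exact (measure_mono (fun z hz => Or.inl hz)).trans (hC l)
    · rw [(mp_right y).measure_preimage
        (((MeasurableSet.cylinder _ (hS l)).diff (hA l)).nullMeasurableSet)]
      exact (measure_mono (fun z hz => Or.inr hz)).trans (hC l)
  calc hk G {z | ¬ W (z * y) = W z} ≤ _ := measure_mono hsub
    _ ≤ (hk G {z | ¬ W z ∈ Λ} + hk G (⋃ b : {x // x ∉ L0}, W ⁻¹' {((b : Λ) : B)})) +
        ∑ l ∈ L0, hk G ((W ⁻¹' {(l : B)}) \ (cylinder (F l) (S l)) ∪
        (fun z => z * y) ⁻¹' ((cylinder (F l) (S l)) \ (W ⁻¹' {(l : B)}))) :=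
        (measure_union_le _ _).trans (add_le_add (measure_union_le _ _)
          (measure_biUnion_finset_le _ _))
    _ ≤ (0 + ε / 2) + ∑ l ∈ L0, (ENNReal.ofReal δ + ENNReal.ofReal δ) := by
        refine add_le_add (add_le_add ?_ ?_) (Finset.sum_le_sum hterm)
        · exact (ae_iff.1 h).le
        · exact (measure_iUnion_le _).trans hL0
    _ ≤ ε := by
        rw [Finset.sum_const, nsmul_eq_mul, zero_add]
        calc ε / 2 + _ ≤ ε / 2 + ε / 2 := add_le_add le_rfl hδ
          _ = ε := ENNReal.add_halves ε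

end Pool.Agent.Helper90.CB
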