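import Mathlib
set_option autoImplicit false
open Set MeasureTheory
open scoped ENNReal

namespace Pool.Agent.Helper90.CB

/-- From a spectral gap for sets to a spectral gap for functions with values in a countably
separated space (e.g. a standard Borel space). -/
theorem gap_fun {X B T : Type} [MeasurableSpace X] (μ : Measure X) [IsProbabilityMeasure μ]
    [MeasurableSpace B] [MeasurableSpace.CountablySeparated B] [MeasurableSingletonClass B]
    (τ : T → X → X)
    (gap : ∀ ε : ℝ≥0∞, 0 < ε → ∃ η : ℝ≥0∞, 0 < η ∧ ∀ A : Set X, MeasurableSet A →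
      (∀ t, μ {z | ¬ (z ∈ A ↔ τ t z ∈ A)} ≤ η) → μ A ≤ ε ∨ μ Aᶜ ≤ ε)
    (ε : ℝ≥0∞) (hε : 0 < ε) :
    ∃ η : ℝ≥0∞, 0 < η ∧ ∀ W : X → B, Measurable W →
      (∀ t, μ {z | ¬ W (τ t z) = W z} ≤ η) → ∃ c, μ {z | ¬ W z = c} ≤ ε := by
  classical
  set e : ℝ≥0∞ := min ε (1 / 4) with he
  have he0 : 0 < e := lt_min hε (by norm_num)
  have he4 : e ≤ 1 / 4 := min_le_right _ _
  have he3 : e + e + e < 1 := by
    have h1 : e + e + e ≤ 1 / 4 + 1 / 4 + 1 / 4 := add_le_add (add_le_add he4 he4) he4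
    refine lt_of_le_of_lt h1 ?_
    have h2 : (1 / 4 + 1 / 4 + 1 / 4 : ℝ≥0∞) = ENNReal.ofReal (3 / 4) := by
      have : (1 / 4 : ℝ≥0∞) = ENNReal.ofReal (1 / 4) := by
        rw [ENNReal.ofReal_div_of_pos (by norm_num)]
        simp
      rw [this, ← ENNReal.ofReal_add (by norm_num) (by norm_num),
        ← ENNReal.ofReal_add (by norm_num) (by norm_num)]
      congr 1; norm_num
    rw [h2, ENNReal.ofReal_lt_one]
    norm_num
  obtain ⟨η, hη, hgap⟩ := gap e he0
  refine ⟨η, hη, ?_⟩
  intro W hW hWτ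
  have hg : ∀ D : Set B, MeasurableSet D → μ (W ⁻¹' D) ≤ e ∨ μ (W ⁻¹' D)ᶜ ≤ e := by
    intro D hD
    refine hgap _ (hW hD) fun t => ?_
    refine (measure_mono ?_).trans (hWτ t)
    intro z hz hcon
    apply hz
    simp only [mem_preimage]
    rw [hcon]
  obtain ⟨S, hS, hsep⟩ := exists_seq_separating B (p := MeasurableSet) MeasurableSet.univ univ
  have hD : ∀ n, ∃ D : Set B, (D = S n ∨ D = (S n)ᶜ) ∧ MeasurableSet D ∧ μ (W ⁻¹' D)ᶜ ≤ e := by
    intro n
    rcases hg (S n) (hS n) with h | h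
    · refine ⟨(S n)ᶜ, Or.inr rfl, (hS n).compl, ?_⟩
      rw [preimage_compl, compl_compl]; exact h
    · exact ⟨S n, Or.inl rfl, hS n, h⟩
  choose D hDS hDm hDμ using hD
  set G : ℕ → Set B := fun n => ⋃ k ∈ Finset.range (n + 1), (D k)ᶜ with hG
  have hGm : ∀ n, MeasurableSet (G n) := fun n =>
    Finset.measurableSet_biUnion _ fun k _ => (hDm k).compl
  have hGs : ∀ n, G (n + 1) = G n ∪ (D (n + 1))ᶜ := by
    intro n
    ext x
    simp only [hG, mem_iUnion, Finset.mem_range, mem_union, mem_compl_iff, exists_prop]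
    constructor
    · rintro ⟨k, hk, hx⟩
      rcases Nat.lt_succ_iff_lt_or_eq.1 hk with h | h
      · exact Or.inl ⟨k, h, hx⟩
      · subst h; exact Or.inr hx
    · rintro (⟨k, hk, hx⟩ | hx)
      · exact ⟨k, by omega, hx⟩
      · exact ⟨n + 1, by omega, hx⟩
  have hGμ : ∀ n, μ (W ⁻¹' G n) ≤ e := by
    intro n
    induction n with
    | zero =>
      have : G 0 = (D 0)ᶜ := by simp [hG]
      rw [this, preimage_compl]
      exact hDμ 0
    | succ n ih =>
      rcases hg (G (n + 1)) (hGm _) with h | h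
      · exact h
      · exfalso
        have h1 : μ (W ⁻¹' G (n + 1)) ≤ e + e := by
          rw [hGs, preimage_union, preimage_compl]
          exact (measure_union_le _ _).trans (add_le_add ih (hDμ _))
        have h2 : (1 : ℝ≥0∞) ≤ e + e + e := by
          rw [← prob_add_prob_compl (hW (hGm (n + 1))) (μ := μ)]
          exact add_le_add h1 h
        exact absurd he3 (not_lt.2 h2)
  have hmono : Monotone fun n => W ⁻¹' G n := by
    apply monotone_nat_of_le_succ
    intro n
    apply preimage_mono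
    rw [hGs]; exact subset_union_left
  have hU : μ (⋃ n, W ⁻¹' G n) ≤ e := by
    rw [hmono.measure_iUnion]
    exact iSup_le hGμ
  have hlt : e < 1 := lt_of_le_of_lt (by
    calc e = e + 0 := (add_zero e).symm
      _ ≤ e + (e + e) := add_le_add le_rfl bot_le
      _ = e + e + e := (add_assoc _ _ _).symm) he3
  obtain ⟨z, hz⟩ : ∃ z, z ∉ ⋃ n, W ⁻¹' G n := by
    by_contra hcon
    push Not at hcon
    have : (⋃ n, W ⁻¹' G n) = univ := eq_univ_of_forall hcon
    rw [this, measure_univ] at hU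
    exact absurd hlt (not_lt.2 hU)
  refine ⟨W z, (measure_mono ?_).trans (hU.trans (min_le_left _ _))⟩
  intro z' hz'
  by_contra hcon
  apply hz'
  refine hsep _ (mem_univ _) _ (mem_univ _) fun n => ?_
  have key : ∀ y, y ∉ ⋃ n, W ⁻¹' G n → W y ∈ D n := by
    intro y hy
    by_contra hyD
    apply hy
    refine mem_iUnion.2 ⟨n, ?_⟩
    simp only [hG, mem_preimage, mem_iUnion, Finset.mem_range, mem_compl_iff, exists_prop]
    exact ⟨n, by omega, hyD⟩
  have h1 := key z hz
  have h2 := key z' hcon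
  rcases hDS n with h | h
  · rw [h] at h1 h2
    exact ⟨fun _ => h1, fun _ => h2⟩
  · rw [h] at h1 h2
    exact ⟨fun h3 => absurd h3 h2, fun h3 => absurd h3 h1⟩

end Pool.Agent.Helper90.CB
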