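import Mathlib
import Pool.Agent.Helper90.CB.Grp
import Pool.Agent.Helper90.CB.Approx
import Pool.Agent.Helper90.CB.GapFun
set_option autoImplicit false
open Set MeasureTheory
open scoped ENNReal

namespace Pool.Agent.Helper90.CB

/-- if three sets have small complement they meet -/
theorem exists_three {X : Type} [MeasurableSpace X] (μ : Measure X) [IsProbabilityMeasure μ]
    (P Q R : X → Prop) (ε : ℝ≥0∞) (h3 : 4 * ε < 1) (hP : μ {z | ¬ P z} ≤ ε)
    (hQ : μ {z | ¬ Q z} ≤ ε) (hR : μ {z | ¬ R z} ≤ ε) : ∃ z, P z ∧ Q z ∧ R z := by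
  by_contra hcon
  push Not at hcon
  have h1 : (Set.univ : Set X) ⊆ ({z | ¬ P z} ∪ {z | ¬ Q z}) ∪ {z | ¬ R z} := by
    intro z _
    by_cases hp : P z
    · by_cases hq : Q z
      · right; exact hcon z hp hq
      · left; right; exact hq
    · left; left; exact hp
  have h2 : μ Set.univ ≤ ε + ε + ε :=
    (measure_mono h1).trans ((measure_union_le _ _).trans
      (add_le_add ((measure_union_le _ _).trans (add_le_add hP hQ)) hR))
  rw [measure_univ] at h2
  have h4 : ε + ε + ε ≤ 4 * ε := by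
    have : (4 : ℝ≥0∞) * ε = ε + ε + ε + ε := by ring
    rw [this]; exact le_self_add
  exact absurd (lt_of_le_of_lt (h2.trans h4) h3) (lt_irrefl _)

theorem rigid_core {ι : Type} [DecidableEq ι] {G : ι → Type} [∀ i, Group (G i)]
    [∀ i, Finite (G i)] [∀ i, MeasurableSpace (G i)] [∀ i, DiscreteMeasurableSpace (G i)]
    {κ : Type} [Countable κ] {H : κ → Type} [∀ j, Group (H j)] [∀ j, Finite (H j)]
    [∀ j, MeasurableSpace (H j)] [∀ j, DiscreteMeasurableSpace (H j)]
    {T : Type} [Finite T] (x : T → ∀ i, G i)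
    (gap : ∀ ε : ℝ≥0∞, 0 < ε → ∃ η : ℝ≥0∞, 0 < η ∧ ∀ A : Set (∀ i, G i), MeasurableSet A →
      (∀ t, hk G {z | ¬ (z ∈ A ↔ x t * z ∈ A)} ≤ η) → hk G A ≤ ε ∨ hk G Aᶜ ≤ ε)
    (f : (∀ i, G i) → (∀ j, H j)) (hf : Measurable f) (Λ : Set (∀ j, H j)) (hΛ : Λ.Countable)
    (hfΛ : ∀ t, ∀ᵐ z ∂(hk G), f (x t * z) * (f z)⁻¹ ∈ Λ)
    (C : Set (∀ i, G i)) (hC : ∀ᵐ z ∂(hk G), z ∈ C)
    (ε : ℝ≥0∞) (hε : 0 < ε) (hε3 : 4 * ε < 1) :
    ∃ (F : Finset ι) (D : (∀ i, G i) →* (∀ j, H j)) (z0 : ∀ i, G i),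
      (∀ y, D y = D (pr F y)) ∧
      hk G {y | ¬ (z0 * pr F y ∈ C ∧ f (z0 * pr F y) = f z0 * D y)} ≤ ε := by
  classical
  have : Fintype T := Fintype.ofFinite T
  obtain ⟨η, hη, hgap⟩ := gap_fun (B := ∀ j, H j) (hk G) (fun t z => x t * z) gap ε hε
  -- the cocycle
  have hW : ∀ t, Measurable fun z => f (x t * z) * (f z)⁻¹ := fun t =>
    (hf.comp (mp_left (x t)).measurable).mul hf.inv
  choose Ft hFt using fun t => approx_fun (fun z => f (x t * z) * (f z)⁻¹) (hW t) Λ hΛ (hfΛ t) η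
    hη.ne'
  let F : Finset ι := Finset.univ.biUnion Ft
  have hprF : ∀ t y, pr (Ft t) (pr (G := G) F y) = pr F y := by
    intro t y
    funext i
    by_cases h : i ∈ Ft t
    · have hF : i ∈ F := Finset.mem_biUnion.2 ⟨t, Finset.mem_univ _, h⟩
      rw [pr_mem h, pr_mem hF]
    · rw [pr_not_mem h]
  have key : ∀ y : ∀ i, G i, ∃ c : ∀ j, H j,
      hk G {z | ¬ (f z)⁻¹ * f (z * pr F y) = c} ≤ ε := by
    intro y
    apply hgap (fun z => (f z)⁻¹ * f (z * pr F y)) (hf.inv.mul (hf.comp (mp_right _).measurable))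
    intro t
    refine (measure_mono ?_).trans (hFt t (pr F y))
    intro z hz hcon
    apply hz
    rw [hprF] at hcon
    have e1 : f (x t * (z * pr F y)) = (f (x t * z) * (f z)⁻¹) * f (z * pr F y) := by
      rw [← hcon]; group
    show (f (x t * z))⁻¹ * f (x t * z * pr F y) = (f z)⁻¹ * f (z * pr F y)
    rw [mul_assoc, e1]
    group
  choose D0 hD0 using key
  -- uniqueness
  have huniq : ∀ y c, hk G {z | ¬ (f z)⁻¹ * f (z * pr F y) = c} ≤ ε → c = D0 y := by
    intro y c hc
    obtain ⟨z, h1, h2, -⟩ := exists_three (hk G) _ _ _ ε hε3 hc (hD0 y) (hD0 y)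
    rw [← h1, ← h2]
  have hmul : ∀ y y', D0 (y * y') = D0 y * D0 y' := by
    intro y y'
    symm
    have hsh : hk G {z | ¬ (f (z * pr F y))⁻¹ * f (z * pr F y * pr F y') = D0 y'} ≤ ε := by
      have h := (mp_right (pr F y)).measure_preimage (s := {z | ¬ (f z)⁻¹ * f (z * pr F y') = D0 y'})
        ((measurableSet_eq_fun (hf.inv.mul (hf.comp (mp_right _).measurable))
          measurable_const).compl.nullMeasurableSet)
      have h2 := hD0 y'
      rw [← h] at h2
      exact h2
    obtain ⟨z, h1, h2, h3⟩ := exists_three (hk G) _ _ _ ε hε3 (hD0 (y * y')) (hD0 y) hsh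
    rw [← h1, ← h2, ← h3, map_mul]
    group
  let D : (∀ i, G i) →* (∀ j, H j) := MonoidHom.mk' D0 hmul
  have hDpr : ∀ y, D0 y = D0 (pr F y) := by
    intro y
    apply huniq
    rw [pr_pr]
    exact hD0 y
  have hDmeas : Measurable D0 := by
    rw [measurable_pi_iff]
    intro j
    apply measurable_to_countable'
    intro c
    have hS : MeasurableSet {q : (∀ i, G i) × (∀ i, G i) |
        ((f q.2)⁻¹ * f (q.2 * pr F q.1)) j = c} := by
      have hm : Measurable fun q : (∀ i, G i) × (∀ i, G i) =>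
          ((f q.2)⁻¹ * f (q.2 * pr F q.1)) j :=
        (measurable_pi_apply j).comp ((hf.comp measurable_snd).inv.mul
          (hf.comp (measurable_snd.mul ((measurable_pr F).comp measurable_fst))))
      exact hm (measurableSet_singleton c)
    have hS2 := measurable_measure_prodMk_left (ν := hk G) hS
    have e : (fun y => D0 y j) ⁻¹' {c} = {y | ε < hk G (Prod.mk y ⁻¹'
        {q : (∀ i, G i) × (∀ i, G i) | ((f q.2)⁻¹ * f (q.2 * pr F q.1)) j = c})} := by
      ext y
      constructor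
      · intro hy
        have hy : D0 y j = c := hy
        show ε < _
        by_contra hcon
        push Not at hcon
        have h1 : hk G {z | ¬ ¬ ((f z)⁻¹ * f (z * pr F y)) j = c} ≤ ε := by
          simpa using hcon
        obtain ⟨z, h1, h2, -⟩ := exists_three (hk G) _ _ _ ε hε3 h1 (hD0 y) (hD0 y)
        exact h1 (by rw [h2, hy])
      · intro hy
        have hy : ε < _ := hy
        show D0 y j = c
        by_contra hcon
        apply absurd hy
        push Not
        refine (measure_mono ?_).trans (hD0 y)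
        intro z hz hz2
        have hz : ((f z)⁻¹ * f (z * pr F y)) j = c := hz
        rw [hz2] at hz
        exact hcon hz
    rw [e]
    exact measurableSet_lt measurable_const hS2
  -- Fubini
  obtain ⟨C', hC'C, hC'm, hC'⟩ : ∃ C' ⊆ C, MeasurableSet C' ∧ hk G C'ᶜ = 0 := by
    have h0 : hk G Cᶜ = 0 := hC
    obtain ⟨N, hN, hNm, hN0⟩ := exists_measurable_superset_of_null h0
    exact ⟨Nᶜ, by rwa [Set.compl_subset_comm], hNm.compl, by rwa [compl_compl]⟩
  let Bad : Set ((∀ i, G i) × (∀ i, G i)) :=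
    {q | ¬ (q.1 * pr F q.2 ∈ C' ∧ (f q.1)⁻¹ * f (q.1 * pr F q.2) = D0 q.2)}
  have hmq : Measurable fun q : (∀ i, G i) × (∀ i, G i) => q.1 * pr F q.2 :=
    measurable_fst.mul ((measurable_pr F).comp measurable_snd)
  have hBad : MeasurableSet Bad := by
    apply MeasurableSet.compl
    apply MeasurableSet.inter
    · exact hmq hC'm
    · exact measurableSet_eq_fun ((hf.comp measurable_fst).inv.mul (hf.comp hmq))
        (hDmeas.comp measurable_snd)
  have hBad1 : ∀ y, hk G {z | (z, y) ∈ Bad} ≤ ε := by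
    intro y
    have hsub : {z | (z, y) ∈ Bad} ⊆ ((fun z => z * pr F y) ⁻¹' C'ᶜ) ∪
        {z | ¬ (f z)⁻¹ * f (z * pr F y) = D0 y} := by
      intro z hz
      by_cases h : z * pr F y ∈ C'
      · right
        intro h2
        exact hz ⟨h, h2⟩
      · left; exact h
    refine (measure_mono hsub).trans ((measure_union_le _ _).trans ?_)
    rw [(mp_right (pr F y)).measure_preimage hC'm.compl.nullMeasurableSet, hC', zero_add]
    exact hD0 y
  have hFub : ((hk G).prod (hk G)) Bad ≤ ε := by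
    rw [Measure.prod_apply_symm hBad]
    calc ∫⁻ y, hk G ((fun z => (z, y)) ⁻¹' Bad) ∂(hk G) ≤ ∫⁻ y, ε ∂(hk G) :=
          lintegral_mono fun y => hBad1 y
      _ = ε := by rw [lintegral_const, measure_univ, mul_one]
  rw [Measure.prod_apply hBad] at hFub
  obtain ⟨z0, hz0⟩ := exists_le_lintegral (μ := hk G)
    (f := fun z => hk G (Prod.mk z ⁻¹' Bad)) (measurable_measure_prodMk_left hBad).aemeasurable
  refine ⟨F, D, z0, hDpr, (measure_mono ?_).trans (hz0.trans hFub)⟩
  intro y hy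
  show (z0, y) ∈ Bad
  intro hcon
  apply hy
  refine ⟨hC'C hcon.1, ?_⟩
  have := hcon.2
  show f (z0 * pr F y) = f z0 * D0 y
  rw [← this]
  group

end Pool.Agent.Helper90.CB
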