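import Mathlib
set_option autoImplicit false

namespace Pool.Agent.Helper90.CB.RT

section relT

variable {H : Type} [NormedAddCommGroup H] [InnerProductSpace ℂ H] {q : ℕ} [NeZero q]

/-- the pairing -/
def pr (c p : ZMod q × ZMod q) : ZMod q := c.1 * p.1 + c.2 * p.2

/-- the action of `(ℤ/q)²` -/
def rho (U V : H ≃ₗᵢ[ℂ] H) (c : ZMod q × ZMod q) : H ≃ₗᵢ[ℂ] H := U ^ c.1.val * V ^ c.2.val

/-- the spectral projections -/
noncomputable def RR (U V : H ≃ₗᵢ[ℂ] H) (p : ZMod q × ZMod q) (x : H) : H :=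
  ((q : ℂ) ^ 2)⁻¹ • ∑ c : ZMod q × ZMod q, (ZMod.stdAddChar (-(pr c p)) : ℂ) • rho U V c x

theorem pow_val_add {U : H ≃ₗᵢ[ℂ] H} (hU : U ^ q = 1) (a b : ZMod q) :
    U ^ (a + b).val = U ^ a.val * U ^ b.val := by
  rw [ZMod.val_add, ← pow_eq_pow_mod _ hU, pow_add]

theorem rho_add {U V : H ≃ₗᵢ[ℂ] H} (hUV : U * V = V * U) (hU : U ^ q = 1) (hV : V ^ q = 1)
    (c d : ZMod q × ZMod q) : rho U V (c + d) = rho U V c * rho U V d := by
  unfold rho
  rw [Prod.fst_add, Prod.snd_add, pow_val_add hU, pow_val_add hV]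
  have h : Commute (U ^ d.1.val) (V ^ c.2.val) := Commute.pow_pow hUV _ _
  exact h.mul_mul_mul_comm _ _

theorem norm_chr (a : ZMod q) : ‖(ZMod.stdAddChar a : ℂ)‖ = 1 := by
  rw [ZMod.stdAddChar_apply]
  exact Circle.norm_coe _

theorem RR_sub (U V : H ≃ₗᵢ[ℂ] H) (p : ZMod q × ZMod q) (x y : H) :
    RR U V p (x - y) = RR U V p x - RR U V p y := by
  unfold RR
  rw [← smul_sub, ← Finset.sum_sub_distrib]
  congr 1
  refine Finset.sum_congr rfl fun c _ => ?_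
  rw [map_sub, smul_sub]

theorem rho_RR {U V : H ≃ₗᵢ[ℂ] H} (hUV : U * V = V * U) (hU : U ^ q = 1) (hV : V ^ q = 1)
    (d p : ZMod q × ZMod q) (x : H) :
    rho U V d (RR U V p x) = (ZMod.stdAddChar (pr d p) : ℂ) • RR U V p x := by
  unfold RR
  rw [map_smul, map_sum, smul_comm]
  congr 1
  rw [Finset.smul_sum, ← Equiv.sum_comp (Equiv.addLeft d)
    (fun c => (ZMod.stdAddChar (pr d p) : ℂ) • ((ZMod.stdAddChar (-(pr c p)) : ℂ) • rho U V c x))]
  refine Finset.sum_congr rfl fun c _ => ?_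
  rw [map_smul, Equiv.coe_addLeft, smul_smul, ← AddChar.map_add_eq_mul, rho_add hUV hU hV]
  have : pr d p + -(pr (d + c) p) = -(pr c p) := by
    unfold pr
    rw [Prod.fst_add, Prod.snd_add]
    ring
  rw [this]
  rfl

theorem sum_chr (c : ZMod q × ZMod q) : ∑ p : ZMod q × ZMod q, (ZMod.stdAddChar (-(pr c p)) : ℂ) =
    if c = 0 then (q : ℂ) ^ 2 else 0 := by
  rw [Fintype.sum_prod_type]
  have h1 : ∀ s t : ZMod q, (ZMod.stdAddChar (-(pr c (s, t))) : ℂ) =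
      ZMod.stdAddChar (s * (-c.1)) * ZMod.stdAddChar (t * (-c.2)) := by
    intro s t
    rw [← AddChar.map_add_eq_mul]
    congr 1
    unfold pr
    ring
  simp only [h1]
  rw [← Finset.sum_mul_sum]
  rw [AddChar.sum_mulShift _ (ZMod.isPrimitive_stdAddChar q),
    AddChar.sum_mulShift _ (ZMod.isPrimitive_stdAddChar q)]
  simp only [neg_eq_zero, ZMod.card]
  by_cases h : c = 0
  · rw [h]
    simp
    ring
  · rw [if_neg h]
    by_cases h1 : c.1 = 0
    · have h2 : c.2 ≠ 0 := fun h2 => h (Prod.ext h1 h2)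
      simp [h2]
    · simp [h1]

theorem sum_RR (U V : H ≃ₗᵢ[ℂ] H) (x : H) : ∑ p : ZMod q × ZMod q, RR U V p x = x := by
  unfold RR
  rw [← Finset.smul_sum, Finset.sum_comm]
  have h1 : ∀ c : ZMod q × ZMod q, ∑ p : ZMod q × ZMod q,
      (ZMod.stdAddChar (-(pr c p)) : ℂ) • rho U V c x =
      if c = 0 then (q : ℂ) ^ 2 • x else 0 := by
    intro c
    rw [← Finset.sum_smul, sum_chr]
    by_cases h : c = 0
    · rw [if_pos h, if_pos h, h]
      congr 1
      simp [rho]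
    · rw [if_neg h, if_neg h, zero_smul]
  rw [Finset.sum_congr rfl fun c _ => h1 c, Finset.sum_ite_eq', if_pos (Finset.mem_univ _),
    smul_smul, inv_mul_cancel₀, one_smul]
  exact pow_ne_zero _ (Nat.cast_ne_zero.mpr (NeZero.ne q))

theorem RR_orth {U V : H ≃ₗᵢ[ℂ] H} (hUV : U * V = V * U) (hU : U ^ q = 1) (hV : V ^ q = 1)
    {p p' : ZMod q × ZMod q} (hp : p ≠ p') (x y : H) :
    inner ℂ (RR U V p x) (RR U V p' y) = 0 := by
  obtain ⟨d, hd⟩ : ∃ d : ZMod q × ZMod q, pr d p ≠ pr d p' := by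
    by_contra hcon
    push Not at hcon
    apply hp
    have h1 := hcon (1, 0)
    have h2 := hcon (0, 1)
    simp [pr] at h1 h2
    exact Prod.ext h1 h2
  have h1 := (rho U V d).inner_map_map (RR U V p x) (RR U V p' y)
  rw [rho_RR hUV hU hV, rho_RR hUV hU hV, inner_smul_left, inner_smul_right, ← mul_assoc] at h1
  by_contra h0
  have h2 : (starRingEnd ℂ) (ZMod.stdAddChar (pr d p)) * (ZMod.stdAddChar (pr d p') : ℂ) = 1 := by
    apply mul_right_cancel₀ h0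
    rw [h1, one_mul]
  apply hd
  apply ZMod.injective_stdAddChar
  have h3 : (ZMod.stdAddChar (pr d p) : ℂ) * (starRingEnd ℂ) (ZMod.stdAddChar (pr d p)) = 1 := by
    rw [Complex.mul_conj, Complex.normSq_eq_norm_sq, norm_chr]
    simp
  calc (ZMod.stdAddChar (pr d p) : ℂ) = ZMod.stdAddChar (pr d p) *
        ((starRingEnd ℂ) (ZMod.stdAddChar (pr d p)) * (ZMod.stdAddChar (pr d p') : ℂ)) := by
          rw [h2, mul_one]
    _ = _ := by rw [← mul_assoc, h3, one_mul]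

theorem norm_sum_RR {U V : H ≃ₗᵢ[ℂ] H} (hUV : U * V = V * U) (hU : U ^ q = 1) (hV : V ^ q = 1)
    (D : Finset (ZMod q × ZMod q)) (c : ZMod q × ZMod q → ℂ) (x : H) :
    ‖∑ p ∈ D, c p • RR U V p x‖ ^ 2 = ∑ p ∈ D, ‖c p‖ ^ 2 * ‖RR U V p x‖ ^ 2 := by
  classical
  induction D using Finset.induction_on with
  | empty => simp
  | insert p D hp ih =>
    rw [Finset.sum_insert hp, Finset.sum_insert hp, ← ih, @norm_add_sq ℂ, norm_smul, mul_pow]
    have : inner ℂ (c p • RR U V p x) (∑ p ∈ D, c p • RR U V p x) = 0 := by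
      rw [inner_sum]
      refine Finset.sum_eq_zero fun p' hp' => ?_
      rw [inner_smul_left, inner_smul_right, RR_orth hUV hU hV (fun h => hp (by rw [h]; exact hp')), mul_zero,
        mul_zero]
    rw [this]
    simp

theorem norm_sum_RR' {U V : H ≃ₗᵢ[ℂ] H} (hUV : U * V = V * U) (hU : U ^ q = 1) (hV : V ^ q = 1)
    (D : Finset (ZMod q × ZMod q)) (x : H) :
    ‖∑ p ∈ D, RR U V p x‖ ^ 2 = ∑ p ∈ D, ‖RR U V p x‖ ^ 2 := by
  have := norm_sum_RR hUV hU hV D (fun _ => 1) x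
  simpa using this

theorem RR_X {U V X : H ≃ₗᵢ[ℂ] H} (hUV : U * V = V * U) (hU : U ^ q = 1)
    (hXU : X * U = U * X) (hXV : X * V = U * V * X) (p : ZMod q × ZMod q) (x : H) :
    RR U V p (X x) = X (RR U V (p.1, p.1 + p.2) x) := by
  have hXk : ∀ k : ℕ, X * V ^ k = U ^ k * V ^ k * X := by
    intro k
    induction k with
    | zero => simp
    | succ k ih =>
      have hc : Commute U V := hUV
      calc X * V ^ (k + 1) = X * V ^ k * V := by rw [pow_succ, mul_assoc]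
        _ = U ^ k * V ^ k * (X * V) := by rw [ih, mul_assoc]
        _ = U ^ k * (V ^ k * U) * V * X := by rw [hXV]; simp only [mul_assoc]
        _ = U ^ k * (U * V ^ k) * V * X := by rw [(hc.symm.pow_left k).eq]
        _ = _ := by simp only [pow_succ, mul_assoc]
  have hXUk : ∀ k : ℕ, X * U ^ k = U ^ k * X := fun k =>
    ((show Commute X U from hXU).pow_right k).eq
  have hX : ∀ a b : ZMod q, rho U V (a + b, b) * X = X * rho U V (a, b) := by
    intro a b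
    unfold rho
    show U ^ (a + b).val * V ^ b.val * X = X * (U ^ a.val * V ^ b.val)
    symm
    calc X * (U ^ a.val * V ^ b.val) = (X * U ^ a.val) * V ^ b.val := by rw [mul_assoc]
      _ = U ^ a.val * (X * V ^ b.val) := by rw [hXUk, mul_assoc]
      _ = U ^ a.val * (U ^ b.val * V ^ b.val * X) := by rw [hXk]
      _ = _ := by
        rw [pow_val_add hU]
        simp only [mul_assoc]
  let e : (ZMod q × ZMod q) ≃ (ZMod q × ZMod q) :=
    { toFun := fun c => (c.1 + c.2, c.2), invFun := fun c => (c.1 - c.2, c.2),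
      left_inv := fun c => by simp, right_inv := fun c => by simp }
  unfold RR
  rw [map_smul, map_sum]
  congr 1
  rw [← Equiv.sum_comp e]
  refine Finset.sum_congr rfl fun c _ => ?_
  rw [map_smul]
  have h1 : pr (e c) p = pr c (p.1, p.1 + p.2) := by
    show (c.1 + c.2) * p.1 + c.2 * p.2 = c.1 * p.1 + c.2 * (p.1 + p.2)
    ring
  rw [h1]
  congr 1
  have h2 := hX c.1 c.2
  exact congrArg (fun T : H ≃ₗᵢ[ℂ] H => T x) h2

theorem RR_Y {U V Y : H ≃ₗᵢ[ℂ] H} (hUV : U * V = V * U) (hV : V ^ q = 1)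
    (hYV : Y * V = V * Y) (hYU : Y * U = V * U * Y) (p : ZMod q × ZMod q) (x : H) :
    RR U V p (Y x) = Y (RR U V (p.1 + p.2, p.2) x) := by
  have hYk : ∀ k : ℕ, Y * U ^ k = U ^ k * V ^ k * Y := by
    intro k
    induction k with
    | zero => simp
    | succ k ih =>
      have hc : Commute U V := hUV
      calc Y * U ^ (k + 1) = Y * U ^ k * U := by rw [pow_succ, mul_assoc]
        _ = U ^ k * V ^ k * (Y * U) := by rw [ih, mul_assoc]
        _ = U ^ k * (V ^ k * V * U) * Y := by rw [hYU]; simp only [mul_assoc]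
        _ = U ^ k * (V ^ (k + 1) * U) * Y := by rw [pow_succ]
        _ = U ^ k * (U * V ^ (k + 1)) * Y := by rw [(hc.symm.pow_left (k + 1)).eq]
        _ = _ := by simp only [pow_succ, mul_assoc]
  have hYVk : ∀ k : ℕ, Y * V ^ k = V ^ k * Y := fun k =>
    ((show Commute Y V from hYV).pow_right k).eq
  have hY : ∀ a b : ZMod q, rho U V (a, a + b) * Y = Y * rho U V (a, b) := by
    intro a b
    unfold rho
    show U ^ a.val * V ^ (a + b).val * Y = Y * (U ^ a.val * V ^ b.val)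
    rw [← mul_assoc, hYk, mul_assoc (U ^ a.val * V ^ a.val), hYVk, pow_val_add hV]
    simp only [mul_assoc]
  let e : (ZMod q × ZMod q) ≃ (ZMod q × ZMod q) :=
    { toFun := fun c => (c.1, c.1 + c.2), invFun := fun c => (c.1, c.2 - c.1),
      left_inv := fun c => by simp, right_inv := fun c => by simp }
  unfold RR
  rw [map_smul, map_sum]
  congr 1
  rw [← Equiv.sum_comp e]
  refine Finset.sum_congr rfl fun c _ => ?_
  rw [map_smul]
  have h1 : pr (e c) p = pr c (p.1 + p.2, p.2) := by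
    show c.1 * p.1 + (c.1 + c.2) * p.2 = c.1 * (p.1 + p.2) + c.2 * p.2
    ring
  rw [h1]
  congr 1
  have h2 := hY c.1 c.2
  exact congrArg (fun T : H ≃ₗᵢ[ℂ] H => T x) h2

theorem rho_cast {U V : H ≃ₗᵢ[ℂ] H} (hU : U ^ q = 1) (hV : V ^ q = 1) (m n : ℕ) :
    rho U V ((m : ZMod q), (n : ZMod q)) = U ^ m * V ^ n := by
  unfold rho
  show U ^ (m : ZMod q).val * V ^ (n : ZMod q).val = _
  rw [ZMod.val_natCast, ZMod.val_natCast, ← pow_eq_pow_mod _ hU, ← pow_eq_pow_mod _ hV]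

theorem U_RR {U V : H ≃ₗᵢ[ℂ] H} (hUV : U * V = V * U) (hU : U ^ q = 1) (hV : V ^ q = 1)
    (p : ZMod q × ZMod q) (x : H) :
    (ZMod.stdAddChar p.1 : ℂ) • RR U V p x = U (RR U V p x) := by
  have h1 := rho_RR hUV hU hV (((1 : ℕ) : ZMod q), ((0 : ℕ) : ZMod q)) p x
  rw [rho_cast hU hV, pow_one, pow_zero, mul_one] at h1
  rw [h1]
  congr 2
  simp [pr]

theorem V_RR {U V : H ≃ₗᵢ[ℂ] H} (hUV : U * V = V * U) (hU : U ^ q = 1) (hV : V ^ q = 1)
    (p : ZMod q × ZMod q) (x : H) :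
    (ZMod.stdAddChar p.2 : ℂ) • RR U V p x = V (RR U V p x) := by
  have h1 := rho_RR hUV hU hV (((0 : ℕ) : ZMod q), ((1 : ℕ) : ZMod q)) p x
  rw [rho_cast hU hV, pow_one, pow_zero, one_mul] at h1
  rw [h1]
  congr 2
  simp [pr]

theorem fix_RR {U V : H ≃ₗᵢ[ℂ] H} (hUV : U * V = V * U) (hU : U ^ q = 1) (hV : V ^ q = 1)
    (m n : ℕ) (x : H) :
    (U ^ m * V ^ n) (RR U V (0 : ZMod q × ZMod q) x) = RR U V (0 : ZMod q × ZMod q) x := by
  rw [← rho_cast (q := q) hU hV, rho_RR hUV hU hV]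
  simp [pr]

/-- combinatorial ping-pong for a measure on `(ℤ/q)²` -/
theorem ping {G : Type} [DecidableEq G] (m : G → ℝ) (hm : ∀ p, 0 ≤ m p) (D Q : Finset G)
    (f g : G → G) (hf : Function.Injective f) (hg : Function.Injective g)
    (hfQ : ∀ p ∈ D, f p ∈ Q) (hgQ : ∀ p ∈ D, g p ∈ Q)
    (hfg : ∀ p ∈ D, ∀ p' ∈ D, f p ≠ g p') :
    ∑ p ∈ D, m (f p) + ∑ p ∈ D, m (g p) ≤ ∑ p ∈ Q, m p := by
  rw [← Finset.sum_image (f := m) (g := f) (fun a _ b _ h => hf h),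
    ← Finset.sum_image (f := m) (g := g) (fun a _ b _ h => hg h), ← Finset.sum_union]
  · refine Finset.sum_le_sum_of_subset_of_nonneg ?_ (fun p _ _ => hm p)
    intro x hx
    rw [Finset.mem_union, Finset.mem_image, Finset.mem_image] at hx
    rcases hx with ⟨p, hp, rfl⟩ | ⟨p, hp, rfl⟩
    · exact hfQ p hp
    · exact hgQ p hp
  · rw [Finset.disjoint_left]
    intro x hx hx'
    rw [Finset.mem_image] at hx hx'
    obtain ⟨p, hp, rfl⟩ := hx
    obtain ⟨p', hp', h⟩ := hx'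
    exact hfg p hp p' hp' h.symm

theorem val_add_small {s t : ZMod q} (hs : 4 * |s.valMinAbs| < q) (ht : 4 * |t.valMinAbs| < q) :
    (s + t).valMinAbs = s.valMinAbs + t.valMinAbs := by
  rw [ZMod.valMinAbs_spec]
  constructor
  · simp
  · rw [Set.mem_Ioc]
    rcases abs_cases s.valMinAbs with ⟨e1, e3⟩ | ⟨e1, e3⟩ <;>
      rcases abs_cases t.valMinAbs with ⟨e2, e4⟩ | ⟨e2, e4⟩ <;> omega

theorem val_sub_small {s t : ZMod q} (hs : 4 * |s.valMinAbs| < q) (ht : 4 * |t.valMinAbs| < q) :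
    (s - t).valMinAbs = s.valMinAbs - t.valMinAbs := by
  rw [ZMod.valMinAbs_spec]
  constructor
  · simp
  · rw [Set.mem_Ioc]
    rcases abs_cases s.valMinAbs with ⟨e1, e3⟩ | ⟨e1, e3⟩ <;>
      rcases abs_cases t.valMinAbs with ⟨e2, e4⟩ | ⟨e2, e4⟩ <;> omega

/-- the value of the character far from `1` -/
theorem chr_far {s : ZMod q} (hs : (q : ℤ) ≤ 4 * |s.valMinAbs|) :
    2 ≤ ‖(ZMod.stdAddChar s : ℂ) - 1‖ ^ 2 := by
  have hq : (0 : ℝ) < q := Nat.cast_pos.mpr (NeZero.pos q)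
  have h1 : (ZMod.stdAddChar s : ℂ) =
      Complex.exp (((2 * Real.pi * s.valMinAbs / q : ℝ) : ℂ) * Complex.I) := by
    conv_lhs => rw [← ZMod.coe_valMinAbs s]
    rw [ZMod.stdAddChar_coe]
    congr 1
    push_cast
    ring
  rw [h1, Complex.exp_mul_I, ← Complex.ofReal_cos, ← Complex.ofReal_sin,
    ← Complex.normSq_eq_norm_sq, Complex.normSq_apply]
  simp only [Complex.sub_re, Complex.add_re, Complex.ofReal_re, Complex.mul_re, Complex.I_re,
    mul_zero, Complex.ofReal_im, Complex.I_im, mul_one, sub_self, add_zero, Complex.one_re,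
    Complex.sub_im, Complex.add_im, Complex.mul_im, Complex.one_im, zero_add, sub_zero]
  set θ := 2 * Real.pi * s.valMinAbs / q with hθ
  have hcos : Real.cos θ ≤ 0 := by
    rw [← Real.cos_abs]
    have habs : |θ| = 2 * Real.pi * (|s.valMinAbs| : ℤ) / q := by
      rw [hθ, abs_div, abs_mul, abs_of_pos (by positivity : (0 : ℝ) < 2 * Real.pi),
        abs_of_pos hq, Int.cast_abs]
    have h2 : (q : ℝ) ≤ 4 * ((|s.valMinAbs| : ℤ) : ℝ) := by exact_mod_cast hs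
    have h3 := ZMod.natAbs_valMinAbs_le s
    have h4 : 2 * ((|s.valMinAbs| : ℤ) : ℝ) ≤ q := by
      have : 2 * |s.valMinAbs| ≤ (q : ℤ) := by
        rw [Int.abs_eq_natAbs]
        omega
      exact_mod_cast this
    apply Real.cos_nonpos_of_pi_div_two_le_of_le
    · rw [habs, le_div_iff₀ hq]
      nlinarith [Real.pi_pos]
    · rw [habs, div_le_iff₀ hq]
      nlinarith [Real.pi_pos]
  nlinarith [Real.sin_sq_add_cos_sq θ]

end relT

/-- Relative property (T) for `ℤ² ⊂ SL₂(ℤ) ⋉ ℤ²` in representations where `ℤ²` acts through a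
finite quotient: a vector almost fixed by the generators `X, Y, U, V` is almost fixed by the whole
group generated by `U, V`. -/
theorem rel_T {H : Type} [NormedAddCommGroup H] [InnerProductSpace ℂ H] (q : ℕ) (hq : 0 < q)
    (U V X Y : H ≃ₗᵢ[ℂ] H) (hUV : U * V = V * U) (hUq : U ^ q = 1) (hVq : V ^ q = 1)
    (hXU : X * U = U * X) (hXV : X * V = U * V * X)
    (hYV : Y * V = V * Y) (hYU : Y * U = V * U * Y)
    (v : H) (hv : ‖v‖ ≤ 1) (η : ℝ) (hη0 : 0 ≤ η) (hη1 : η ≤ 1)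
    (h1 : ‖X v - v‖ ≤ η) (h2 : ‖Y v - v‖ ≤ η) (h3 : ‖U v - v‖ ≤ η) (h4 : ‖V v - v‖ ≤ η)
    (m n : ℕ) : ‖(U ^ m * V ^ n) v - v‖ ^ 2 ≤ 100 * η := by
  have : NeZero q := ⟨hq.ne'⟩
  classical
  set M : ZMod q × ZMod q → ℝ := fun p => ‖RR U V p v‖ ^ 2 with hM
  have hM0 : ∀ p, 0 ≤ M p := fun p => sq_nonneg _
  have htot : ∀ x : H, ∀ D : Finset (ZMod q × ZMod q), ‖∑ p ∈ D, RR U V p x‖ ≤ ‖x‖ := by
    intro x D
    have e1 := norm_sum_RR' hUV hUq hVq D x
    have e2 := norm_sum_RR' hUV hUq hVq Finset.univ x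
    rw [sum_RR] at e2
    have e3 : ∑ p ∈ D, ‖RR U V p x‖ ^ 2 ≤ ∑ p, ‖RR U V p x‖ ^ 2 :=
      Finset.sum_le_sum_of_subset_of_nonneg (Finset.subset_univ _) (fun _ _ _ => sq_nonneg _)
    rw [← e1, ← e2] at e3
    exact (pow_le_pow_iff_left₀ (norm_nonneg _) (norm_nonneg _) two_ne_zero).mp e3
  -- comparison of the masses
  have hcmp : ∀ (T : H ≃ₗᵢ[ℂ] H), ‖T v - v‖ ≤ η → ∀ D : Finset (ZMod q × ZMod q),
      |∑ p ∈ D, ‖RR U V p (T v)‖ ^ 2 - ∑ p ∈ D, M p| ≤ 2 * η := by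
    intro T hT D
    rw [← norm_sum_RR' hUV hUq hVq D (T v), hM, ← norm_sum_RR' hUV hUq hVq D v]
    have e1 : ‖∑ p ∈ D, RR U V p (T v)‖ ≤ 1 := by
      refine (htot _ D).trans ?_
      rw [T.norm_map]
      exact hv
    have e2 : ‖∑ p ∈ D, RR U V p v‖ ≤ 1 := (htot _ D).trans hv
    have e3 : |‖∑ p ∈ D, RR U V p (T v)‖ - ‖∑ p ∈ D, RR U V p v‖| ≤ η := by
      refine (abs_norm_sub_norm_le _ _).trans ?_
      rw [← Finset.sum_sub_distrib]
      simp only [← RR_sub]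
      exact (htot _ D).trans hT
    have e4 : ‖∑ p ∈ D, RR U V p (T v)‖ ^ 2 - ‖∑ p ∈ D, RR U V p v‖ ^ 2 =
        (‖∑ p ∈ D, RR U V p (T v)‖ - ‖∑ p ∈ D, RR U V p v‖) *
          (‖∑ p ∈ D, RR U V p (T v)‖ + ‖∑ p ∈ D, RR U V p v‖) := by ring
    rw [e4, abs_mul]
    have e5 : |‖∑ p ∈ D, RR U V p (T v)‖ + ‖∑ p ∈ D, RR U V p v‖| ≤ 2 := by
      rw [abs_of_nonneg (by positivity)]
      linarith
    calc _ ≤ η * 2 := mul_le_mul e3 e5 (abs_nonneg _) hη0
      _ = _ := by ring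
  have hα : ∀ D : Finset (ZMod q × ZMod q),
      |∑ p ∈ D, M (p.1, p.1 + p.2) - ∑ p ∈ D, M p| ≤ 2 * η := by
    intro D
    have := hcmp X h1 D
    simp only [RR_X hUV hUq hXU hXV, X.norm_map] at this
    exact this
  have hβ : ∀ D : Finset (ZMod q × ZMod q),
      |∑ p ∈ D, M (p.1 + p.2, p.2) - ∑ p ∈ D, M p| ≤ 2 * η := by
    intro D
    have := hcmp Y h2 D
    simp only [RR_Y hUV hVq hYV hYU, Y.norm_map] at this
    exact this
  have iα : Function.Injective (fun p : ZMod q × ZMod q => (p.1, p.1 + p.2)) := by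
    rintro ⟨a, b⟩ ⟨c, d⟩ h
    simp only [Prod.mk.injEq] at h ⊢
    obtain ⟨rfl, h⟩ := h
    exact ⟨rfl, add_left_cancel h⟩
  have iβ : Function.Injective (fun p : ZMod q × ZMod q => (p.1 + p.2, p.2)) := by
    rintro ⟨a, b⟩ ⟨c, d⟩ h
    simp only [Prod.mk.injEq] at h ⊢
    obtain ⟨h, rfl⟩ := h
    exact ⟨add_right_cancel h, rfl⟩
  have iα' : Function.Injective (fun p : ZMod q × ZMod q => (p.1, p.2 - p.1)) := by
    rintro ⟨a, b⟩ ⟨c, d⟩ h
    simp only [Prod.mk.injEq] at h ⊢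
    obtain ⟨rfl, h⟩ := h
    exact ⟨rfl, sub_left_injective h⟩
  have iβ' : Function.Injective (fun p : ZMod q × ZMod q => (p.1 - p.2, p.2)) := by
    rintro ⟨a, b⟩ ⟨c, d⟩ h
    simp only [Prod.mk.injEq] at h ⊢
    obtain ⟨h, rfl⟩ := h
    exact ⟨sub_left_injective h, rfl⟩
  have hα' : ∀ D : Finset (ZMod q × ZMod q),
      |∑ p ∈ D, M p - ∑ p ∈ D, M (p.1, p.2 - p.1)| ≤ 2 * η := by
    intro D
    have := hα (D.image (fun p : ZMod q × ZMod q => (p.1, p.2 - p.1)))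
    rw [Finset.sum_image (fun a _ b _ h => iα' h), Finset.sum_image (fun a _ b _ h => iα' h)]
      at this
    simpa using this
  have hβ' : ∀ D : Finset (ZMod q × ZMod q),
      |∑ p ∈ D, M p - ∑ p ∈ D, M (p.1 - p.2, p.2)| ≤ 2 * η := by
    intro D
    have := hβ (D.image (fun p : ZMod q × ZMod q => (p.1 - p.2, p.2)))
    rw [Finset.sum_image (fun a _ b _ h => iβ' h), Finset.sum_image (fun a _ b _ h => iβ' h)]
      at this
    simpa using this
  -- mass far away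
  have hfarU : ∑ p ∈ Finset.univ.filter (fun p : ZMod q × ZMod q => (q : ℤ) ≤ 4 * |p.1.valMinAbs|),
      M p ≤ η ^ 2 / 2 := by
    have e1 : U v - v = ∑ p : ZMod q × ZMod q,
        ((ZMod.stdAddChar p.1 : ℂ) - 1) • RR U V p v := by
      have e2 : ∀ p : ZMod q × ZMod q, ((ZMod.stdAddChar p.1 : ℂ) - 1) • RR U V p v =
          U (RR U V p v) - RR U V p v := by
        intro p
        rw [sub_smul, one_smul]
        congr 1
        exact U_RR hUV hUq hVq p v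
      simp only [e2]
      rw [Finset.sum_sub_distrib, ← map_sum, sum_RR]
    have e3 := norm_sum_RR hUV hUq hVq Finset.univ (fun p => (ZMod.stdAddChar p.1 : ℂ) - 1) v
    rw [← e1] at e3
    have e4 : ‖U v - v‖ ^ 2 ≤ η ^ 2 := pow_le_pow_left₀ (norm_nonneg _) h3 2
    have e5 : 2 * ∑ p ∈ Finset.univ.filter
        (fun p : ZMod q × ZMod q => (q : ℤ) ≤ 4 * |p.1.valMinAbs|), M p ≤
        ∑ p : ZMod q × ZMod q, ‖(ZMod.stdAddChar p.1 : ℂ) - 1‖ ^ 2 * M p := by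
      rw [Finset.mul_sum]
      refine (Finset.sum_le_sum fun p hp => ?_).trans
        (Finset.sum_le_sum_of_subset_of_nonneg (Finset.subset_univ _)
          (fun p _ _ => mul_nonneg (sq_nonneg _) (hM0 p)))
      exact mul_le_mul_of_nonneg_right (chr_far (Finset.mem_filter.mp hp).2) (hM0 p)
    rw [e3] at e4
    linarith
  have hfarV : ∑ p ∈ Finset.univ.filter (fun p : ZMod q × ZMod q => (q : ℤ) ≤ 4 * |p.2.valMinAbs|),
      M p ≤ η ^ 2 / 2 := by
    have e1 : V v - v = ∑ p : ZMod q × ZMod q,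
        ((ZMod.stdAddChar p.2 : ℂ) - 1) • RR U V p v := by
      have e2 : ∀ p : ZMod q × ZMod q, ((ZMod.stdAddChar p.2 : ℂ) - 1) • RR U V p v =
          V (RR U V p v) - RR U V p v := by
        intro p
        rw [sub_smul, one_smul]
        congr 1
        exact V_RR hUV hUq hVq p v
      simp only [e2]
      rw [Finset.sum_sub_distrib, ← map_sum, sum_RR]
    have e3 := norm_sum_RR hUV hUq hVq Finset.univ (fun p => (ZMod.stdAddChar p.2 : ℂ) - 1) v
    rw [← e1] at e3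
    have e4 : ‖V v - v‖ ^ 2 ≤ η ^ 2 := pow_le_pow_left₀ (norm_nonneg _) h4 2
    have e5 : 2 * ∑ p ∈ Finset.univ.filter
        (fun p : ZMod q × ZMod q => (q : ℤ) ≤ 4 * |p.2.valMinAbs|), M p ≤
        ∑ p : ZMod q × ZMod q, ‖(ZMod.stdAddChar p.2 : ℂ) - 1‖ ^ 2 * M p := by
      rw [Finset.mul_sum]
      refine (Finset.sum_le_sum fun p hp => ?_).trans
        (Finset.sum_le_sum_of_subset_of_nonneg (Finset.subset_univ _)
          (fun p _ _ => mul_nonneg (sq_nonneg _) (hM0 p)))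
      exact mul_le_mul_of_nonneg_right (chr_far (Finset.mem_filter.mp hp).2) (hM0 p)
    rw [e3] at e4
    linarith
  -- the sets
  set F1 := Finset.univ.filter (fun p : ZMod q × ZMod q => (q : ℤ) ≤ 4 * |p.1.valMinAbs|) with hF1
  set F2 := Finset.univ.filter (fun p : ZMod q × ZMod q => (q : ℤ) ≤ 4 * |p.2.valMinAbs|) with hF2
  have hη2 : η ^ 2 ≤ η := by nlinarith
  have hF12 : ∑ p ∈ F1 ∪ F2, M p ≤ η ^ 2 := by
    have e1 : ∑ p ∈ F1 ∪ F2, M p ≤ ∑ p ∈ F1, M p + ∑ p ∈ F2, M p := by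
      rw [← Finset.sum_union_inter]
      have : 0 ≤ ∑ p ∈ F1 ∩ F2, M p := Finset.sum_nonneg fun p _ => hM0 p
      linarith
    linarith
  -- ping-pong
  have hpp : ∀ Q : Finset (ZMod q × ZMod q), ∀ f g : ZMod q × ZMod q → ZMod q × ZMod q,
      Function.Injective f → Function.Injective g →
      (∀ D : Finset (ZMod q × ZMod q), ∑ p ∈ D, M p - 2 * η ≤ ∑ p ∈ D, M (f p)) →
      (∀ D : Finset (ZMod q × ZMod q), ∑ p ∈ D, M p - 2 * η ≤ ∑ p ∈ D, M (g p)) →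
      (∀ p ∈ Q \ (F1 ∪ F2), f p ∈ Q) → (∀ p ∈ Q \ (F1 ∪ F2), g p ∈ Q) →
      (∀ p ∈ Q \ (F1 ∪ F2), ∀ p' ∈ Q \ (F1 ∪ F2), f p ≠ g p') →
      ∑ p ∈ Q \ (F1 ∪ F2), M p ≤ 5 * η := by
    intro Q f g hf hg hfm hgm hfQ hgQ hfg
    have e1 := ping M hM0 (Q \ (F1 ∪ F2)) Q f g hf hg hfQ hgQ hfg
    have e2 := hfm (Q \ (F1 ∪ F2))
    have e3 := hgm (Q \ (F1 ∪ F2))
    have e4 : ∑ p ∈ Q, M p ≤ ∑ p ∈ Q \ (F1 ∪ F2), M p + ∑ p ∈ F1 ∪ F2, M p := by
      have e5 : Q ⊆ (Q \ (F1 ∪ F2)) ∪ (F1 ∪ F2) := by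
        intro p hp
        by_cases h : p ∈ F1 ∪ F2
        · exact Finset.mem_union_right _ h
        · exact Finset.mem_union_left _ (Finset.mem_sdiff.mpr ⟨hp, h⟩)
      refine (Finset.sum_le_sum_of_subset_of_nonneg e5 (fun p _ _ => hM0 p)).trans ?_
      rw [Finset.sum_union Finset.sdiff_disjoint]
    linarith
  have hsmall : ∀ Q : Finset (ZMod q × ZMod q), ∀ p ∈ Q \ (F1 ∪ F2),
      p ∈ Q ∧ 4 * |p.1.valMinAbs| < q ∧ 4 * |p.2.valMinAbs| < q := by
    intro Q p hp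
    rw [Finset.mem_sdiff, Finset.mem_union, hF1, hF2, Finset.mem_filter, Finset.mem_filter] at hp
    refine ⟨hp.1, ?_, ?_⟩
    · by_contra h
      exact hp.2 (Or.inl ⟨Finset.mem_univ _, not_lt.mp h⟩)
    · by_contra h
      exact hp.2 (Or.inr ⟨Finset.mem_univ _, not_lt.mp h⟩)
  set Q1 := Finset.univ.filter (fun p : ZMod q × ZMod q =>
    (0 < p.1.valMinAbs ∧ 0 ≤ p.2.valMinAbs) ∨ (p.1.valMinAbs < 0 ∧ p.2.valMinAbs ≤ 0)) with hQ1
  set Q2 := Finset.univ.filter (fun p : ZMod q × ZMod q =>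
    (0 ≤ p.1.valMinAbs ∧ p.2.valMinAbs < 0) ∨ (p.1.valMinAbs ≤ 0 ∧ 0 < p.2.valMinAbs)) with hQ2
  have m1 : ∀ p, p ∈ Q1 ↔ ((0 < p.1.valMinAbs ∧ 0 ≤ p.2.valMinAbs) ∨
      (p.1.valMinAbs < 0 ∧ p.2.valMinAbs ≤ 0)) := by
    intro p
    rw [hQ1, Finset.mem_filter]
    simp
  have m2 : ∀ p, p ∈ Q2 ↔ ((0 ≤ p.1.valMinAbs ∧ p.2.valMinAbs < 0) ∨
      (p.1.valMinAbs ≤ 0 ∧ 0 < p.2.valMinAbs)) := by
    intro p
    rw [hQ2, Finset.mem_filter]
    simp
  have hb1 : ∑ p ∈ Q1 \ (F1 ∪ F2), M p ≤ 5 * η := by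
    refine hpp Q1 (fun p => (p.1, p.1 + p.2)) (fun p => (p.1 + p.2, p.2)) iα iβ ?_ ?_ ?_ ?_ ?_
    · intro D
      have := (abs_le.mp (hα D)).1
      linarith
    · intro D
      have := (abs_le.mp (hβ D)).1
      linarith
    · intro p hp
      obtain ⟨h1, h2, h3⟩ := hsmall Q1 p hp
      rw [m1] at h1 ⊢
      show (0 < p.1.valMinAbs ∧ 0 ≤ (p.1 + p.2).valMinAbs) ∨
        (p.1.valMinAbs < 0 ∧ (p.1 + p.2).valMinAbs ≤ 0)
      rw [val_add_small h2 h3]
      omega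
    · intro p hp
      obtain ⟨h1, h2, h3⟩ := hsmall Q1 p hp
      rw [m1] at h1 ⊢
      show (0 < (p.1 + p.2).valMinAbs ∧ 0 ≤ p.2.valMinAbs) ∨
        ((p.1 + p.2).valMinAbs < 0 ∧ p.2.valMinAbs ≤ 0)
      rw [val_add_small h2 h3]
      omega
    · intro p hp p' hp' heq
      obtain ⟨h1, h2, h3⟩ := hsmall Q1 p hp
      obtain ⟨h1', h2', h3'⟩ := hsmall Q1 p' hp'
      rw [m1] at h1 h1'
      have e1 : p.1 = p'.1 + p'.2 := congrArg Prod.fst heq
      have e2 : p.1 + p.2 = p'.2 := congrArg Prod.snd heq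
      have e3 := congrArg ZMod.valMinAbs e1
      have e4 := congrArg ZMod.valMinAbs e2
      rw [val_add_small h2' h3'] at e3
      rw [val_add_small h2 h3] at e4
      omega
  have hb2 : ∑ p ∈ Q2 \ (F1 ∪ F2), M p ≤ 5 * η := by
    refine hpp Q2 (fun p => (p.1, p.2 - p.1)) (fun p => (p.1 - p.2, p.2)) iα' iβ' ?_ ?_ ?_ ?_ ?_
    · intro D
      have := (abs_le.mp (hα' D)).2
      linarith
    · intro D
      have := (abs_le.mp (hβ' D)).2
      linarith
    · intro p hp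
      obtain ⟨h1, h2, h3⟩ := hsmall Q2 p hp
      rw [m2] at h1 ⊢
      show (0 ≤ p.1.valMinAbs ∧ (p.2 - p.1).valMinAbs < 0) ∨
        (p.1.valMinAbs ≤ 0 ∧ 0 < (p.2 - p.1).valMinAbs)
      rw [val_sub_small h3 h2]
      omega
    · intro p hp
      obtain ⟨h1, h2, h3⟩ := hsmall Q2 p hp
      rw [m2] at h1 ⊢
      show (0 ≤ (p.1 - p.2).valMinAbs ∧ p.2.valMinAbs < 0) ∨
        ((p.1 - p.2).valMinAbs ≤ 0 ∧ 0 < p.2.valMinAbs)
      rw [val_sub_small h2 h3]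
      omega
    · intro p hp p' hp' heq
      obtain ⟨h1, h2, h3⟩ := hsmall Q2 p hp
      obtain ⟨h1', h2', h3'⟩ := hsmall Q2 p' hp'
      rw [m2] at h1 h1'
      have e1 : p.1 = p'.1 - p'.2 := congrArg Prod.fst heq
      have e2 : p.2 - p.1 = p'.2 := congrArg Prod.snd heq
      have e3 := congrArg ZMod.valMinAbs e1
      have e4 := congrArg ZMod.valMinAbs e2
      rw [val_sub_small h2' h3'] at e3
      rw [val_sub_small h3 h2] at e4
      omega
  have hnz : ∑ p ∈ Finset.univ.erase (0 : ZMod q × ZMod q), M p ≤ 11 * η := by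
    have e1 : Finset.univ.erase (0 : ZMod q × ZMod q) ⊆
        ((Q1 \ (F1 ∪ F2)) ∪ (Q2 \ (F1 ∪ F2))) ∪ (F1 ∪ F2) := by
      intro p hp
      have hp0 : p ≠ 0 := Finset.ne_of_mem_erase hp
      by_cases h : p ∈ F1 ∪ F2
      · exact Finset.mem_union_right _ h
      · apply Finset.mem_union_left
        have h5 : ¬ (p.1.valMinAbs = 0 ∧ p.2.valMinAbs = 0) := by
          rintro ⟨h6, h7⟩
          rw [ZMod.valMinAbs_eq_zero] at h6 h7
          exact hp0 (Prod.ext h6 h7)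
        by_cases h8 : p ∈ Q1
        · exact Finset.mem_union_left _ (Finset.mem_sdiff.mpr ⟨h8, h⟩)
        · refine Finset.mem_union_right _ (Finset.mem_sdiff.mpr ⟨?_, h⟩)
          rw [m1] at h8
          rw [m2]
          omega
    have e2 : ∀ A B : Finset (ZMod q × ZMod q), ∑ p ∈ A ∪ B, M p ≤ ∑ p ∈ A, M p + ∑ p ∈ B, M p := by
      intro A B
      rw [← Finset.sum_union_inter]
      have : 0 ≤ ∑ p ∈ A ∩ B, M p := Finset.sum_nonneg fun p _ => hM0 p
      linarith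
    have e3 := Finset.sum_le_sum_of_subset_of_nonneg e1 (fun p _ _ => hM0 p)
    have e4 := e2 ((Q1 \ (F1 ∪ F2)) ∪ (Q2 \ (F1 ∪ F2))) (F1 ∪ F2)
    have e5 := e2 (Q1 \ (F1 ∪ F2)) (Q2 \ (F1 ∪ F2))
    linarith
  -- conclusion
  have hR : ‖v - RR U V (0 : ZMod q × ZMod q) v‖ ^ 2 ≤ 11 * η := by
    have e1 : v - RR U V (0 : ZMod q × ZMod q) v =
        ∑ p ∈ Finset.univ.erase (0 : ZMod q × ZMod q), RR U V p v := by
      have e2 := Finset.add_sum_erase Finset.univ (fun p : ZMod q × ZMod q => RR U V p v)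
        (Finset.mem_univ 0)
      rw [sum_RR] at e2
      rw [sub_eq_iff_eq_add, add_comm]
      exact e2.symm
    rw [e1, norm_sum_RR' hUV hUq hVq]
    exact hnz
  have hfix := fix_RR (q := q) hUV hUq hVq m n v
  have hfin : ‖(U ^ m * V ^ n) v - v‖ ≤ 2 * ‖v - RR U V (0 : ZMod q × ZMod q) v‖ := by
    have e1 : (U ^ m * V ^ n) v - v = (U ^ m * V ^ n) (v - RR U V (0 : ZMod q × ZMod q) v) -
        (v - RR U V (0 : ZMod q × ZMod q) v) := by
      rw [map_sub, hfix]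
      abel
    rw [e1]
    refine (norm_sub_le _ _).trans ?_
    rw [LinearIsometryEquiv.norm_map]
    linarith
  have h5 := norm_nonneg ((U ^ m * V ^ n) v - v)
  nlinarith [norm_nonneg (v - RR U V (0 : ZMod q × ZMod q) v)]

end Pool.Agent.Helper90.CB.RT
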