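import Mathlib
import Pool.Agent.Helper90.CB.Defs
import Pool.Agent.Helper90.CB.RelT
set_option autoImplicit false

namespace Pool.Agent.Helper90.CB
open Matrix




theorem j2159_inst {α : Type*} (s : Finset α) (P : α → Prop) (i1 i2 : DecidablePred P) :
    (@Finset.filter _ P i1 s).card = (@Finset.filter _ P i2 s).card := by
  rw [Subsingleton.elim i1 i2]

section absgrp
open Classical

variable {G : Type} [Group G] [Fintype G]

/-- left regular representation -/
noncomputable def j2159_L (g : G) : EuclideanSpace ℂ G ≃ₗᵢ[ℂ] EuclideanSpace ℂ G :=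
  LinearIsometryEquiv.piLpCongrLeft 2 ℂ ℂ (Equiv.mulLeft g)

theorem j2159_L_apply (g : G) (v : EuclideanSpace ℂ G) (x : G) :
    (j2159_L g v) x = v (g⁻¹ * x) := by
  unfold j2159_L
  rw [LinearIsometryEquiv.piLpCongrLeft_apply]
  rfl

theorem j2159_L_mul (g h : G) : j2159_L (g * h) = j2159_L g * j2159_L h := by
  apply LinearIsometryEquiv.ext
  intro v
  ext x
  show (j2159_L (g * h) v) x = (j2159_L g (j2159_L h v)) x
  rw [j2159_L_apply, j2159_L_apply, j2159_L_apply,
    show (g * h)⁻¹ * x = h⁻¹ * (g⁻¹ * x) by group]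

theorem j2159_L_one : j2159_L (1 : G) = 1 := by
  apply LinearIsometryEquiv.ext
  intro v
  ext x
  show (j2159_L (1 : G) v) x = v x
  rw [j2159_L_apply, inv_one, one_mul]

theorem j2159_L_pow (g : G) (n : ℕ) : j2159_L (g ^ n) = (j2159_L g) ^ n := by
  induction n with
  | zero => rw [pow_zero, pow_zero, j2159_L_one]
  | succ n ih => rw [pow_succ, pow_succ, j2159_L_mul, ih]

theorem j2159_mul (v : EuclideanSpace ℂ G) (g h : G) :
    ‖j2159_L (g * h) v - v‖ ≤ ‖j2159_L g v - v‖ + ‖j2159_L h v - v‖ := by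
  rw [j2159_L_mul]
  have e : (j2159_L g * j2159_L h) v - v = j2159_L g (j2159_L h v - v) + (j2159_L g v - v) := by
    rw [map_sub]
    show j2159_L g (j2159_L h v) - v = _
    abel
  rw [e]
  refine (norm_add_le _ _).trans ?_
  rw [LinearIsometryEquiv.norm_map, add_comm]

theorem j2159_vec (A : Finset G) : ∃ v : EuclideanSpace ℂ G, ‖v‖ ≤ 1 ∧ ∀ g : G,
    ‖j2159_L g v - v‖ ^ 2 * Fintype.card G =
      ((Finset.univ.filter fun x : G => ¬ (x ∈ A ↔ g * x ∈ A)).card : ℝ) := by
  have hN : 0 < (Fintype.card G : ℝ) := by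
    have : 0 < Fintype.card G := Fintype.card_pos
    exact_mod_cast this
  obtain ⟨c, hc⟩ : ∃ c : ℝ, c = 1 / √(Fintype.card G : ℝ) := ⟨_, rfl⟩
  have hc2 : c ^ 2 * Fintype.card G = 1 := by
    rw [hc, div_pow, Real.sq_sqrt hN.le]; field_simp
  have hcn : ‖(c : ℂ)‖ ^ 2 = c ^ 2 := by rw [Complex.norm_real, Real.norm_eq_abs, sq_abs]
  refine ⟨WithLp.toLp 2 (fun x => if x ∈ A then (c : ℂ) else 0), ?_, ?_⟩
  · have h1 : ‖(WithLp.toLp 2 (fun x => if x ∈ A then (c : ℂ) else 0) : EuclideanSpace ℂ G)‖ ^ 2 ≤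
        1 := by
      rw [EuclideanSpace.norm_sq_eq]
      calc ∑ x : G, ‖(if x ∈ A then (c : ℂ) else 0)‖ ^ 2 ≤ ∑ x : G, c ^ 2 := by
            apply Finset.sum_le_sum
            intro x _
            split_ifs
            · rw [hcn]
            · simp; positivity
        _ = 1 := by
            rw [Finset.sum_const, nsmul_eq_mul, Finset.card_univ, mul_comm]; exact hc2
    have h2 := norm_nonneg (WithLp.toLp 2 (fun x => if x ∈ A then (c : ℂ) else 0) :
      EuclideanSpace ℂ G)
    nlinarith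
  · intro g
    rw [EuclideanSpace.norm_sq_eq]
    have h1 : ∀ x : G, ((j2159_L g (WithLp.toLp 2 (fun x => if x ∈ A then (c : ℂ) else 0)) -
        WithLp.toLp 2 (fun x => if x ∈ A then (c : ℂ) else 0) : EuclideanSpace ℂ G)) x =
        (if g⁻¹ * x ∈ A then (c : ℂ) else 0) - (if x ∈ A then (c : ℂ) else 0) := by
      intro x
      rw [PiLp.sub_apply, j2159_L_apply]
    simp_rw [h1]
    have h2 : ∑ x : G, ‖(if g⁻¹ * x ∈ A then (c : ℂ) else 0) - (if x ∈ A then (c : ℂ) else 0)‖ ^ 2 =
        ∑ x : G, c ^ 2 * (if ¬ (x ∈ A ↔ g * x ∈ A) then 1 else 0) := by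
      refine (Equiv.sum_comp (Equiv.mulLeft g) (fun x =>
        ‖(if g⁻¹ * x ∈ A then (c : ℂ) else 0) - (if x ∈ A then (c : ℂ) else 0)‖ ^ 2)).symm.trans
        (Finset.sum_congr rfl (fun x _ => ?_))
      show ‖(if g⁻¹ * (g * x) ∈ A then (c : ℂ) else 0) - (if g * x ∈ A then (c : ℂ) else 0)‖ ^ 2 = _
      have h5 : g⁻¹ * (g * x) = x := by group
      by_cases h3 : x ∈ A <;> by_cases h4 : g * x ∈ A <;> simp [h3, h4, h5]
    rw [h2, ← Finset.mul_sum, Finset.sum_boole, mul_right_comm, hc2, one_mul]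

theorem j2159_double (A : Finset G) :
    ∑ g : G, (Finset.univ.filter fun x : G => ¬ (x ∈ A ↔ g * x ∈ A)).card =
      2 * (A.card * Aᶜ.card) := by
  have h1 : ∑ g : G, (Finset.univ.filter fun x : G => ¬ (x ∈ A ↔ g * x ∈ A)).card =
      ∑ x : G, ∑ y : G, (if ¬ (x ∈ A ↔ y ∈ A) then 1 else 0) := by
    simp_rw [Finset.card_filter]
    rw [Finset.sum_comm]
    apply Finset.sum_congr rfl
    intro x _
    exact Equiv.sum_comp (Equiv.mulRight x) (fun y => if ¬ (x ∈ A ↔ y ∈ A) then 1 else 0)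
  rw [h1, ← Finset.sum_add_sum_compl A]
  have h2 : ∀ x ∈ A, ∑ y : G, (if ¬ (x ∈ A ↔ y ∈ A) then 1 else 0) = Aᶜ.card := by
    intro x hx
    rw [← Finset.card_filter]
    congr 1
    ext y
    simp [hx]
  have h3 : ∀ x ∈ Aᶜ, ∑ y : G, (if ¬ (x ∈ A ↔ y ∈ A) then 1 else 0) = A.card := by
    intro x hx
    rw [Finset.mem_compl] at hx
    rw [← Finset.card_filter]
    congr 1
    ext y
    simp [hx]
  rw [Finset.sum_congr rfl h2, Finset.sum_congr rfl h3, Finset.sum_const, Finset.sum_const,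
    smul_eq_mul, smul_eq_mul]
  ring

end absgrp

theorem j2159_tv_pow {R : Type*} [CommRing R] (i j : Fin 3) (h : i ≠ j) (m : ℕ) :
    tv i j h (m : R) = (tv i j h (1 : R)) ^ m := by
  induction m with
  | zero => rw [Nat.cast_zero, tv_zero, pow_zero]
  | succ m ih => rw [Nat.cast_succ, tv_add, ih, pow_succ]

/- ===== TARGET ===== -/

theorem j2159_third (i k : Fin 3) (h : i ≠ k) : ∃ j : Fin 3, i ≠ j ∧ j ≠ k := by
  revert i k; decide

section prod

variable {ι : Type} [Fintype ι] [DecidableEq ι] (p : ι → ℕ) [∀ i, Fact (p i).Prime]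

theorem j2159_crt (hinj : Function.Injective p) (a : ∀ l, ZMod (p l)) :
    ∃ m : ℕ, ∀ l, (m : ZMod (p l)) = a l := by
  have hcop : Pairwise (Function.onFun Nat.Coprime p) := by
    intro i j hij
    exact (Nat.coprime_primes (Fact.out) (Fact.out)).2 (fun h => hij (hinj h))
  have hne : NeZero (∏ i, p i) := ⟨Finset.prod_ne_zero_iff.2 (fun i _ =>
    (Fact.out : (p i).Prime).ne_zero)⟩
  refine ⟨((ZMod.prodEquivPi p hcop).symm a).val, ?_⟩
  intro l
  have h1 : ZMod.prodEquivPi p hcop ((((ZMod.prodEquivPi p hcop).symm a).val : ℕ) :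
      ZMod (∏ i, p i)) = a := by
    rw [ZMod.natCast_zmod_val, RingEquiv.apply_symm_apply]
  rw [map_natCast] at h1
  exact congrFun h1 l

/-- Uniform spectral gap (in the form of an isoperimetric inequality) for the products
`∏ SL₃(F_p)` over finitely many distinct primes, with respect to the elementary generators. -/
theorem gap_fin {ι : Type} [Fintype ι] [DecidableEq ι] (p : ι → ℕ) [∀ i, Fact (p i).Prime]
    (hinj : Function.Injective p) (A : Finset (∀ i, SL3 (p i))) (η : ℝ) (h0 : 0 ≤ η)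
    (h1 : η ≤ 1)
    (h : ∀ (i j : Fin 3) (hij : i ≠ j),
      ((Finset.univ.filter fun g : ∀ i, SL3 (p i) =>
        ¬ (g ∈ A ↔ (fun l => tv i j hij (1 : ZMod (p l))) * g ∈ A)).card : ℝ)
        ≤ η ^ 2 * Fintype.card (∀ i, SL3 (p i))) :
    (A.card : ℝ) * (Aᶜ.card : ℝ) ≤ 6050 * η * (Fintype.card (∀ i, SL3 (p i)) : ℝ) ^ 2 := by
  obtain ⟨v, hv1, hv⟩ := j2159_vec A
  have hN : 0 < (Fintype.card (∀ i, SL3 (p i)) : ℝ) := by
    have : 0 < Fintype.card (∀ i, SL3 (p i)) := Fintype.card_pos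
    exact_mod_cast this
  obtain ⟨x, hx⟩ : ∃ x : ∀ (i j : Fin 3), i ≠ j → (∀ l, ZMod (p l)) → (∀ i, SL3 (p i)),
    x = fun i j hij a => fun l => tv i j hij (a l) := ⟨_, rfl⟩
  have hx1 : ∀ (i j : Fin 3) (hij : i ≠ j), ‖j2159_L (x i j hij 1) v - v‖ ≤ η := by
    intro i j hij
    have e1 := hv (x i j hij 1)
    have e2 := h i j hij
    have e3 : ‖j2159_L (x i j hij 1) v - v‖ ^ 2 * Fintype.card (∀ i, SL3 (p i)) ≤
        η ^ 2 * Fintype.card (∀ i, SL3 (p i)) := by
      rw [e1, hx]
      refine le_trans (le_of_eq ?_) e2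
      rw [Nat.cast_inj]
      exact j2159_inst _ _ _ _
    have e4 := le_of_mul_le_mul_right e3 hN
    exact abs_le_of_sq_le_sq' e4 h0 |>.2
  have hxx : ∀ (i k : Fin 3) (hik : i ≠ k) (a : ∀ l, ZMod (p l)),
      ‖j2159_L (x i k hik a) v - v‖ ≤ 10 * √η := by
    intro i k hik a
    obtain ⟨m, hm⟩ := j2159_crt p hinj a
    obtain ⟨j, hij, hjk⟩ := j2159_third i k hik
    have hq : 0 < ∏ l, p l := Finset.prod_pos (fun l _ => (Fact.out : (p l).Prime).pos)
    have hpow : ∀ (i j : Fin 3) (hij : i ≠ j), j2159_L (x i j hij 1) ^ (∏ l, p l) = 1 := by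
      intro i j hij
      rw [← j2159_L_pow, ← j2159_L_one]
      congr 1
      rw [hx]
      funext l
      show (tv i j hij (1 : ZMod (p l))) ^ (∏ l, p l) = 1
      rw [← j2159_tv_pow]
      have : ((∏ l, p l : ℕ) : ZMod (p l)) = 0 := by
        rw [ZMod.natCast_eq_zero_iff]
        exact Finset.dvd_prod_of_mem p (Finset.mem_univ l)
      rw [this, tv_zero]
    have hr := RT.rel_T (∏ l, p l) hq (j2159_L (x i k hik 1)) (j2159_L (x j k hjk 1))
      (j2159_L (x i j hij 1)) (j2159_L (x j i hij.symm 1))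
      (by rw [← j2159_L_mul, ← j2159_L_mul, hx]; congr 1; funext l
          exact tv_comm_right i j k hik hjk _ _)
      (hpow _ _ _) (hpow _ _ _)
      (by rw [← j2159_L_mul, ← j2159_L_mul, hx]; congr 1; funext l
          exact tv_comm_left i j k hij hik _ _)
      (by rw [← j2159_L_mul, ← j2159_L_mul, ← j2159_L_mul, hx]; congr 1; funext l
          have := tv_comm_mul i j k hij hjk hik (1 : ZMod (p l)) 1
          rw [mul_one] at this
          exact this)
      (by rw [← j2159_L_mul, ← j2159_L_mul, hx]; congr 1; funext l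
          exact tv_comm_left j i k hij.symm hjk _ _)
      (by rw [← j2159_L_mul, ← j2159_L_mul, ← j2159_L_mul, hx]; congr 1; funext l
          have := tv_comm_mul j i k hij.symm hik hjk (1 : ZMod (p l)) 1
          rw [mul_one] at this
          exact this)
      v hv1 η h0 h1 (hx1 _ _ _) (hx1 _ _ _) (hx1 _ _ _) (hx1 _ _ _) m 0
    rw [pow_zero, mul_one, ← j2159_L_pow] at hr
    have he : (x i k hik 1) ^ m = x i k hik a := by
      rw [hx]
      funext l
      show (tv i k hik (1 : ZMod (p l))) ^ m = tv i k hik (a l)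
      rw [← j2159_tv_pow, hm]
    rw [he] at hr
    have h10 : (100 : ℝ) * η = (10 * √η) ^ 2 := by
      rw [mul_pow, Real.sq_sqrt h0]; norm_num
    rw [h10] at hr
    exact abs_le_of_sq_le_sq' hr (by positivity) |>.2
  have hall : ∀ g : (∀ i, SL3 (p i)), ‖j2159_L g v - v‖ ≤ 110 * √η := by
    intro g
    have hc : ∀ l, ∃ c : Fin 11 → ZMod (p l), g l = tv 1 0 (by decide) (c 0) *
      tv 0 1 (by decide) (c 1) *
      tv 0 2 (by decide) (c 2) * tv 1 0 (by decide) (c 3) * tv 2 0 (by decide) (c 4) *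
      tv 2 1 (by decide) (c 5) * tv 1 2 (by decide) (c 6) * tv 2 1 (by decide) (c 7) *
      tv 1 2 (by decide) (c 8) * tv 0 2 (by decide) (c 9) * tv 0 1 (by decide) (c 10) :=
      fun l => bdd_gen (g l)
    choose c hc using hc
    have hg : g = x 1 0 (by decide) (fun l => c l 0) * x 0 1 (by decide) (fun l => c l 1) *
      x 0 2 (by decide) (fun l => c l 2) * x 1 0 (by decide) (fun l => c l 3) *
      x 2 0 (by decide) (fun l => c l 4) *
      x 2 1 (by decide) (fun l => c l 5) * x 1 2 (by decide) (fun l => c l 6) *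
      x 2 1 (by decide) (fun l => c l 7) *
      x 1 2 (by decide) (fun l => c l 8) * x 0 2 (by decide) (fun l => c l 9) *
      x 0 1 (by decide) (fun l => c l 10) := by
      rw [hx]
      funext l
      exact hc l
    rw [hg]
    have s := fun (g1 g2 : (∀ i, SL3 (p i))) => j2159_mul v g1 g2
    refine (s _ _).trans ?_
    have t10 := hxx 0 1 (by decide) (fun l => c l 10)
    have t9 := hxx 0 2 (by decide) (fun l => c l 9)
    have t8 := hxx 1 2 (by decide) (fun l => c l 8)
    have t7 := hxx 2 1 (by decide) (fun l => c l 7)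
    have t6 := hxx 1 2 (by decide) (fun l => c l 6)
    have t5 := hxx 2 1 (by decide) (fun l => c l 5)
    have t4 := hxx 2 0 (by decide) (fun l => c l 4)
    have t3 := hxx 1 0 (by decide) (fun l => c l 3)
    have t2 := hxx 0 2 (by decide) (fun l => c l 2)
    have t1 := hxx 0 1 (by decide) (fun l => c l 1)
    have t0 := hxx 1 0 (by decide) (fun l => c l 0)
    have u1 := s (x 1 0 (by decide) (fun l => c l 0)) (x 0 1 (by decide) (fun l => c l 1))
    have u2 := s (x 1 0 (by decide) (fun l => c l 0) * x 0 1 (by decide) (fun l => c l 1))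
      (x 0 2 (by decide) (fun l => c l 2))
    have u3 := s (x 1 0 (by decide) (fun l => c l 0) * x 0 1 (by decide) (fun l => c l 1) *
      x 0 2 (by decide) (fun l => c l 2)) (x 1 0 (by decide) (fun l => c l 3))
    have u4 := s (x 1 0 (by decide) (fun l => c l 0) * x 0 1 (by decide) (fun l => c l 1) *
      x 0 2 (by decide) (fun l => c l 2) * x 1 0 (by decide) (fun l => c l 3))
      (x 2 0 (by decide) (fun l => c l 4))
    have u5 := s (x 1 0 (by decide) (fun l => c l 0) * x 0 1 (by decide) (fun l => c l 1) *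
      x 0 2 (by decide) (fun l => c l 2) * x 1 0 (by decide) (fun l => c l 3) *
      x 2 0 (by decide) (fun l => c l 4)) (x 2 1 (by decide) (fun l => c l 5))
    have u6 := s (x 1 0 (by decide) (fun l => c l 0) * x 0 1 (by decide) (fun l => c l 1) *
      x 0 2 (by decide) (fun l => c l 2) * x 1 0 (by decide) (fun l => c l 3) *
      x 2 0 (by decide) (fun l => c l 4) * x 2 1 (by decide) (fun l => c l 5))
      (x 1 2 (by decide) (fun l => c l 6))
    have u7 := s (x 1 0 (by decide) (fun l => c l 0) * x 0 1 (by decide) (fun l => c l 1) *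
      x 0 2 (by decide) (fun l => c l 2) * x 1 0 (by decide) (fun l => c l 3) *
      x 2 0 (by decide) (fun l => c l 4) * x 2 1 (by decide) (fun l => c l 5) *
      x 1 2 (by decide) (fun l => c l 6)) (x 2 1 (by decide) (fun l => c l 7))
    have u8 := s (x 1 0 (by decide) (fun l => c l 0) * x 0 1 (by decide) (fun l => c l 1) *
      x 0 2 (by decide) (fun l => c l 2) * x 1 0 (by decide) (fun l => c l 3) *
      x 2 0 (by decide) (fun l => c l 4) * x 2 1 (by decide) (fun l => c l 5) *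
      x 1 2 (by decide) (fun l => c l 6) * x 2 1 (by decide) (fun l => c l 7))
      (x 1 2 (by decide) (fun l => c l 8))
    have u9 := s (x 1 0 (by decide) (fun l => c l 0) * x 0 1 (by decide) (fun l => c l 1) *
      x 0 2 (by decide) (fun l => c l 2) * x 1 0 (by decide) (fun l => c l 3) *
      x 2 0 (by decide) (fun l => c l 4) * x 2 1 (by decide) (fun l => c l 5) *
      x 1 2 (by decide) (fun l => c l 6) * x 2 1 (by decide) (fun l => c l 7) *
      x 1 2 (by decide) (fun l => c l 8)) (x 0 2 (by decide) (fun l => c l 9))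
    linarith
  have hD : ∀ g : (∀ i, SL3 (p i)),
      ((Finset.univ.filter fun y : (∀ i, SL3 (p i)) => ¬ (y ∈ A ↔ g * y ∈ A)).card : ℝ) ≤
        12100 * η * Fintype.card (∀ i, SL3 (p i)) := by
    intro g
    have e1 := hv g
    have e2 : ‖j2159_L g v - v‖ ^ 2 ≤ 12100 * η := by
      have := pow_le_pow_left₀ (norm_nonneg _) (hall g) 2
      rw [mul_pow, Real.sq_sqrt h0] at this
      linarith
    calc _ = ‖j2159_L g v - v‖ ^ 2 * Fintype.card (∀ i, SL3 (p i)) := by
          rw [e1, Nat.cast_inj]; exact j2159_inst _ _ _ _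
      _ ≤ _ := mul_le_mul_of_nonneg_right e2 hN.le
  have hsum : (2 : ℝ) * ((A.card : ℝ) * (Aᶜ.card : ℝ)) =
      ∑ g : (∀ i, SL3 (p i)),
        ((Finset.univ.filter fun y : (∀ i, SL3 (p i)) => ¬ (y ∈ A ↔ g * y ∈ A)).card : ℝ) := by
    have := j2159_double A
    rw [← Nat.cast_sum]
    have e2 : (2 : ℝ) * ((A.card : ℝ) * (Aᶜ.card : ℝ)) = ((2 * (A.card * Aᶜ.card) : ℕ) : ℝ) := by
      push_cast; ring
    rw [e2]
    congr 1
    convert this.symm
  have hfin : ∑ g : (∀ i, SL3 (p i)),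
        ((Finset.univ.filter fun y : (∀ i, SL3 (p i)) => ¬ (y ∈ A ↔ g * y ∈ A)).card : ℝ) ≤
      ∑ g : (∀ i, SL3 (p i)), 12100 * η * Fintype.card (∀ i, SL3 (p i)) :=
    Finset.sum_le_sum (fun g _ => hD g)
  rw [← hsum, Finset.sum_const, nsmul_eq_mul, Finset.card_univ] at hfin
  linarith

end prod

end Pool.Agent.Helper90.CB
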