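import Mathlib
import Pool.Agent.Helper90.CB.Defs
import Pool.Agent.Helper90.CB.GapFin
set_option autoImplicit false
open Set MeasureTheory
open scoped ENNReal

namespace Pool.Agent.Helper90.CB

open scoped symmDiff in
private lemma pi_unif {κ : Type} [Fintype κ] (G : κ → Type) [∀ i, Nonempty (G i)] [∀ i, Finite (G i)]
    [∀ i, MeasurableSpace (G i)] [∀ i, DiscreteMeasurableSpace (G i)] [Fintype (∀ i, G i)]
    (T : Finset (∀ i, G i)) :
    (Measure.pi (fun i => ProbabilityTheory.uniformOn (Set.univ : Set (G i)))).real (T : Set (∀ i, G i)) =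
      (T.card : ℝ) / Fintype.card (∀ i, G i) := by
  classical
  have : ∀ i, Fintype (G i) := fun i => Fintype.ofFinite _
  rw [← sum_measureReal_singleton]
  have h1 : ∀ g ∈ T, (Measure.pi (fun i => ProbabilityTheory.uniformOn (Set.univ : Set (G i)))).real {g} =
      1 / (Fintype.card (∀ i, G i) : ℝ) := by
    intro g _
    rw [measureReal_def, Measure.pi_singleton]
    have h2 : ∀ i, ProbabilityTheory.uniformOn (Set.univ : Set (G i)) {g i} =
        1 / (Fintype.card (G i) : ℝ≥0∞) := by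
      intro i
      rw [ProbabilityTheory.uniformOn_univ, Measure.count_singleton]
    rw [Finset.prod_congr rfl (fun i _ => h2 i), ENNReal.toReal_prod]
    have h3 : ∀ i ∈ (Finset.univ : Finset κ), (1 / (Fintype.card (G i) : ℝ≥0∞)).toReal =
        1 / (Fintype.card (G i) : ℝ) := by
      intro i _
      simp
    rw [Finset.prod_congr rfl h3, Finset.prod_div_distrib, Finset.prod_const_one]
    congr 1
    have h4 : Fintype.card (∀ i, G i) = ∏ i, Fintype.card (G i) := by
      have h5 := Fintype.card_pi (α := G)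
      rw [← h5]
      exact congrArg (@Fintype.card _) (Subsingleton.elim _ _)
    rw [h4]
    push_cast
    rfl
  rw [Finset.sum_congr rfl h1, Finset.sum_const, nsmul_eq_mul]
  ring

/-- Spectral gap for the infinite product. -/
theorem gap_hk {ι : Type} (p : ι → ℕ) [∀ i, Fact (p i).Prime]
    (hinj : Function.Injective p) (ε : ℝ≥0∞) (hε : 0 < ε) :
    ∃ η : ℝ≥0∞, 0 < η ∧ ∀ A : Set (∀ i, SL3 (p i)), MeasurableSet A →
      (∀ t : {t : Fin 3 × Fin 3 // t.1 ≠ t.2}, hk (fun i => SL3 (p i))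
        {z | ¬ (z ∈ A ↔ (fun l => tv t.1.1 t.1.2 t.2 (1 : ZMod (p l))) * z ∈ A)} ≤ η) →
      hk (fun i => SL3 (p i)) A ≤ ε ∨ hk (fun i => SL3 (p i)) Aᶜ ≤ ε := by
  classical
  obtain ⟨e, he⟩ : ∃ e, e = (min ε 1).toReal := ⟨_, rfl⟩
  have hmin_top : min ε 1 ≠ ∞ := ne_top_of_le_ne_top ENNReal.one_ne_top (min_le_right _ _)
  have he0 : 0 < e := by
    rw [he]
    exact ENNReal.toReal_pos (lt_min hε one_pos).ne' hmin_top
  have he1 : e ≤ 1 := by
    rw [he]
    have := ENNReal.toReal_mono ENNReal.one_ne_top (min_le_right ε 1)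
    simpa using this
  have heε : ENNReal.ofReal e ≤ ε := by
    rw [he, ENNReal.ofReal_toReal hmin_top]
    exact min_le_left _ _
  obtain ⟨η0, hη0⟩ : ∃ η0, η0 = e / 24200 := ⟨_, rfl⟩
  have hη0pos : 0 < η0 := by rw [hη0]; positivity
  have hη01 : η0 ≤ 1 := by rw [hη0]; linarith
  obtain ⟨η1, hη1⟩ : ∃ η1, η1 = η0 ^ 2 / 3 := ⟨_, rfl⟩
  have hη1pos : 0 < η1 := by rw [hη1]; positivity
  have hη1e : η1 ≤ e / 2 := by
    rw [hη1]
    have : η0 ^ 2 ≤ η0 := by nlinarith
    rw [hη0] at this ⊢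
    linarith
  refine ⟨ENNReal.ofReal η1, ENNReal.ofReal_pos.2 hη1pos, fun A hA hAx => ?_⟩
  obtain ⟨μ, hμ⟩ : ∃ μ : Measure (∀ i, SL3 (p i)), μ = hk (fun i => SL3 (p i)) := ⟨_, rfl⟩
  rw [← hμ] at hAx ⊢
  have hprob : IsProbabilityMeasure μ := by rw [hμ]; infer_instance
  -- cylinder approximation
  have hdense : μ.MeasureDense (measurableCylinders (fun i => SL3 (p i))) :=
    Measure.MeasureDense.of_generateFrom_isSetAlgebra_finite μ isSetAlgebra_measurableCylinders
      generateFrom_measurableCylinders.symm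
  obtain ⟨C, hC, hAC⟩ := hdense.approx A hA (measure_ne_top _ _) η1 hη1pos
  have hCm : MeasurableSet C := hdense.measurable C hC
  obtain ⟨F, S, hS, hCS⟩ := (mem_measurableCylinders C).1 hC
  have hACr : μ.real (symmDiff A C) ≤ η1 := by
    have := ENNReal.toReal_mono ENNReal.ofReal_ne_top hAC.le
    rwa [ENNReal.toReal_ofReal hη1pos.le] at this
  -- the measure of cylinders
  have hcyl : ∀ T : Finset (∀ i : F, SL3 (p i)), μ.real (F.restrict ⁻¹' (T : Set (∀ i : F, SL3 (p i)))) =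
      (T.card : ℝ) / Fintype.card (∀ i : F, SL3 (p i)) := by
    intro T
    rw [← pi_unif (fun i : F => SL3 (p i)) T, measureReal_def, measureReal_def]
    congr 1
    have h1 := Measure.infinitePi_cylinder
      (μ := fun i => ProbabilityTheory.uniformOn (Set.univ : Set (SL3 (p i)))) (s := F)
      (S := (T : Set (∀ i : F, SL3 (p i)))) (T.finite_toSet.measurableSet)
    rw [hμ]
    exact h1
  obtain ⟨T, hT⟩ : ∃ T : Finset (∀ i : F, SL3 (p i)), T = S.toFinset := ⟨_, rfl⟩
  have hTS : (T : Set (∀ i : F, SL3 (p i))) = S := by rw [hT]; simp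
  have hCT : C = F.restrict ⁻¹' (T : Set (∀ i : F, SL3 (p i))) := by rw [hTS, hCS]; rfl
  obtain ⟨N, hN⟩ : ∃ N : ℝ, N = Fintype.card (∀ i : F, SL3 (p i)) := ⟨_, rfl⟩
  have hNpos : 0 < N := by
    rw [hN]
    exact_mod_cast Fintype.card_pos
  have hgap := gap_fin (fun i : F => p i) (hinj.comp Subtype.val_injective) T η0 hη0pos.le hη01 (by
    intro i j hij
    obtain ⟨x, hx⟩ : ∃ x : ∀ l, SL3 (p l), x = fun l => tv i j hij (1 : ZMod (p l)) := ⟨_, rfl⟩
    have h1 := hcyl (Finset.univ.filter fun g : ∀ i : F, SL3 (p i) =>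
        ¬ (g ∈ T ↔ (fun l : F => tv i j hij (1 : ZMod (p l))) * g ∈ T))
    have h2 : (F.restrict ⁻¹' ((Finset.univ.filter fun g : ∀ i : F, SL3 (p i) =>
        ¬ (g ∈ T ↔ (fun l : F => tv i j hij (1 : ZMod (p l))) * g ∈ T) : Finset _) :
          Set (∀ i : F, SL3 (p i)))) = {z | ¬ (z ∈ C ↔ x * z ∈ C)} := by
      ext z
      rw [Set.mem_preimage, Finset.mem_coe, Finset.mem_filter, Set.mem_ofPred_eq, hCT,
        Set.mem_preimage, Set.mem_preimage, Finset.mem_coe, Finset.mem_coe]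
      have h3 : F.restrict (x * z) = (fun l : F => tv i j hij (1 : ZMod (p l))) * F.restrict z := by
        rw [hx]; rfl
      rw [h3]
      constructor
      · rintro ⟨-, h⟩; exact h
      · intro h; exact ⟨Finset.mem_univ _, h⟩
    rw [h2] at h1
    have h4 : μ.real {z | ¬ (z ∈ C ↔ x * z ∈ C)} ≤ η0 ^ 2 := by
      have h5 : {z | ¬ (z ∈ C ↔ x * z ∈ C)} ⊆ ({z | ¬ (z ∈ A ↔ x * z ∈ A)} ∪ symmDiff A C) ∪
          (fun z => x * z) ⁻¹' (symmDiff A C) := by
        intro z hz
        rw [Set.mem_ofPred_eq] at hz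
        simp only [Set.mem_union, Set.mem_ofPred_eq, Set.mem_preimage, Set.mem_symmDiff]
        tauto
      have h6 := measureReal_mono (μ := μ) h5
      have h7 := measureReal_union_le (μ := μ) ({z | ¬ (z ∈ A ↔ x * z ∈ A)} ∪ symmDiff A C)
        ((fun z => x * z) ⁻¹' (symmDiff A C))
      have h8 := measureReal_union_le (μ := μ) {z | ¬ (z ∈ A ↔ x * z ∈ A)} (symmDiff A C)
      have h9 : μ.real ((fun z => x * z) ⁻¹' (symmDiff A C)) = μ.real (symmDiff A C) := by
        rw [measureReal_def, measureReal_def]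
        congr 1
        have := mp_left (G := fun i => SL3 (p i)) x
        rw [← hμ] at this
        exact this.measure_preimage (hA.symmDiff hCm).nullMeasurableSet
      have h10 : μ.real {z | ¬ (z ∈ A ↔ x * z ∈ A)} ≤ η1 := by
        have := hAx ⟨(i, j), hij⟩
        simp only at this
        rw [← hx] at this
        have h11 := ENNReal.toReal_mono ENNReal.ofReal_ne_top this
        rwa [ENNReal.toReal_ofReal hη1pos.le] at h11
      rw [hη1] at *
      linarith
    rw [h1] at h4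
    rw [div_le_iff₀ (by rw [← hN]; exact hNpos)] at h4
    exact h4)
  have hcompl : C ᶜ = F.restrict ⁻¹' ((Tᶜ : Finset (∀ i : F, SL3 (p i))) : Set (∀ i : F, SL3 (p i))) := by
    rw [hCT, Finset.coe_compl]; rfl
  have hc1 := hcyl T
  have hc2 := hcyl Tᶜ
  rw [← hCT] at hc1
  rw [← hcompl] at hc2
  rw [← hN] at hgap hc1 hc2
  have hprod : μ.real C * μ.real Cᶜ ≤ 6050 * η0 := by
    rw [hc1, hc2, div_mul_div_comm, div_le_iff₀ (by positivity)]
    calc (T.card : ℝ) * (Tᶜ.card : ℝ) ≤ 6050 * η0 * N ^ 2 := hgap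
      _ = _ := by ring
  have hsum : μ.real C + μ.real Cᶜ = 1 := by
    rw [probReal_compl_eq_one_sub hCm]; ring
  have hc0 : 0 ≤ μ.real C := measureReal_nonneg
  have hc0' : 0 ≤ μ.real Cᶜ := measureReal_nonneg
  have hη0e : 6050 * η0 = e / 4 := by rw [hη0]; ring
  have hfin : ∀ X Y : Set (∀ i, SL3 (p i)), X ⊆ Y ∪ symmDiff A C → μ.real Y ≤ e / 2 → μ X ≤ ε := by
    intro X Y hXY hY
    have h1 := measureReal_mono (μ := μ) hXY
    have h2 := measureReal_union_le (μ := μ) Y (symmDiff A C)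
    have h3 : μ.real X ≤ e := by linarith
    have h4 : μ X = ENNReal.ofReal (μ.real X) := by
      rw [measureReal_def, ENNReal.ofReal_toReal (measure_ne_top _ _)]
    rw [h4]
    exact (ENNReal.ofReal_le_ofReal h3).trans heε
  rcases le_total (μ.real C) (μ.real Cᶜ) with h | h
  · left
    refine hfin A C ?_ (by nlinarith)
    intro z hz
    by_cases hzC : z ∈ C
    · exact Or.inl hzC
    · exact Or.inr (Or.inl ⟨hz, hzC⟩)
  · right
    refine hfin Aᶜ Cᶜ ?_ (by nlinarith)
    intro z hz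
    by_cases hzC : z ∈ C
    · exact Or.inr (Or.inr ⟨hzC, hz⟩)
    · exact Or.inl hzC

end Pool.Agent.Helper90.CB
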