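import Mathlib
import Pool.Agent.Helper90.CB.Core
import Pool.Agent.Helper90.CB.Alg
import Pool.Agent.Helper90.CB.Gap
set_option autoImplicit false
open Set MeasureTheory Matrix
open scoped ENNReal

namespace Pool.Agent.Helper90.CB

/-- `SL₃(ℤ)` mapped to the product of the `SL₃(𝔽_p)` -/
def rho {ι : Type} (p : ι → ℕ) : SpecialLinearGroup (Fin 3) ℤ →* (∀ i, SL3 (p i)) :=
  MonoidHom.pi fun i => SpecialLinearGroup.map (Int.castRingHom (ZMod (p i)))

theorem rho_apply {ι : Type} (p : ι → ℕ) (γ : SpecialLinearGroup (Fin 3) ℤ) (i : ι)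
    (a b : Fin 3) : (rho p γ i).1 a b = ((γ.1 a b : ℤ) : ZMod (p i)) := rfl

theorem rho_tv {ι : Type} (p : ι → ℕ) (a b : Fin 3) (h : a ≠ b) :
    rho p (tv a b h 1) = fun l => tv a b h (1 : ZMod (p l)) := by
  funext l
  apply Subtype.ext
  ext c d
  rw [rho_apply]
  simp only [tv, Matrix.transvection, Matrix.add_apply, Matrix.one_apply, Matrix.single_apply]
  split_ifs <;> simp <;> norm_num

instance instCountSL : Countable (SpecialLinearGroup (Fin 3) ℤ) := by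
  have h1 : Countable (Matrix (Fin 3) (Fin 3) ℤ) := inferInstanceAs (Countable (Fin 3 → Fin 3 → ℤ))
  exact inferInstanceAs (Countable {A : Matrix (Fin 3) (Fin 3) ℤ // A.det = 1})

theorem eq_one_of_rho {ι : Type} [Infinite ι] (p : ι → ℕ) (hp : Function.Injective p)
    (γ : SpecialLinearGroup (Fin 3) ℤ) (i : ι) (h : ∀ l, l ≠ i → rho p γ l = 1) : γ = 1 := by
  apply Subtype.ext
  ext a b
  have hdiv : ∀ l, l ≠ i → (p l : ℤ) ∣ (γ.1 a b - (1 : Matrix (Fin 3) (Fin 3) ℤ) a b) := by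
    intro l hl
    have h1 : (rho p γ l).1 a b = (1 : Matrix (Fin 3) (Fin 3) (ZMod (p l))) a b := by
      rw [h l hl]; rfl
    rw [rho_apply] at h1
    rw [← ZMod.intCast_zmod_eq_zero_iff_dvd, Int.cast_sub, h1]
    by_cases hab : a = b
    · subst hab; simp
    · simp [Matrix.one_apply_ne hab]
  by_contra hne
  have hne' : γ.1 a b - (1 : Matrix (Fin 3) (Fin 3) ℤ) a b ≠ 0 := sub_ne_zero.2 hne
  have hfin : Set.Finite {l : ι | l ≠ i} := by
    apply Set.Finite.of_finite_image (f := p) _ hp.injOn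
    apply (Set.finite_Iic (γ.1 a b - (1 : Matrix (Fin 3) (Fin 3) ℤ) a b).natAbs).subset
    rintro _ ⟨l, hl, rfl⟩
    have := Int.natAbs_dvd_natAbs.2 (hdiv l hl)
    rw [Int.natAbs_natCast] at this
    exact Nat.le_of_dvd (Int.natAbs_pos.2 hne') this
  exact Set.infinite_of_finite_compl (s := ({i} : Set ι)) hfin (Set.finite_singleton i)

theorem measure_mul_right_le {ι : Type} {G : ι → Type} [∀ i, Group (G i)] [∀ i, Finite (G i)]
    [∀ i, MeasurableSpace (G i)] [∀ i, DiscreteMeasurableSpace (G i)] (S : Set (∀ i, G i))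
    (k : ∀ i, G i) : hk G {y | y * k ∈ S} ≤ hk G S := by
  calc hk G {y | y * k ∈ S} ≤ hk G ((fun y => y * k) ⁻¹' toMeasurable (hk G) S) :=
        measure_mono fun y hy => subset_toMeasurable _ _ hy
    _ = hk G (toMeasurable (hk G) S) :=
        (mp_right k).measure_preimage (measurableSet_toMeasurable _ _).nullMeasurableSet
    _ = hk G S := measure_toMeasurable _

theorem rigid_aux {ι κ : Type} [Countable κ] [DecidableEq ι] [Infinite ι] (p : ι → ℕ) (q : κ → ℕ)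
    [∀ i, Fact (p i).Prime] [∀ j, Fact (q j).Prime] (hp : Function.Injective p)
    (f : (∀ i, SL3 (p i)) → (∀ j, SL3 (q j))) (hf : Measurable f) (C : Set (∀ i, SL3 (p i)))
    (hC : ∀ᵐ z ∂(hk fun i => SL3 (p i)), z ∈ C)
    (hred : ∀ x ∈ C, ∀ y ∈ C, (∃ γ, y = rho p γ * x) ↔ (∃ γ, f y = rho q γ * f x)) :
    ∃ (F : Finset ι) (D : (∀ i, SL3 (p i)) →* (∀ j, SL3 (q j))) (z0 : ∀ i, SL3 (p i)),
      hk (fun i => SL3 (p i)) {y | ¬ (z0 * pr F y ∈ C ∧ f (z0 * pr F y) = f z0 * D y)} ≤ 1 / 8 ∧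
      ∀ i ∉ F, ∀ g : SL3 (p i), D (Pi.mulSingle i g) = 1 → g = 1 := by
  classical
  have h8 : (4 : ℝ≥0∞) * (1 / 8) < 1 := by
    rw [show (8 : ℝ≥0∞) = 4 * 2 by norm_num, one_div,
      ENNReal.mul_inv (Or.inl (by norm_num)) (Or.inl (by norm_num)), ← mul_assoc,
      ENNReal.mul_inv_cancel (by norm_num) (by norm_num), one_mul]
    exact ENNReal.inv_lt_one.2 (by norm_num)
  obtain ⟨F, D, z0, hDpr, hbad⟩ := rigid_core
    (fun (t : {t : Fin 3 × Fin 3 // t.1 ≠ t.2}) (l : ι) => tv t.1.1 t.1.2 t.2 (1 : ZMod (p l)))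
    (fun ε hε => gap_hk p hp ε hε) f hf (Set.range (rho q)) (Set.countable_range _)
    (by
      intro t
      have h1 : ∀ᵐ z ∂(hk fun i => SL3 (p i)),
          (fun (l : ι) => tv t.1.1 t.1.2 t.2 (1 : ZMod (p l))) * z ∈ C :=
        (mp_left _).quasiMeasurePreserving.ae hC
      filter_upwards [hC, h1] with z hz hz'
      obtain ⟨γ, hγ⟩ := (hred z hz _ hz').1 ⟨tv t.1.1 t.1.2 t.2 1, by rw [rho_tv]⟩
      exact ⟨γ, by rw [hγ]; group⟩)
    C hC (1 / 8) (by simp) h8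
  refine ⟨F, D, z0, hbad, ?_⟩
  intro i hi g hg
  obtain ⟨k, hk⟩ : ∃ k : ∀ i, SL3 (p i), k = Pi.mulSingle i g := ⟨_, rfl⟩
  rw [← hk] at hg
  have hk1 := measure_mul_right_le
    {y | ¬ (z0 * pr F y ∈ C ∧ f (z0 * pr F y) = f z0 * D y)} k
  obtain ⟨y, h1, h2, -⟩ := exists_three (CB.hk fun i => SL3 (p i))
    (fun y => z0 * pr F y ∈ C ∧ f (z0 * pr F y) = f z0 * D y)
    (fun y => z0 * pr F (y * k) ∈ C ∧ f (z0 * pr F (y * k)) = f z0 * D (y * k))
    (fun y => z0 * pr F y ∈ C ∧ f (z0 * pr F y) = f z0 * D y) (1 / 8) h8 hbad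
    (hk1.trans hbad) hbad
  have hkl : ∀ l, l ≠ i → k l = 1 := by
    intro l hl
    rw [hk, Pi.mulSingle_eq_of_ne hl]
  have e : pr F k = k := by
    funext l
    by_cases hl : l ∈ F
    · rw [pr_mem hl, hkl l (fun h => hi (h ▸ hl))]
    · rw [pr_not_mem hl]
  have hff : f (z0 * pr F (y * k)) = f (z0 * pr F y) := by
    rw [h1.2, h2.2, map_mul, hg, mul_one]
  obtain ⟨γ, hγ⟩ := (hred _ h1.1 _ h2.1).2 ⟨1, by rw [hff, map_one, one_mul]⟩
  rw [map_mul, e] at hγ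
  have hγ2 : rho p γ = (z0 * pr F y) * k * (z0 * pr F y)⁻¹ := by
    rw [← mul_assoc] at hγ
    rw [hγ]; group
  have hγ1 : γ = 1 := by
    apply eq_one_of_rho p hp γ i
    intro l hl
    rw [hγ2]
    show (z0 * pr F y) l * k l * ((z0 * pr F y) l)⁻¹ = 1
    rw [hkl l hl, mul_one, mul_inv_cancel]
  rw [hγ1, map_one] at hγ2
  have h6 : k = 1 := by
    have h5 : (z0 * pr F y) * k = z0 * pr F y := by
      calc (z0 * pr F y) * k
          = ((z0 * pr F y) * k * (z0 * pr F y)⁻¹) * (z0 * pr F y) := by group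
        _ = z0 * pr F y := by rw [← hγ2, one_mul]
    exact mul_eq_left.1 h5
  have h7 : k i = g := by rw [hk, Pi.mulSingle_eq_same]
  rw [← h7, h6]
  rfl

/-- Rigidity, part (a). -/
theorem rigid_a {ι κ : Type} [Countable κ] [DecidableEq ι] [Infinite ι] (p : ι → ℕ) (q : κ → ℕ)
    [∀ i, Fact (p i).Prime] [∀ j, Fact (q j).Prime] (hp : Function.Injective p)
    (h3 : ∀ i, 3 < p i)
    (f : (∀ i, SL3 (p i)) → (∀ j, SL3 (q j))) (hf : Measurable f) (C : Set (∀ i, SL3 (p i)))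
    (hC : ∀ᵐ z ∂(hk fun i => SL3 (p i)), z ∈ C)
    (hred : ∀ x ∈ C, ∀ y ∈ C, (∃ γ, y = rho p γ * x) ↔ (∃ γ, f y = rho q γ * f x)) :
    {i | ¬ ∃ j, q j = p i}.Finite := by
  obtain ⟨F, D, z0, -, hD⟩ := rigid_aux p q hp f hf C hC hred
  refine F.finite_toSet.subset ?_
  intro i hi
  by_contra hiF
  exact hi (alg_mem p q i (h3 i) D (hD i hiF))

/-- Rigidity, part (b). -/
theorem rigid_b {ι : Type} [Countable ι] [DecidableEq ι] [Infinite ι] (p : ι → ℕ)
    [∀ i, Fact (p i).Prime] (hp : Function.Injective p) (h3 : ∀ i, 3 < p i)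
    (f : (∀ i, SL3 (p i)) → (∀ j, SL3 (p j))) (hf : Measurable f) (C : Set (∀ i, SL3 (p i)))
    (hC : ∀ᵐ z ∂(hk fun i => SL3 (p i)), z ∈ C)
    (hred : ∀ x ∈ C, ∀ y ∈ C, (∃ γ, y = rho p γ * x) ↔ (∃ γ, f y = rho p γ * f x))
    (N : Set (∀ i, SL3 (p i))) (hNm : MeasurableSet N) (hN : hk (fun i => SL3 (p i)) N = 0) :
    ∃ x ∈ C, f x ∉ N := by
  classical
  obtain ⟨F, D, z0, hbad, hD⟩ := rigid_aux p p hp f hf C hC hred
  by_contra hcon
  push Not at hcon
  have hα : ∀ i, ∃ α : SL3 (p i) ≃ SL3 (p i), i ∉ F → ∀ x, D x i = α (x i) := by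
    intro i
    by_cases hi : i ∈ F
    · exact ⟨Equiv.refl _, fun h => absurd hi h⟩
    · obtain ⟨α, hα⟩ := alg_comp p hp i (h3 i) D (hD i hi)
      exact ⟨α, fun _ => hα⟩
  choose α hα using hα
  let β : (∀ i, SL3 (p i)) → (∀ i, SL3 (p i)) :=
    fun y i => ((α i).trans (Equiv.mulLeft (f z0 i))) (y i)
  have hβ : MeasurePreserving β (hk fun i => SL3 (p i)) (hk fun i => SL3 (p i)) :=
    hk_map_equiv (fun i => (α i).trans (Equiv.mulLeft (f z0 i)))
  let S : Set (∀ i, SL3 (p i)) := {c | ∀ i ∉ F, c i = 1}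
  have hS : S.Countable := by
    have : Set.InjOn (fun (c : ∀ i, SL3 (p i)) (i : F) => c i.1) S := by
      intro c hc c' hc' h
      funext i
      by_cases hi : i ∈ F
      · exact congrFun h ⟨i, hi⟩
      · rw [hc i hi, hc' i hi]
    exact Set.countable_of_injective_of_countable_image this (Set.to_countable _)
  have hNF : hk (fun i => SL3 (p i)) (⋃ c ∈ S, (fun ω => c * ω) ⁻¹' N) = 0 := by
    rw [measure_biUnion_null_iff hS]
    intro c _
    rw [(mp_left c).measure_preimage hNm.nullMeasurableSet, hN]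
  have hcov : (Set.univ : Set (∀ i, SL3 (p i))) ⊆
      {y | ¬ (z0 * pr F y ∈ C ∧ f (z0 * pr F y) = f z0 * D y)} ∪
      β ⁻¹' (⋃ c ∈ S, (fun ω => c * ω) ⁻¹' N) := by
    intro y _
    by_cases hy : z0 * pr F y ∈ C ∧ f (z0 * pr F y) = f z0 * D y
    · right
      have hyN : f z0 * D y ∈ N := by rw [← hy.2]; exact hcon _ hy.1
      refine Set.mem_biUnion (x := (f z0 * D y) * (β y)⁻¹) ?_ ?_
      · intro i hi
        show (f z0 i * D y i) * (β y i)⁻¹ = 1
        rw [hα i hi y]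
        show (f z0 i * α i (y i)) * (f z0 i * α i (y i))⁻¹ = 1
        exact mul_inv_cancel _
      · show (f z0 * D y) * (β y)⁻¹ * β y ∈ N
        rw [inv_mul_cancel_right]
        exact hyN
    · left; exact hy
  have h1 : (1 : ℝ≥0∞) ≤ 1 / 8 := by
    calc (1 : ℝ≥0∞) = hk (fun i => SL3 (p i)) Set.univ := measure_univ.symm
      _ ≤ _ := (measure_mono hcov).trans (measure_union_le _ _)
      _ ≤ 1 / 8 + 0 := by
          refine add_le_add hbad (le_of_eq ?_)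
          exact hβ.quasiMeasurePreserving.preimage_null hNF
      _ = 1 / 8 := add_zero _
  rw [one_div] at h1
  exact absurd (lt_of_le_of_lt h1 (ENNReal.inv_lt_one.2 (by norm_num))) (lt_irrefl _)

end Pool.Agent.Helper90.CB
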