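import Mathlib
import Pool.Agent.Helper90.CB.Rig
import Pool.Agent.Helper90.CB.Abs
set_option autoImplicit false
open Set MeasureTheory Matrix
open scoped ENNReal

namespace Pool.Agent.Helper90.CB

/-- ergodicity of the translation action -/
theorem erg_SL3 {ι : Type} (p : ι → ℕ) [∀ i, Fact (p i).Prime] (hp : Function.Injective p)
    {D : Type} [MeasurableSpace D] [StandardBorelSpace D] (W : (∀ i, SL3 (p i)) → D)
    (hW : Measurable W) (hinv : ∀ γ z, W (rho p γ * z) = W z) :
    ∃ d, ∀ᵐ z ∂(hk fun i => SL3 (p i)), W z = d := by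
  have key : ∀ ε : ℝ≥0∞, 0 < ε → ∃ c, hk (fun i => SL3 (p i)) {z | ¬ W z = c} ≤ ε := by
    intro ε hε
    obtain ⟨η, hη, h⟩ := gap_fun (B := D) (hk fun i => SL3 (p i))
      (fun (t : {t : Fin 3 × Fin 3 // t.1 ≠ t.2}) (z : ∀ i, SL3 (p i)) =>
        (fun (l : ι) => tv t.1.1 t.1.2 t.2 (1 : ZMod (p l))) * z)
      (fun ε hε => gap_hk p hp ε hε) ε hε
    apply h W hW
    intro t
    have : {z | ¬ W ((fun (l : ι) => tv t.1.1 t.1.2 t.2 (1 : ZMod (p l))) * z) = W z} = ∅ := by
      ext z
      simp only [Set.mem_setOf_eq, Set.mem_empty_iff_false, iff_false, not_not]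
      rw [← rho_tv, hinv]
    rw [this, measure_empty]
    exact zero_le
  have h8 : (4 : ℝ≥0∞) * (1 / 8) < 1 := by
    rw [show (8 : ℝ≥0∞) = 4 * 2 by norm_num, one_div,
      ENNReal.mul_inv (Or.inl (by norm_num)) (Or.inl (by norm_num)), ← mul_assoc,
      ENNReal.mul_inv_cancel (by norm_num) (by norm_num), one_mul]
    exact ENNReal.inv_lt_one.2 (by norm_num)
  obtain ⟨c, hc⟩ := key (1 / 8) (by simp)
  refine ⟨c, ?_⟩
  show hk (fun i => SL3 (p i)) {z | ¬ W z = c} = 0
  apply le_antisymm _ zero_le
  apply le_of_forall_pos_le_add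
  intro ε hε
  rw [zero_add]
  obtain ⟨c', hc'⟩ := key (min ε (1 / 8)) (lt_min hε (by simp))
  have e : c = c' := by
    obtain ⟨z, h1, h2, -⟩ := exists_three (hk fun i => SL3 (p i)) _ _ _ (1 / 8) h8 hc
      (hc'.trans (min_le_right _ _)) hc
    rw [← h1, ← h2]
  rw [e]
  exact hc'.trans (min_le_left _ _)

/-- the primes -/
noncomputable def PP (l : List Bool) : ℕ := Nat.nth Nat.Prime (Encodable.encode l + 2)

instance instPP (l : List Bool) : Fact (PP l).Prime := ⟨Nat.prime_nth_prime _⟩

theorem PP_inj : Function.Injective PP := by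
  intro a b h
  have h1 := Nat.nth_injective Nat.infinite_setOf_prime h
  exact Encodable.encode_injective (by omega)

theorem PP_gt (l : List Bool) : 3 < PP l := by
  unfold PP
  have h := Nat.nth_strictMono Nat.infinite_setOf_prime
    (show 1 < Encodable.encode l + 2 by omega)
  have h1 : Nat.nth Nat.Prime 1 = 3 := Nat.nth_prime_one_eq_three
  rw [h1] at h
  exact h

/-- the set of finite prefixes -/
def SS (x : ℕ → Bool) : Set (List Bool) := {l | ∀ i : Fin l.length, x i = l.get i}

theorem SS_meas (l : List Bool) : MeasurableSet {x : ℕ → Bool | l ∈ SS x} := by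
  have : {x : ℕ → Bool | l ∈ SS x} = ⋂ i : Fin l.length, {x | x i = l.get i} := by
    ext x; simp [SS]
  rw [this]
  exact MeasurableSet.iInter fun i =>
    measurableSet_eq_fun (measurable_pi_apply (i : ℕ)) measurable_const

theorem ofFn_mem (x : ℕ → Bool) (n : ℕ) : List.ofFn (fun i : Fin n => x i) ∈ SS x := by
  intro i
  simp

theorem SS_infinite (x : ℕ → Bool) : (SS x).Infinite := by
  apply Set.infinite_of_injective_forall_mem (f := fun n => List.ofFn (fun i : Fin n => x i))
  · intro a b h
    have := congrArg List.length h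
    simpa using this
  · exact ofFn_mem x

theorem SS_diff {x y : ℕ → Bool} (h : (SS x \ SS y).Finite) : x = y := by
  by_contra hne
  obtain ⟨m, hm⟩ : ∃ m, x m ≠ y m := by
    by_contra hcon
    push Not at hcon
    exact hne (funext hcon)
  have : (Set.Ioi m).Finite := by
    refine Set.Finite.of_finite_image (f := fun n => List.ofFn (fun i : Fin n => x i))
      (h.subset ?_) ?_
    · rintro _ ⟨n, hn, rfl⟩
      refine ⟨ofFn_mem x n, ?_⟩
      intro hy
      have hy := hy ⟨m, by simpa using hn⟩
      apply hm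
      simp at hy
      exact hy.symm
    · intro a _ b _ h
      have := congrArg List.length h
      simpa using this
  exact (Set.Ioi_infinite m) this

/-- ambient compact group -/
abbrev KK := ∀ l : List Bool, SL3 (PP l)

/-- total space -/
abbrev XX := {q : (ℕ → Bool) × KK // ∀ l, l ∉ SS q.1 → q.2 l = 1}

theorem XX_meas : MeasurableSet {q : (ℕ → Bool) × KK | ∀ l, l ∉ SS q.1 → q.2 l = 1} := by
  have : {q : (ℕ → Bool) × KK | ∀ l, l ∉ SS q.1 → q.2 l = 1} =
      ⋂ l, ((Prod.fst ⁻¹' {x | l ∈ SS x}) ∪ {q : (ℕ → Bool) × KK | q.2 l = 1}) := by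
    ext q
    simp only [Set.mem_setOf_eq, Set.mem_iInter, Set.mem_union, Set.mem_preimage]
    constructor
    · intro h l
      by_cases hl : l ∈ SS q.1
      · left; exact hl
      · right; exact h l hl
    · intro h l hl
      rcases h l with h1 | h1
      · exact absurd h1 hl
      · exact h1
  rw [this]
  refine MeasurableSet.iInter fun l => MeasurableSet.union (measurable_fst (SS_meas l)) ?_
  exact ((measurable_pi_apply l).comp measurable_snd) (measurableSet_singleton 1)

instance instSBXX : StandardBorelSpace XX := XX_meas.standardBorel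

/-- the index map -/
def ix (q : XX) : ℕ → Bool := q.1.1

theorem ix_meas : Measurable ix := measurable_fst.comp measurable_subtype_coe

/-- the equivalence relation -/
def EE (a b : XX) : Prop :=
  ix a = ix b ∧ ∃ γ : SpecialLinearGroup (Fin 3) ℤ, ∀ l ∈ SS (ix a), b.1.2 l = rho PP γ l * a.1.2 l

theorem EE_equiv : Equivalence EE := by
  refine ⟨fun a => ⟨rfl, 1, fun l _ => by rw [map_one]; simp⟩, ?_, ?_⟩
  · rintro a b ⟨h, γ, hγ⟩
    refine ⟨h.symm, γ⁻¹, fun l hl => ?_⟩
    rw [← h] at hl
    rw [hγ l hl, map_inv]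
    simp
  · rintro a b c ⟨h, γ, hγ⟩ ⟨h', γ', hγ'⟩
    refine ⟨h.trans h', γ' * γ, fun l hl => ?_⟩
    rw [hγ' l (h ▸ hl), hγ l hl, map_mul, Pi.mul_apply, mul_assoc]

theorem EE_meas : MeasurableSet {p : XX × XX | EE p.1 p.2} := by
  have : {p : XX × XX | EE p.1 p.2} = {p | ix p.1 = ix p.2} ∩
      ⋃ γ : SpecialLinearGroup (Fin 3) ℤ, ⋂ l : List Bool,
        (((fun p : XX × XX => ix p.1) ⁻¹' {x | l ∈ SS x})ᶜ ∪
          {p : XX × XX | p.2.1.2 l = rho PP γ l * p.1.1.2 l}) := by
    ext p
    simp only [EE, Set.mem_setOf_eq, Set.mem_inter_iff, Set.mem_iUnion, Set.mem_iInter,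
      Set.mem_union, Set.mem_compl_iff, Set.mem_preimage]
    refine and_congr Iff.rfl (exists_congr fun γ => forall_congr' fun l => ?_)
    exact imp_iff_not_or
  rw [this]
  refine (measurableSet_eq_fun (ix_meas.comp measurable_fst) (ix_meas.comp measurable_snd)).inter
    (MeasurableSet.iUnion fun γ => MeasurableSet.iInter fun l => MeasurableSet.union ?_ ?_)
  · exact ((ix_meas.comp measurable_fst) (SS_meas l)).compl
  · have h1 : ∀ l, Measurable fun a : XX => a.1.2 l := fun l =>
      (measurable_pi_apply l).comp (measurable_snd.comp measurable_subtype_coe)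
    have h2 : Measurable fun g : SL3 (PP l) => rho PP γ l * g := Measurable.of_discrete
    exact measurableSet_eq_fun ((h1 l).comp measurable_snd) (h2.comp ((h1 l).comp measurable_fst))

theorem EE_count (a : XX) : {b | EE a b}.Countable := by
  refine (Set.countable_range (fun γ : SpecialLinearGroup (Fin 3) ℤ =>
    ((fun l => by classical exact if l ∈ SS (ix a) then rho PP γ l * a.1.2 l else 1) : KK))).mono
    (s₁ := (fun b : XX => b.1.2) '' {b | EE a b}) ?_ |> Set.countable_of_injective_of_countable_image ?_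
  · intro b hb c hc h
    apply Subtype.ext
    exact Prod.ext (hb.1.symm.trans hc.1) h
  · rintro _ ⟨b, ⟨h, γ, hγ⟩, rfl⟩
    refine ⟨γ, ?_⟩
    funext l
    by_cases hl : l ∈ SS (ix a)
    · simp only [hl, if_true]
      exact (hγ l hl).symm
    · simp only [hl, if_false]
      exact (b.2 l (by rw [← show ix a = b.1.1 from h]; exact hl)).symm

open Classical in
/-- truncation map -/
noncomputable def Ph (q : (ℕ → Bool) × KK) : XX :=
  ⟨(q.1, fun l => if l ∈ SS q.1 then q.2 l else 1), fun l hl => if_neg hl⟩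

theorem Ph_meas : Measurable Ph := by
  apply Measurable.subtype_mk
  refine measurable_fst.prodMk (measurable_pi_lambda _ fun l => ?_)
  exact Measurable.ite (measurable_fst (SS_meas l))
    ((measurable_pi_apply l).comp measurable_snd) measurable_const

/-- the measures -/
noncomputable def mm (r : ℕ → Bool) : Measure XX :=
  (hk (fun l => SL3 (PP l))).map (fun k => Ph (r, k))

theorem Ph_meas' (r : ℕ → Bool) : Measurable fun k : KK => Ph (r, k) :=
  Ph_meas.comp measurable_prodMk_left

open Classical in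
/-- embedding of the fibre group -/
noncomputable def em (r : ℕ → Bool) (z : ∀ l : SS r, SL3 (PP l)) : XX :=
  ⟨(r, fun l => if h : l ∈ SS r then z ⟨l, h⟩ else 1), fun l hl => dif_neg hl⟩

theorem em_apply (r : ℕ → Bool) (z : ∀ l : SS r, SL3 (PP l)) (l : SS r) :
    (em r z).1.2 l = z l := by
  simp [em, l.2]

theorem em_meas (r : ℕ → Bool) : Measurable (em r) := by
  apply Measurable.subtype_mk
  refine measurable_const.prodMk (measurable_pi_lambda _ fun l => ?_)
  by_cases h : l ∈ SS r
  · simp only [h, dif_pos]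
    exact measurable_pi_apply (⟨l, h⟩ : SS r)
  · simp only [h, dif_neg, not_false_eq_true]
    exact measurable_const

/-- restriction to the coordinates in `SS r` -/
def rs (r : ℕ → Bool) (a : XX) : ∀ l : SS r, SL3 (PP l) := fun l => a.1.2 l

theorem rs_meas (r : ℕ → Bool) : Measurable (rs r) :=
  measurable_pi_lambda _ fun l =>
    (measurable_pi_apply (l : List Bool)).comp (measurable_snd.comp measurable_subtype_coe)

theorem em_rs {r : ℕ → Bool} {a : XX} (h : ix a = r) : em r (rs r a) = a := by
  subst h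
  apply Subtype.ext
  refine Prod.ext rfl ?_
  funext l
  by_cases hl : l ∈ SS (ix a)
  · simp [em, rs, hl]
  · simp only [em, hl, dif_neg, not_false_eq_true]
    exact (a.2 l hl).symm

theorem mm_eq (r : ℕ → Bool) : mm r = (hk (fun l : SS r => SL3 (PP l))).map (em r) := by
  have h : (hk (fun l => SL3 (PP l))).map (SS r).domRestrict
      = hk (fun l : SS r => SL3 (PP l)) := by
    unfold hk
    exact Measure.infinitePi_map_restrict' _
  rw [← h, Measure.map_map (em_meas r) (by
    exact measurable_pi_lambda _ fun l => measurable_pi_apply (l : List Bool))]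
  unfold mm
  congr 1

theorem EE_em (r : ℕ → Bool) (z w : ∀ l : SS r, SL3 (PP l)) :
    EE (em r z) (em r w) ↔ ∃ γ, w = rho (fun l : SS r => PP l) γ * z := by
  constructor
  · rintro ⟨-, γ, hγ⟩
    refine ⟨γ, ?_⟩
    funext l
    have := hγ l.1 l.2
    rw [em_apply, em_apply] at this
    exact this
  · rintro ⟨γ, hγ⟩
    refine ⟨rfl, γ, fun l hl => ?_⟩
    have h1 := em_apply r z ⟨l, hl⟩
    have h2 := em_apply r w ⟨l, hl⟩
    simp only at h1 h2
    rw [h1, h2, hγ]
    rfl

theorem rigidFam : RigidFam XX (ℕ → Bool) ix EE mm where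
  meas_idx := ix_meas
  equiv := EE_equiv
  measE := EE_meas
  countE := EE_count
  idxE := fun _ _ h => h.1
  meas_μ := by
    intro s hs
    have h := measurable_measure_prodMk_left (ν := hk (fun l => SL3 (PP l))) (Ph_meas hs)
    have e : (fun r => mm r s) = fun r => hk (fun l => SL3 (PP l)) (Prod.mk r ⁻¹' (Ph ⁻¹' s)) := by
      funext r
      rw [mm, Measure.map_apply (Ph_meas' r) hs]
      rfl
    rw [e]
    exact h
  prob := fun r => Measure.isProbabilityMeasure_map (Ph_meas' r).aemeasurable
  conc := by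
    intro r
    rw [mm, ae_map_iff (Ph_meas' r).aemeasurable
      (measurableSet_eq_fun ix_meas measurable_const)]
    exact Filter.Eventually.of_forall fun k => rfl
  erg := by
    intro r D _ _ F hF hinv
    obtain ⟨d, hd⟩ := erg_SL3 (fun l : SS r => PP l) (PP_inj.comp Subtype.val_injective)
      (fun z => F (em r z)) (hF.comp (em_meas r)) (by
        intro γ z
        exact (hinv (em r z) (em r _) rfl ((EE_em r _ _).2 ⟨γ, rfl⟩)).symm)
    refine ⟨d, ?_⟩
    rw [mm_eq, ae_map_iff (em_meas r).aemeasurable (measurableSet_eq_fun hF measurable_const)]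
    exact hd
  rigid := by
    intro r r' C hCm hC hCr f hf hfr' hred
    have hinf : Infinite (SS r) := (SS_infinite r).to_subtype
    have hCt : ∀ᵐ z ∂(hk (fun l : SS r => SL3 (PP l))), z ∈ em r ⁻¹' C := by
      rw [mm_eq] at hC
      exact (ae_map_iff (em_meas r).aemeasurable hCm).1 hC
    have hft : Measurable fun z => rs r' (f (em r z)) := (rs_meas r').comp (hf.comp (em_meas r))
    have hredt : ∀ x ∈ em r ⁻¹' C, ∀ y ∈ em r ⁻¹' C,
        (∃ γ, y = rho (fun l : SS r => PP l) γ * x) ↔
        (∃ γ, rs r' (f (em r y)) = rho (fun l : SS r' => PP l) γ * rs r' (f (em r x))) := by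
      intro x hx y hy
      rw [← EE_em, ← EE_em, em_rs (hfr' _ hx), em_rs (hfr' _ hy)]
      exact hred _ hx _ hy
    have hr : r = r' := by
      have h := rigid_a (fun l : SS r => PP l) (fun l : SS r' => PP l)
        (PP_inj.comp Subtype.val_injective) (fun l => PP_gt l) _ hft _ hCt hredt
      apply SS_diff
      refine (h.image Subtype.val).subset ?_
      rintro l ⟨hl, hl'⟩
      refine ⟨⟨l, hl⟩, ?_, rfl⟩
      rintro ⟨j, hj⟩
      have := PP_inj hj
      have h2 : l ∈ SS r' := by
        have h3 := j.2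
        rw [this] at h3
        exact h3
      exact hl' h2
    refine ⟨hr, ?_⟩
    subst hr
    intro N hN hN0
    obtain ⟨x, hx, hxN⟩ := rigid_b (fun l : SS r => PP l) (PP_inj.comp Subtype.val_injective)
      (fun l => PP_gt l) _ hft _ hCt hredt (em r ⁻¹' N) (em_meas r hN) (by
        rw [mm_eq, Measure.map_apply (em_meas r) hN] at hN0
        exact hN0)
    refine ⟨em r x, hx, ?_⟩
    intro hcon
    apply hxN
    show em r (rs r (f (em r x))) ∈ N
    rw [em_rs (hfr' _ hx)]
    exact hcon

end Pool.Agent.Helper90.CB
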